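import Pool.Agent.H142.NT.Defs2

set_option autoImplicit false

open Finset Classical

namespace Pool.Agent.H142.NT

variable {V : Type} [Fintype V]

theorem dep_root (r : V) (p : V → V) : dep r p r = 0 := by
  unfold dep
  exact Nat.sInf_eq_zero.2 (Or.inl rfl)

theorem iter_dep {G : SimpleGraph V} {r : V} {p : V → V} (h : IsPar G r p) (v : V) :
    p^[dep r p v] v = r :=
  Nat.sInf_mem (s := {k | p^[k] v = r}) (h.reach v)

theorem dep_le_B0a (r : V) (p : V → V) (v : V) (k : ℕ) (hk : p^[k] v = r) : dep r p v ≤ k :=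
  Nat.sInf_le hk

theorem dep_eq_zero {G : SimpleGraph V} {r : V} {p : V → V} (h : IsPar G r p) (v : V) :
    dep r p v = 0 ↔ v = r := by
  constructor
  · intro h0
    have := iter_dep h v
    rw [h0] at this
    exact this
  · rintro rfl
    exact dep_root _ _

theorem dep_par {G : SimpleGraph V} {r : V} {p : V → V} (h : IsPar G r p) (v : V) (hv : v ≠ r) :
    dep r p (p v) + 1 = dep r p v := by
  have h1 : dep r p v ≠ 0 := fun h0 => hv ((dep_eq_zero h v).1 h0)
  obtain ⟨k, hk⟩ := Nat.exists_eq_succ_of_ne_zero h1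
  have h2 := iter_dep h v
  rw [hk, Nat.succ_eq_add_one, Function.iterate_succ_apply] at h2
  have h3 := dep_le_B0a r p (p v) k h2
  have h4 : dep r p v ≤ dep r p (p v) + 1 := by
    apply dep_le_B0a
    rw [Function.iterate_succ_apply]
    exact iter_dep h (p v)
  omega

theorem iter_ne {G : SimpleGraph V} {r : V} {p : V → V} (h : IsPar G r p) (v : V) (k : ℕ)
    (hk : k < dep r p v) : p^[k] v ≠ r := by
  intro h0
  have := dep_le_B0a r p v k h0
  omega

theorem dep_iter {G : SimpleGraph V} {r : V} {p : V → V} (h : IsPar G r p) (v : V) (k : ℕ)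
    (hk : k ≤ dep r p v) : dep r p (p^[k] v) + k = dep r p v := by
  induction k with
  | zero => rfl
  | succ k ih =>
    have h1 := ih (by omega)
    have h2 := dep_par h (p^[k] v) (iter_ne h v k (by omega))
    rw [Function.iterate_succ_apply']
    omega

theorem dep_lt {G : SimpleGraph V} {r : V} {p : V → V} (h : IsPar G r p) (v : V) :
    dep r p v < Fintype.card V := by
  have hinj : Function.Injective (fun i : Fin (dep r p v + 1) => p^[(i : ℕ)] v) := by
    intro i j hij
    have h1 := dep_iter h v i (by omega)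
    have h2 := dep_iter h v j (by omega)
    simp only at hij
    rw [hij] at h1
    apply Fin.ext
    omega
  have := Fintype.card_le_of_injective _ hinj
  rw [Fintype.card_fin] at this
  omega

theorem mem_kids (r : V) (p : V → V) (v c : V) : c ∈ kids r p v ↔ c ≠ r ∧ p c = v := by
  simp [kids]

theorem mem_nbr (G : SimpleGraph V) (v w : V) : w ∈ nbr G v ↔ G.Adj v w := by
  simp [nbr]

theorem kids_sub {G : SimpleGraph V} {r : V} {p : V → V} (h : IsPar G r p) (v : V) :
    kids r p v ⊆ nbr G v := by
  intro c hc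
  rw [mem_kids] at hc
  rw [mem_nbr, ← hc.2]
  exact (h.adj c hc.1).symm

theorem dep_kid {G : SimpleGraph V} {r : V} {p : V → V} (h : IsPar G r p) {v c : V}
    (hc : c ∈ kids r p v) : dep r p c = dep r p v + 1 := by
  rw [mem_kids] at hc
  rw [← dep_par h c hc.1, hc.2]

end Pool.Agent.H142.NT
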