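import Pool.Agent.H142.NT.Defs2
import Pool.Agent.H142.NT.B0a

set_option autoImplicit false

open Finset Classical

namespace Pool.Agent.H142.NT

variable {V : Type} [Fintype V]

section
variable {G : SimpleGraph V} {r : V} {p : V → V} {I : Finset V} {Q : V → Finset V}
  {u : V → V} {K : ℕ} {f : V → ℕ → V → V}

theorem asm_of_mem (h : Sys G r p I Q u K f) (S : V → ℕ) {x v : V} (hx : x ∈ I) (hv : v ∈ Q x) :
    asm p I Q f S v = f x (S x) v := by
  have hex : ∃ x ∈ I, v ∈ Q x := ⟨x, hx, hv⟩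
  unfold asm
  rw [dif_pos hex]
  have hy := hex.choose_spec
  have : hex.choose = x := by
    by_contra hne
    exact Finset.disjoint_left.mp (h.disj _ hy.1 _ hx hne) hy.2 hv
  rw [this]

theorem asm_of_not (S : V → ℕ) {v : V} (hv : ∀ x ∈ I, v ∉ Q x) :
    asm p I Q f S v = p v := by
  have hex : ¬ ∃ x ∈ I, v ∈ Q x := by
    rintro ⟨x, hx, hv'⟩
    exact hv x hx hv'
  unfold asm
  rw [dif_neg hex]

theorem iter_out_ASM (h : Sys G r p I Q u K f) (S : V → ℕ) {v : V} (hv : ∀ x ∈ I, v ∉ Q x) :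
    ∀ k : ℕ, (asm p I Q f S)^[k] v = p^[k] v ∧ ∀ x ∈ I, p^[k] v ∉ Q x := by
  intro k
  induction k with
  | zero => exact ⟨rfl, hv⟩
  | succ k ih =>
    obtain ⟨h1, h2⟩ := ih
    rw [Function.iterate_succ_apply', Function.iterate_succ_apply', h1]
    exact ⟨asm_of_not S h2, h.closed _ h2⟩

theorem reach_out_ASM (h : Sys G r p I Q u K f) (S : V → ℕ) {v : V} (hv : ∀ x ∈ I, v ∉ Q x) :
    ∃ k, (asm p I Q f S)^[k] v = r := by
  obtain ⟨k, hk⟩ := h.par.reach v
  exact ⟨k, by rw [(iter_out_ASM h S hv k).1, hk]⟩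

theorem iter_in_ASM (h : Sys G r p I Q u K f) (S : V → ℕ) {x v : V} (hx : x ∈ I) (k : ℕ)
    (hk : ∀ j < k, (f x (S x))^[j] v ∈ Q x) :
    (asm p I Q f S)^[k] v = (f x (S x))^[k] v := by
  induction k with
  | zero => rfl
  | succ k ih =>
    rw [Function.iterate_succ_apply', Function.iterate_succ_apply',
      ih (fun j hj => hk j (by omega))]
    exact asm_of_mem h S hx (hk k (by omega))

theorem asm_isPar (h : Sys G r p I Q u K f) (S : V → ℕ) (hS : ∀ x ∈ I, S x < K) :
    IsPar G r (asm p I Q f S) := by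
  refine ⟨?_, ?_, ?_⟩
  · rw [asm_of_not S (fun x hx => h.root x hx)]
    exact h.par.root
  · intro v hv
    by_cases hex : ∃ x ∈ I, v ∈ Q x
    · obtain ⟨x, hx, hvx⟩ := hex
      rw [asm_of_mem h S hx hvx]
      exact h.adj x hx _ (hS x hx) v hvx
    · rw [asm_of_not S (fun x hx hvx => hex ⟨x, hx, hvx⟩)]
      exact h.par.adj v hv
  · intro v
    by_cases hex : ∃ x ∈ I, v ∈ Q x
    · obtain ⟨x, hx, hvx⟩ := hex
      have hexit := h.exit x hx _ (hS x hx) v hvx
      have hmin : ∀ j < Nat.find hexit, (f x (S x))^[j] v ∈ Q x := by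
        intro j hj
        by_contra hcon
        exact Nat.find_min hexit hj hcon
      have hspec := Nat.find_spec hexit
      obtain ⟨m, hm⟩ : ∃ m, Nat.find hexit = m + 1 := by
        refine Nat.exists_eq_succ_of_ne_zero ?_
        intro h0
        rw [h0] at hspec
        exact hspec hvx
      rw [hm] at hmin hspec
      have hit := iter_in_ASM h S hx (m + 1) hmin
      have hout : ∀ y ∈ I, (f x (S x))^[m + 1] v ∉ Q y := by
        have hmQ := hmin m (by omega)
        have hmaps := h.maps x hx _ (hS x hx) _ hmQ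
        rw [← Function.iterate_succ_apply' (f x (S x)) m v] at hmaps
        rcases hmaps with h1 | h1 | ⟨h1, h2⟩
        · exact absurd h1 hspec
        · intro y hy
          have h1' : (f x (S x))^[m + 1] v = x := h1
          rw [h1']
          exact h.base x hx y hy
        · intro y hy
          have h1' : (f x (S x))^[m + 1] v = u x := h1
          rw [h1']
          exact (h2 y hy).1
      obtain ⟨k, hk⟩ := reach_out_ASM h S hout
      refine ⟨k + (m + 1), ?_⟩
      rw [Function.iterate_add_apply, hit, hk]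
    · exact reach_out_ASM h S (fun x hx hvx => hex ⟨x, hx, hvx⟩)

/-- children in the modified tree of a vertex outside the sets `Q x` -/
theorem kids_asm (h : Sys G r p I Q u K f) (S : V → ℕ) (hS : ∀ x ∈ I, S x < K) (v : V)
    (hv : ∀ x ∈ I, v ∉ Q x) (c : V) (hc : c ∈ kids r (asm p I Q f S) v) :
    (c ∈ kids r p v ∧ ∀ x ∈ I, c ∉ Q x) ∨
    (∃ x ∈ I, c ∈ Q x ∧ f x (S x) c = v ∧ (v = x ∨ (v = u x ∧ ∀ y ∈ I, v ≠ y))) := by
  rw [mem_kids] at hc
  obtain ⟨hcr, hcv⟩ := hc
  by_cases hex : ∃ x ∈ I, c ∈ Q x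
  · right
    obtain ⟨x, hx, hcx⟩ := hex
    rw [asm_of_mem h S hx hcx] at hcv
    refine ⟨x, hx, hcx, hcv, ?_⟩
    have hmaps := h.maps x hx _ (hS x hx) c hcx
    rw [hcv] at hmaps
    rcases hmaps with h1 | h1 | ⟨h1, h2⟩
    · exact absurd h1 (hv x hx)
    · exact Or.inl h1
    · refine Or.inr ⟨h1, ?_⟩
      intro y hy
      rw [h1]
      exact (h2 y hy).2
  · left
    have hout : ∀ x ∈ I, c ∉ Q x := fun x hx hcx => hex ⟨x, hx, hcx⟩
    rw [asm_of_not S hout] at hcv
    exact ⟨(mem_kids r p v c).mpr ⟨hcr, hcv⟩, hout⟩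

/-- children in the modified tree of a vertex of `Q x` -/
theorem kids_asm_in (h : Sys G r p I Q u K f) (S : V → ℕ) (hS : ∀ x ∈ I, S x < K) (x : V)
    (hx : x ∈ I) (v : V) (hv : v ∈ Q x) : kids r (asm p I Q f S) v ⊆ Q x := by
  intro c hc
  rw [mem_kids] at hc
  obtain ⟨hcr, hcv⟩ := hc
  by_cases hex : ∃ y ∈ I, c ∈ Q y
  · obtain ⟨y, hy, hcy⟩ := hex
    by_cases hxy : y = x
    · rw [hxy] at hcy
      exact hcy
    · exfalso
      rw [asm_of_mem h S hy hcy] at hcv
      have hmaps := h.maps y hy _ (hS y hy) c hcy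
      rw [hcv] at hmaps
      rcases hmaps with h1 | h1 | ⟨h1, h2⟩
      · exact Finset.disjoint_left.mp (h.disj y hy x hx hxy) h1 hv
      · rw [h1] at hv
        exact h.base y hy x hx hv
      · rw [h1] at hv
        exact (h2 x hx).1 hv
  · exfalso
    have hout : ∀ x ∈ I, c ∉ Q x := fun x hx hcx => hex ⟨x, hx, hcx⟩
    rw [asm_of_not S hout] at hcv
    have := h.closed c hout x hx
    rw [hcv] at this
    exact this hv

end

end Pool.Agent.H142.NT
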