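import Pool.Agent.H142.NT.Defs2
import Pool.Agent.H142.NT.B0a

set_option autoImplicit false

open Finset Classical

namespace Pool.Agent.H142.NT

variable {V : Type} [Fintype V]

theorem mem_desc_B0b (r : V) (p : V → V) (v u : V) :
    u ∈ desc r p v ↔ ∃ k, k ≤ dep r p u ∧ p^[k] u = v := by
  simp [desc]

theorem self_mem_desc (r : V) (p : V → V) (v : V) : v ∈ desc r p v := by
  rw [mem_desc_B0b]
  exact ⟨0, Nat.zero_le _, rfl⟩

theorem par_mem_desc {G : SimpleGraph V} {r : V} {p : V → V} (h : IsPar G r p) {v u : V}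
    (hu : u ∈ desc r p v) (hne : u ≠ v) : u ≠ r ∧ p u ∈ desc r p v := by
  rw [mem_desc_B0b] at hu
  obtain ⟨k, hk, hkv⟩ := hu
  rcases k with _ | j
  · exact absurd hkv hne
  · have hur : u ≠ r := by
      intro e
      rw [e, dep_root] at hk
      omega
    refine ⟨hur, ?_⟩
    rw [mem_desc_B0b]
    refine ⟨j, ?_, ?_⟩
    · have := dep_par h u hur
      omega
    · rw [← Function.iterate_succ_apply]
      exact hkv

theorem mem_desc_of_par {G : SimpleGraph V} {r : V} {p : V → V} (h : IsPar G r p) {v u : V}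
    (hr : u ≠ r) (hu : p u ∈ desc r p v) : u ∈ desc r p v := by
  rw [mem_desc_B0b] at hu ⊢
  obtain ⟨k, hk, hkv⟩ := hu
  refine ⟨k + 1, ?_, ?_⟩
  · have := dep_par h u hr
    omega
  · rw [Function.iterate_succ_apply]
    exact hkv

theorem desc_root {G : SimpleGraph V} {r : V} {p : V → V} (h : IsPar G r p) :
    desc r p r = univ := by
  ext u
  rw [mem_desc_B0b]
  exact ⟨fun _ => mem_univ _, fun _ => ⟨dep r p u, le_rfl, iter_dep h u⟩⟩

theorem dep_le_of_desc {G : SimpleGraph V} {r : V} {p : V → V} (h : IsPar G r p) {v u : V}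
    (hu : u ∈ desc r p v) : dep r p v ≤ dep r p u ∧ p^[dep r p u - dep r p v] u = v := by
  rw [mem_desc_B0b] at hu
  obtain ⟨k, hk, hkv⟩ := hu
  have h1 := dep_iter h u k hk
  rw [hkv] at h1
  have h2 : dep r p u - dep r p v = k := by omega
  refine ⟨by omega, ?_⟩
  rw [h2]
  exact hkv

theorem desc_trans {G : SimpleGraph V} {r : V} {p : V → V} (h : IsPar G r p) {v u w : V}
    (hu : u ∈ desc r p v) (hw : w ∈ desc r p u) : w ∈ desc r p v := by
  rw [mem_desc_B0b] at hu hw ⊢
  obtain ⟨k, hk, hkv⟩ := hu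
  obtain ⟨l, hl, hlu⟩ := hw
  have h1 := dep_iter h w l hl
  rw [hlu] at h1
  refine ⟨k + l, by omega, ?_⟩
  rw [Function.iterate_add_apply, hlu]
  exact hkv

/-- two vertices with a common descendant are comparable -/
theorem desc_comp {G : SimpleGraph V} {r : V} {p : V → V} (h : IsPar G r p) {v v' u : V}
    (hu : u ∈ desc r p v) (hu' : u ∈ desc r p v') : v ∈ desc r p v' ∨ v' ∈ desc r p v := by
  rw [mem_desc_B0b] at hu hu'
  obtain ⟨k, hk, hkv⟩ := hu
  obtain ⟨l, hl, hlu⟩ := hu'
  have h1 := dep_iter h u k hk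
  have h2 := dep_iter h u l hl
  rw [hkv] at h1
  rw [hlu] at h2
  rcases le_total k l with hkl | hkl
  · left
    rw [mem_desc_B0b]
    refine ⟨l - k, by omega, ?_⟩
    rw [← hkv, ← Function.iterate_add_apply, Nat.sub_add_cancel hkl]
    exact hlu
  · right
    rw [mem_desc_B0b]
    refine ⟨k - l, by omega, ?_⟩
    rw [← hlu, ← Function.iterate_add_apply, Nat.sub_add_cancel hkl]
    exact hkv

theorem desc_eq {G : SimpleGraph V} {r : V} {p : V → V} (h : IsPar G r p) (v : V) :
    desc r p v = insert v ((kids r p v).biUnion (desc r p)) := by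
  ext u
  rw [mem_insert, mem_biUnion]
  constructor
  · intro hu
    rw [mem_desc_B0b] at hu
    obtain ⟨k, hk, hkv⟩ := hu
    rcases k with _ | j
    · exact Or.inl hkv
    · right
      refine ⟨p^[j] u, ?_, ?_⟩
      · rw [mem_kids]
        refine ⟨iter_ne h u j (by omega), ?_⟩
        exact (Function.iterate_succ_apply' p j u).symm.trans hkv
      · rw [mem_desc_B0b]
        exact ⟨j, by omega, rfl⟩
  · rintro (rfl | ⟨c, hc, hu⟩)
    · exact self_mem_desc r p u
    · have hc' := (mem_kids r p v c).1 hc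
      refine desc_trans h (u := c) (mem_desc_of_par h hc'.1 ?_) hu
      rw [hc'.2]
      exact self_mem_desc r p v

theorem desc_disj {G : SimpleGraph V} {r : V} {p : V → V} (h : IsPar G r p) (v : V) :
    (∀ c ∈ kids r p v, v ∉ desc r p c) ∧
    (∀ c ∈ kids r p v, ∀ c' ∈ kids r p v, c ≠ c' → Disjoint (desc r p c) (desc r p c')) := by
  refine ⟨fun c hc hv => ?_, fun c hc c' hc' hne => ?_⟩
  · have h1 := dep_kid h hc
    have h2 := (dep_le_of_desc h hv).1
    omega
  · rw [Finset.disjoint_left]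
    intro u hu hu'
    apply hne
    have h1 := dep_kid h hc
    have h2 := dep_kid h hc'
    have h3 := (dep_le_of_desc h hu).2
    have h4 := (dep_le_of_desc h hu').2
    rw [h1] at h3
    rw [h2] at h4
    exact h3.symm.trans h4

theorem card_desc {G : SimpleGraph V} {r : V} {p : V → V} (h : IsPar G r p) (v : V) :
    (desc r p v).card = 1 + ∑ c ∈ kids r p v, (desc r p c).card := by
  have h1 := (desc_disj h v).1
  have h2 := (desc_disj h v).2
  have h3 : v ∉ (kids r p v).biUnion (desc r p) := by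
    rw [mem_biUnion]
    rintro ⟨c, hc, hv⟩
    exact h1 c hc hv
  conv_lhs => rw [desc_eq h v]
  rw [card_insert_of_notMem h3, card_biUnion h2, add_comm]

theorem psi_rec {G : SimpleGraph V} {r : V} {p : V → V} (h : IsPar G r p) (v : V) :
    psi r p v = 1 + 2 * ∑ c ∈ kids r p v, psi r p c := by
  have h1 := (desc_disj h v).1
  have h2 := (desc_disj h v).2
  have h3 : v ∉ (kids r p v).biUnion (desc r p) := by
    rw [mem_biUnion]
    rintro ⟨c, hc, hv⟩
    exact h1 c hc hv
  have h4 : psi r p v = ∑ u ∈ insert v ((kids r p v).biUnion (desc r p)),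
      2 ^ (dep r p u - dep r p v) := by
    rw [← desc_eq h v]
    rfl
  rw [h4, sum_insert h3, Nat.sub_self, pow_zero, sum_biUnion, mul_sum]
  · congr 1
    refine sum_congr rfl fun c hc => ?_
    rw [psi, mul_sum]
    refine sum_congr rfl fun u hu => ?_
    have h5 := dep_kid h hc
    have h6 := (dep_le_of_desc h hu).1
    have h7 : dep r p u - dep r p v = (dep r p u - dep r p c) + 1 := by omega
    rw [h7, pow_succ, mul_comm]
  · intro c hc c' hc' hne
    exact h2 c hc c' hc' hne

end Pool.Agent.H142.NT
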