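import Pool.Agent.H142.NT.Defs2
import Pool.Agent.H142.NT.B0a

set_option autoImplicit false

open Finset Classical

namespace Pool.Agent.H142.NT

variable {V : Type} [Fintype V]

theorem step_BFS (H : SimpleGraph V) (r v : V) (hv : v ≠ r) (hr : H.Reachable v r) :
    ∃ w, H.Adj v w ∧ H.dist r w + 1 = H.dist r v := by
  obtain ⟨wk, hwk⟩ := hr.exists_walk_length_eq_dist
  cases wk with
  | nil => exact absurd rfl hv
  | @cons _ w _ hadj q =>
    refine ⟨w, hadj, ?_⟩
    rw [SimpleGraph.Walk.length_cons] at hwk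
    have h1 : H.dist w r ≤ q.length := SimpleGraph.dist_le q
    obtain ⟨q', hq'⟩ := (q.reachable).exists_walk_length_eq_dist
    have h2 : H.dist v r ≤ (SimpleGraph.Walk.cons hadj q').length := SimpleGraph.dist_le _
    rw [SimpleGraph.Walk.length_cons, hq'] at h2
    rw [SimpleGraph.dist_comm (u := r) (v := w), SimpleGraph.dist_comm (u := r) (v := v)]
    omega

theorem dist_le_BFS (H : SimpleGraph V) {x v w : V} (hr : H.Reachable w x) (hadj : H.Adj v w) :
    H.dist x v ≤ H.dist x w + 1 := by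
  obtain ⟨q, hq⟩ := hr.exists_walk_length_eq_dist
  have h2 : H.dist v x ≤ (SimpleGraph.Walk.cons hadj q).length := SimpleGraph.dist_le _
  rw [SimpleGraph.Walk.length_cons, hq] at h2
  rw [SimpleGraph.dist_comm (u := x) (v := w), SimpleGraph.dist_comm (u := x) (v := v)]
  exact h2

theorem exists_bfs (G : SimpleGraph V) (hG : G.Connected) (r : V) :
    ∃ p, IsPar G r p ∧ ∀ v, dep r p v = G.dist r v := by
  have hstep : ∀ v, ∃ w, (v ≠ r → G.Adj v w ∧ G.dist r w + 1 = G.dist r v) ∧ (v = r → w = r) := by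
    intro v
    by_cases hv : v = r
    · exact ⟨r, fun h => absurd hv h, fun _ => rfl⟩
    · obtain ⟨w, h1, h2⟩ := step_BFS G r v hv (hG.preconnected v r)
      exact ⟨w, fun _ => ⟨h1, h2⟩, fun h => absurd h hv⟩
  choose p hp1 hp2 using hstep
  have hreach : ∀ n, ∀ v, G.dist r v = n → p^[n] v = r := by
    intro n
    induction n with
    | zero =>
      intro v hv
      rw [Function.iterate_zero, id]
      exact ((hG.preconnected r v).dist_eq_zero_iff.1 hv).symm
    | succ n ih =>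
      intro v hv
      have hvr : v ≠ r := by
        intro h0
        rw [h0, SimpleGraph.dist_self] at hv
        omega
      rw [Function.iterate_succ_apply]
      exact ih _ (by have := (hp1 v hvr).2; omega)
  have hpar : IsPar G r p := ⟨hp2 r rfl, fun v hv => (hp1 v hv).1, fun v => ⟨_, hreach _ v rfl⟩⟩
  refine ⟨p, hpar, ?_⟩
  have hdep : ∀ n, ∀ v, G.dist r v = n → dep r p v = n := by
    intro n
    induction n with
    | zero =>
      intro v hv
      have h0 := ((hG.preconnected r v).dist_eq_zero_iff.1 hv).symm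
      rw [h0, dep_root]
    | succ n ih =>
      intro v hv
      have hvr : v ≠ r := by
        intro h0
        rw [h0, SimpleGraph.dist_self] at hv
        omega
      rw [← dep_par hpar v hvr, ih (p v) (by have := (hp1 v hvr).2; omega)]
  exact fun v => hdep _ v rfl

/-- breadth first search inside `B` -/
theorem exists_bfs_local (G : SimpleGraph V) (B : Finset V) (x : V) (hx : x ∈ B) (q : V → V)
    (hq : ∀ v ∈ B, v ≠ x → q v ∈ B ∧ G.Adj v (q v)) (hreach : ∀ v ∈ B, ∃ k, q^[k] v = x) :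
    ∃ (l : V → ℕ) (g : V → V), l x = 0 ∧ (∀ v ∈ B, l v = 0 → v = x) ∧
      (∀ v ∈ B, v ≠ x → g v ∈ B ∧ G.Adj v (g v) ∧ l (g v) + 1 = l v) ∧
      (∀ v ∈ B, ∀ w ∈ B, G.Adj v w → l v ≤ l w + 1) := by
  obtain ⟨H, hH⟩ : ∃ H : SimpleGraph V, ∀ v w, H.Adj v w ↔ G.Adj v w ∧ v ∈ B ∧ w ∈ B :=
    ⟨{ Adj := fun v w => G.Adj v w ∧ v ∈ B ∧ w ∈ B
       symm := ⟨fun v w h => ⟨h.1.symm, h.2.2, h.2.1⟩⟩
       loopless := ⟨fun v h => G.loopless.irrefl v h.1⟩ }, fun v w => Iff.rfl⟩
  have hre : ∀ k v, v ∈ B → q^[k] v = x → H.Reachable v x := by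
    intro k
    induction k with
    | zero =>
      intro v _ hv
      rw [Function.iterate_zero, id] at hv
      rw [hv]
    | succ k ih =>
      intro v hvB hv
      by_cases hvx : v = x
      · rw [hvx]
      · obtain ⟨h1, h2⟩ := hq v hvB hvx
        rw [Function.iterate_succ_apply] at hv
        exact ((hH v (q v)).2 ⟨h2, hvB, h1⟩).reachable.trans (ih _ h1 hv)
  have hre' : ∀ v ∈ B, H.Reachable v x := fun v hv => by
    obtain ⟨k, hk⟩ := hreach v hv
    exact hre k v hv hk
  have hstep : ∀ v, ∃ w, v ∈ B → v ≠ x → w ∈ B ∧ G.Adj v w ∧ H.dist x w + 1 = H.dist x v := by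
    intro v
    by_cases hv : v ∈ B ∧ v ≠ x
    · obtain ⟨w, h1, h2⟩ := step_BFS H x v hv.2 (hre' v hv.1)
      obtain ⟨h3, -, h5⟩ := (hH v w).1 h1
      exact ⟨w, fun _ _ => ⟨h5, h3, h2⟩⟩
    · exact ⟨v, fun h1 h2 => absurd ⟨h1, h2⟩ hv⟩
  choose g hg using hstep
  refine ⟨fun v => H.dist x v, g, SimpleGraph.dist_self, ?_, fun v hv hvx => hg v hv hvx, ?_⟩
  · intro v hv h0
    exact ((hre' v hv).symm.dist_eq_zero_iff.1 h0).symm
  · intro v hv w hw hadj
    exact dist_le_BFS H (hre' w hw) ((hH v w).2 ⟨hadj, hv, hw⟩)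

end Pool.Agent.H142.NT
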