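import Pool.Agent.H142.NT.Defs2
import Pool.Agent.H142.NT.B0a

set_option autoImplicit false

open Finset Classical

namespace Pool.Agent.H142.NT

variable {V : Type} [Fintype V]

theorem exists_sep (G : SimpleGraph V) (d : ℕ) (hd : ∀ v, (nbr G v).card ≤ d) (R : Finset V) :
    ∃ Y ⊆ R, Sep G Y ∧ R.card ≤ Y.card * (1 + d + d ^ 2) := by
  have hne : (R.powerset.filter (fun Y => Sep G Y)).Nonempty := by
    refine ⟨∅, ?_⟩
    rw [Finset.mem_filter]
    exact ⟨Finset.empty_mem_powerset _, fun y hy => absurd hy (Finset.notMem_empty _)⟩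
  obtain ⟨Y, hY, hmax⟩ := Finset.exists_max_image _ Finset.card hne
  rw [Finset.mem_filter, Finset.mem_powerset] at hY
  refine ⟨Y, hY.1, hY.2, ?_⟩
  have hsub : R ⊆ Y.biUnion (fun y => insert y (nbr G y ∪ (nbr G y).biUnion (nbr G))) := by
    intro w hw
    rw [Finset.mem_biUnion]
    by_contra hcon
    push Not at hcon
    have hwY : w ∉ Y := fun h => hcon w h (Finset.mem_insert_self _ _)
    have hS : Sep G (insert w Y) := by
      have aux : ∀ y ∈ Y, ¬ G.Adj y w ∧ ∀ u, ¬ (G.Adj y u ∧ G.Adj w u) := by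
        intro y hy
        have h := hcon y hy
        rw [Finset.mem_insert, Finset.mem_union, Finset.mem_biUnion, mem_nbr] at h
        push Not at h
        refine ⟨h.2.1, fun u hu => ?_⟩
        exact h.2.2 u ((mem_nbr G y u).2 hu.1) ((mem_nbr G u w).2 hu.2.symm)
      intro y hy y' hy' hyy
      rw [Finset.mem_insert] at hy hy'
      rcases hy with rfl | hy
      · rcases hy' with rfl | hy'
        · exact absurd rfl hyy
        · refine ⟨fun h => (aux y' hy').1 h.symm, fun u hu => (aux y' hy').2 u ⟨hu.2, hu.1⟩⟩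
      · rcases hy' with rfl | hy'
        · exact aux y hy
        · exact hY.2 y hy y' hy' hyy
    have h1 := hmax (insert w Y) (by
      rw [Finset.mem_filter, Finset.mem_powerset]
      exact ⟨Finset.insert_subset hw hY.1, hS⟩)
    rw [Finset.card_insert_of_notMem hwY] at h1
    omega
  refine (Finset.card_le_card hsub).trans (Finset.card_biUnion_le_card_mul _ _ _ ?_)
  intro y _
  have h1 : ((nbr G y).biUnion (nbr G)).card ≤ d * d :=
    (Finset.card_biUnion_le_card_mul _ _ d (fun v _ => hd v)).trans
      (Nat.mul_le_mul_right _ (hd y))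
  have h2 : (nbr G y ∪ (nbr G y).biUnion (nbr G)).card ≤ d + d * d :=
    (Finset.card_union_le _ _).trans (Nat.add_le_add (hd y) h1)
  refine (Finset.card_insert_le _ _).trans ?_
  rw [pow_two]
  omega

end Pool.Agent.H142.NT
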