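import Pool.Agent.H142.NT.Defs2
import Pool.Agent.H142.NT.B0a
import Pool.Agent.H142.NT.SEP
import Pool.Agent.H142.NT.BFS

set_option autoImplicit false

open Finset Classical

namespace Pool.Agent.H142.NT

variable {V : Type} [Fintype V]

theorem dist_step_BASE (G : SimpleGraph V) (hG : G.Connected) (r v w : V) (h : G.Adj v w) :
    G.dist r w ≤ G.dist r v + 1 := by
  have h1 := hG.dist_triangle (u := r) (v := v) (w := w)
  have h2 : G.dist v w = 1 := SimpleGraph.dist_eq_one_iff_adj.2 h
  omega

/-- the modified parent function -/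
noncomputable def np_BASE (G : SimpleGraph V) (r : V) (C : Finset V) (p0 : V → V) (v : V) : V :=
  if v = r then r else
    if h : ∃ c ∈ C, G.Adj c v ∧ v ≠ p0 c then h.choose else p0 v

/-- the potential -/
noncomputable def ps_BASE (r : V) (C : Finset V) (p0 : V → V) (l : V → ℕ) (v : V) : ℕ :=
  if v = r then 0 else
    if v ∈ C then 3 * l v - 2 else
      if ∃ c ∈ C, c ≠ r ∧ p0 c = v then 3 * l v else 3 * l v + 2

theorem ps_le_BASE (r : V) (C : Finset V) (p0 : V → V) (l : V → ℕ) (v : V) :
    ps_BASE r C p0 l v ≤ 3 * l v + 2 := by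
  unfold ps_BASE
  split_ifs <;> omega

theorem exists_base (G : SimpleGraph V) (hG : G.Connected) (d : ℕ)
    (h3 : ∀ v, 3 ≤ (nbr G v).card) (hd : ∀ v, (nbr G v).card ≤ d) (r : V) :
    ∃ p, IsPar G r p ∧
      Fintype.card V ≤ (1 + d + d ^ 2) * (univ.filter (fun v => kids r p v = ∅)).card := by
  obtain ⟨p0, hp0, hdist⟩ := exists_bfs G hG r
  obtain ⟨C, -, hsep, hcard⟩ := exists_sep G d hd univ
  set l : V → ℕ := dep r p0 with hl
  have hstep : ∀ v w, G.Adj v w → l w ≤ l v + 1 := by
    intro v w h
    rw [hdist, hdist]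
    exact dist_step_BASE G hG r v w h
  have hpar : ∀ v, v ≠ r → l (p0 v) + 1 = l v := fun v hv => dep_par hp0 v hv
  have hzero : ∀ v, l v = 0 ↔ v = r := fun v => dep_eq_zero hp0 v
  -- separation
  have hnadj : ∀ c ∈ C, ∀ c' ∈ C, ¬ G.Adj c c' := by
    intro c hc c' hc' h
    exact (hsep c hc c' hc' h.ne).1 h
  have huniq : ∀ c ∈ C, ∀ c' ∈ C, ∀ v, G.Adj c v → G.Adj c' v → c = c' := by
    intro c hc c' hc' v h h'
    by_contra hne
    exact (hsep c hc c' hc' hne).2 v ⟨h, h'⟩
  set p := np_BASE G r C p0 with hp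
  have p_red : ∀ v c, v ≠ r → c ∈ C → G.Adj c v → v ≠ p0 c → p v = c := by
    intro v c hv hc hadj hne
    have hex : ∃ c ∈ C, G.Adj c v ∧ v ≠ p0 c := ⟨c, hc, hadj, hne⟩
    simp only [hp, np_BASE, if_neg hv, dif_pos hex]
    exact huniq _ hex.choose_spec.1 _ hc v hex.choose_spec.2.1 hadj
  have p_not : ∀ v, v ≠ r → (¬ ∃ c ∈ C, G.Adj c v ∧ v ≠ p0 c) → p v = p0 v := by
    intro v hv hex
    simp only [hp, np_BASE, if_neg hv, dif_neg hex]
  have p_root : p r = r := by simp [hp, np_BASE]
  -- the potential decreases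
  set ps := ps_BASE r C p0 l with hps
  have hdec : ∀ v, v ≠ r → ps (p v) < ps v := by
    intro v hv
    by_cases hex : ∃ c ∈ C, G.Adj c v ∧ v ≠ p0 c
    · obtain ⟨c, hc, hadj, hne⟩ := hex
      rw [p_red v c hv hc hadj hne]
      have hvC : v ∉ C := fun h => hnadj c hc v h hadj
      have hvz : ¬ ∃ c' ∈ C, c' ≠ r ∧ p0 c' = v := by
        rintro ⟨c', hc', hc'r, h⟩
        have h1 : G.Adj c' v := h ▸ hp0.adj c' hc'r
        have h2 := huniq c hc c' hc' v hadj h1
        subst h2
        exact hne h.symm
      have e1 : ps v = 3 * l v + 2 := by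
        simp only [hps, ps_BASE, if_neg hv, if_neg hvC, if_neg hvz]
      have h4 := hstep v c hadj.symm
      rw [e1]
      by_cases hcr : c = r
      · have : ps c = 0 := by simp [hps, ps_BASE, hcr]
        omega
      · have : ps c = 3 * l c - 2 := by simp only [hps, ps_BASE, if_neg hcr, if_pos hc]
        omega
    · rw [p_not v hv hex]
      have h1 := hpar v hv
      by_cases hvC : v ∈ C
      · have e1 : ps v = 3 * l v - 2 := by simp only [hps, ps_BASE, if_neg hv, if_pos hvC]
        by_cases hz : p0 v = r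
        · have e2 : ps (p0 v) = 0 := by simp [hps, ps_BASE, hz]
          omega
        · have hzC : p0 v ∉ C := fun h => hnadj v hvC _ h (hp0.adj v hv)
          have hzz : ∃ c' ∈ C, c' ≠ r ∧ p0 c' = p0 v := ⟨v, hvC, hv, rfl⟩
          have e2 : ps (p0 v) = 3 * l (p0 v) := by
            simp only [hps, ps_BASE, if_neg hz, if_neg hzC, if_pos hzz]
          omega
      · have h2 := ps_le_BASE r C p0 l (p0 v)
        by_cases hvz : ∃ c' ∈ C, c' ≠ r ∧ p0 c' = v
        · have e1 : ps v = 3 * l v := by
            simp only [hps, ps_BASE, if_neg hv, if_neg hvC, if_pos hvz]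
          rw [← hps] at h2
          omega
        · have e1 : ps v = 3 * l v + 2 := by
            simp only [hps, ps_BASE, if_neg hv, if_neg hvC, if_neg hvz]
          rw [← hps] at h2
          omega
  have hreach : ∀ n, ∀ v, ps v ≤ n → ∃ k, p^[k] v = r := by
    intro n
    induction n with
    | zero =>
      intro v hv
      by_cases h : v = r
      · exact ⟨0, h⟩
      · have := hdec v h; omega
    | succ n ih =>
      intro v hv
      by_cases h : v = r
      · exact ⟨0, h⟩
      · have h1 := hdec v h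
        obtain ⟨k, hk⟩ := ih (p v) (by omega)
        exact ⟨k + 1, by rw [Function.iterate_succ_apply]; exact hk⟩
  have hIsPar : IsPar G r p := by
    refine ⟨p_root, ?_, fun v => hreach _ v le_rfl⟩
    intro v hv
    by_cases hex : ∃ c ∈ C, G.Adj c v ∧ v ≠ p0 c
    · obtain ⟨c, hc, hadj, hne⟩ := hex
      rw [p_red v c hv hc hadj hne]
      exact hadj.symm
    · rw [p_not v hv hex]
      exact hp0.adj v hv
  refine ⟨p, hIsPar, ?_⟩
  -- every c in C has two kids
  have hkids : ∀ c ∈ C, 2 ≤ (kids r p c).card := by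
    intro c hc
    have hsub : (nbr G c).erase (p0 c) ⊆ kids r p c := by
      intro u hu
      rw [Finset.mem_erase, mem_nbr] at hu
      have hur : u ≠ r := by
        intro hur
        by_cases hcr : c = r
        · rw [hur, hcr] at hu
          exact hu.2.ne rfl
        · have h1 := hstep u c hu.2.symm
          have h2 : l u = 0 := (hzero u).2 hur
          have h4 := hpar c hcr
          have h5 : l (p0 c) = 0 := by omega
          have h6 := (hzero (p0 c)).1 h5
          exact hu.1 (by rw [h6, hur])
      rw [mem_kids]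
      exact ⟨hur, p_red u c hur hc hu.2 hu.1⟩
    have h1 := Finset.card_le_card hsub
    have h2 := Finset.pred_card_le_card_erase (s := nbr G c) (a := p0 c)
    have h4 := h3 c
    omega
  -- counting
  set Z := univ.filter (fun v => kids r p v = ∅) with hZ
  have hsum : ∑ v, (kids r p v).card = Fintype.card V - 1 := by
    have h1 : (univ.erase r : Finset V).card = ∑ v ∈ (univ : Finset V),
        ((univ.erase r).filter (fun u => p u = v)).card :=
      Finset.card_eq_sum_card_fiberwise (fun x _ => Finset.mem_coe.2 (Finset.mem_univ (p x)))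
    rw [Finset.card_erase_of_mem (Finset.mem_univ r), Finset.card_univ] at h1
    rw [h1]
    refine Finset.sum_congr rfl fun v _ => ?_
    congr 1
    ext u
    simp [kids]
  have hlow : ∀ v, (if v ∈ C then 2 else 0) + 1 ≤ (kids r p v).card +
      ((if v ∈ C then 1 else 0) + (if v ∈ Z then 1 else 0)) := by
    intro v
    by_cases hvC : v ∈ C
    · have := hkids v hvC
      simp only [if_pos hvC]
      omega
    · simp only [if_neg hvC]
      by_cases hvZ : v ∈ Z
      · simp [hvZ]
      · have : kids r p v ≠ ∅ := by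
          intro h
          exact hvZ (by rw [hZ]; simp [h])
        have := Finset.card_pos.2 (Finset.nonempty_iff_ne_empty.2 this)
        simp only [if_neg hvZ]
        omega
  have hlow2 := Finset.sum_le_sum (s := (univ : Finset V)) (fun v _ => hlow v)
  rw [Finset.sum_add_distrib, Finset.sum_add_distrib, Finset.sum_add_distrib, hsum] at hlow2
  simp only [Finset.sum_ite_mem, Finset.univ_inter, Finset.sum_const, smul_eq_mul,
    Finset.card_univ, mul_one] at hlow2
  have hVpos : 0 < Fintype.card V := Fintype.card_pos_iff.2 ⟨r⟩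
  have hCZ : C.card ≤ Z.card := by omega
  rw [Finset.card_univ] at hcard
  calc Fintype.card V ≤ C.card * (1 + d + d ^ 2) := hcard
    _ ≤ Z.card * (1 + d + d ^ 2) := Nat.mul_le_mul_right _ hCZ
    _ = (1 + d + d ^ 2) * Z.card := mul_comm _ _

end Pool.Agent.H142.NT
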