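import Pool.Agent.H142.NT.Defs2
import Pool.Agent.H142.NT.B0a

set_option autoImplicit false

open Finset Classical

namespace Pool.Agent.H142.NT

variable {V : Type} [Fintype V]

theorem branch_count {G : SimpleGraph V} {r : V} {p : V → V} (h : IsPar G r p) (A : Finset V)
    (hr : r ∈ A) (hA : ∀ v ∈ A, v ≠ r → p v ∈ A) (m : V → ℕ)
    (hm : ∀ v ∈ A, 1 ≤ (A.filter (fun c => c ∈ kids r p v)).card + m v) :
    (A.filter (fun v => 2 ≤ (A.filter (fun c => c ∈ kids r p v)).card + m v)).card + 1 ≤
      ∑ v ∈ A, m v := by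
  have h1 : (A.erase r).card = ∑ v ∈ A, (A.filter (fun c => c ∈ kids r p v)).card := by
    have h2 := Finset.card_eq_sum_card_fiberwise (f := p) (s := A.erase r) (t := A)
      (fun x hx => hA x (Finset.mem_of_mem_erase hx) (Finset.ne_of_mem_erase hx))
    rw [h2]
    refine Finset.sum_congr rfl (fun v _ => ?_)
    congr 1
    ext c
    simp only [Finset.mem_filter, Finset.mem_erase, mem_kids]
    tauto
  have h3 : (A.erase r).card + 1 = A.card := Finset.card_erase_add_one hr
  have h4 : ∑ v ∈ A, (1 + if 2 ≤ (A.filter (fun c => c ∈ kids r p v)).card + m v then 1 else 0) ≤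
      ∑ v ∈ A, ((A.filter (fun c => c ∈ kids r p v)).card + m v) := by
    refine Finset.sum_le_sum (fun v hv => ?_)
    have h5 := hm v hv
    split_ifs with h6
    · omega
    · omega
  rw [Finset.sum_add_distrib, Finset.sum_add_distrib, ← Finset.card_filter, ← h1,
    Finset.sum_const, smul_eq_mul, mul_one] at h4
  omega

end Pool.Agent.H142.NT
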