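import Pool.Agent.H142.NT.Defs2
import Pool.Agent.H142.NT.B0a
import Pool.Agent.H142.NT.B0b
import Pool.Agent.H142.NT.BC

set_option autoImplicit false

open Finset Classical

namespace Pool.Agent.H142.NT

variable {V : Type} [Fintype V]

theorem heavy_par {G : SimpleGraph V} {r : V} {p : V → V} (h : IsPar G r p) (M : ℕ) (v : V)
    (hv : v ∈ heavy r p M) : p v ∈ heavy r p M := by
  by_cases hr : v = r
  · subst hr
    rw [h.root]
    exact hv
  · simp only [heavy, mem_filter, mem_univ, true_and] at hv ⊢
    refine hv.trans (card_le_card ?_)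
    intro u hu
    exact desc_trans h (mem_desc_of_par h hr (self_mem_desc r p (p v))) hu

theorem mem_heavy_HV (r : V) (p : V → V) (M : ℕ) (v : V) :
    v ∈ heavy r p M ↔ M ≤ (desc r p v).card := by
  simp [heavy]

theorem minH_card_desc {G : SimpleGraph V} {r : V} {p : V → V} (h : IsPar G r p) (d M : ℕ)
    (hd : ∀ v, (nbr G v).card ≤ d) (hM : 1 ≤ M) (x : V) (hx : x ∈ minH r p M) :
    (desc r p x).card ≤ 1 + d * (M - 1) := by
  rw [card_desc h]
  have hx2 := (mem_filter.1 hx).2
  have h1 : ∑ c ∈ kids r p x, (desc r p c).card ≤ ∑ c ∈ kids r p x, (M - 1) := by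
    refine sum_le_sum ?_
    intro c hc
    have := hx2 c hc
    rw [mem_heavy_HV] at this
    omega
  have h2 : ∑ c ∈ kids r p x, (M - 1) = (kids r p x).card * (M - 1) := by
    rw [sum_const, smul_eq_mul]
  have h3 : (kids r p x).card ≤ d := (card_le_card (kids_sub h x)).trans (hd x)
  have h4 : (kids r p x).card * (M - 1) ≤ d * (M - 1) := Nat.mul_le_mul_right _ h3
  omega

theorem minH_aux_HV {G : SimpleGraph V} {r : V} {p : V → V} (h : IsPar G r p) (M : ℕ) (x y : V)
    (hx : x ∈ minH r p M) (hy : y ∈ heavy r p M) (hd : y ∈ desc r p x) (hne : y ≠ x) : False := by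
  rw [desc_eq h, mem_insert] at hd
  rcases hd with hd | hd
  · exact hne hd
  · rw [mem_biUnion] at hd
    obtain ⟨c, hc, hyc⟩ := hd
    refine (mem_filter.1 hx).2 c hc ?_
    rw [mem_heavy_HV] at hy ⊢
    refine hy.trans (card_le_card ?_)
    intro u hu
    exact desc_trans h hyc hu

theorem minH_disj {G : SimpleGraph V} {r : V} {p : V → V} (h : IsPar G r p) (M : ℕ) (x y : V)
    (hx : x ∈ minH r p M) (hy : y ∈ minH r p M) (hxy : x ≠ y) :
    Disjoint (desc r p x) (desc r p y) := by
  rw [Finset.disjoint_left]
  intro u hu hu'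
  rcases desc_comp h hu hu' with h1 | h1
  · exact minH_aux_HV h M y x hy (mem_filter.1 hx).1 h1 hxy
  · exact minH_aux_HV h M x y hx (mem_filter.1 hy).1 h1 hxy.symm

theorem exists_minH_HV {G : SimpleGraph V} {r : V} {p : V → V} (h : IsPar G r p) (M : ℕ) (v : V)
    (hv : v ∈ heavy r p M) : ∃ x ∈ minH r p M, x ∈ desc r p v := by
  obtain ⟨x, hx, hmax⟩ := Finset.exists_max_image ((heavy r p M).filter (fun x => x ∈ desc r p v))
    (dep r p) ⟨v, mem_filter.2 ⟨hv, self_mem_desc r p v⟩⟩
  rw [mem_filter] at hx
  refine ⟨x, mem_filter.2 ⟨hx.1, ?_⟩, hx.2⟩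
  intro c hc hch
  have hc2 := (mem_kids r p x c).1 hc
  have hcd : c ∈ desc r p x := by
    refine mem_desc_of_par h hc2.1 ?_
    rw [hc2.2]
    exact self_mem_desc r p x
  have := hmax c (mem_filter.2 ⟨hch, desc_trans h hx.2 hcd⟩)
  rw [dep_kid h hc] at this
  omega

/-- the number of the heavy vertices which are not too heavy -/
theorem card_heavy_small {G : SimpleGraph V} {r : V} {p : V → V} (h : IsPar G r p) (M M' : ℕ) :
    ((heavy r p M).filter (fun v => (desc r p v).card ≤ M')).card ≤
      (M' + 1) * (minH r p M).card := by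
  have hsub : (heavy r p M).filter (fun v => (desc r p v).card ≤ M') ⊆
      ((minH r p M) ×ˢ (range (M' + 1))).image (fun y : V × ℕ => p^[y.2] y.1) := by
    intro v hv
    rw [mem_filter] at hv
    obtain ⟨x, hx, hxv⟩ := exists_minH_HV h M v hv.1
    obtain ⟨hle, hit⟩ := dep_le_of_desc h hxv
    rw [mem_image]
    refine ⟨(x, dep r p x - dep r p v), ?_, hit⟩
    rw [mem_product, mem_range]
    refine ⟨hx, ?_⟩
    have hcard : (range (dep r p x - dep r p v + 1)).card ≤ (desc r p v).card := by
      refine Finset.card_le_card_of_injOn (fun i => p^[i] x) ?_ ?_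
      · intro i hi
        have hi' : i < dep r p x - dep r p v + 1 := by simpa using hi
        have hdi := dep_iter h x i (by omega)
        simp only [desc, coe_filter, mem_univ, true_and, Set.mem_ofPred_eq]
        refine ⟨dep r p x - dep r p v - i, by omega, ?_⟩
        rw [← Function.iterate_add_apply]
        have : dep r p x - dep r p v - i + i = dep r p x - dep r p v := by omega
        rw [this]
        exact hit
      · intro i hi j hj hij
        have hi' : i < dep r p x - dep r p v + 1 := by simpa using hi
        have hj' : j < dep r p x - dep r p v + 1 := by simpa using hj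
        have hdi := dep_iter h x i (by omega)
        have hdj := dep_iter h x j (by omega)
        have hij' : p^[i] x = p^[j] x := hij
        rw [hij'] at hdi
        omega
    rw [card_range] at hcard
    have := hv.2
    show dep r p x - dep r p v < M' + 1
    omega
  refine (card_le_card hsub).trans (card_image_le.trans ?_)
  rw [card_product, card_range, Nat.mul_comm]

/-- the number of the heavy vertices with at least two heavy children -/
theorem card_heavy_branch {G : SimpleGraph V} {r : V} {p : V → V} (h : IsPar G r p) (M : ℕ)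
    (hr : r ∈ heavy r p M) :
    ((heavy r p M).filter (fun v => 2 ≤ (kids r p v ∩ heavy r p M).card)).card ≤
      (minH r p M).card := by
  have hb := branch_count h (heavy r p M) hr (fun v hv _ => heavy_par h M v hv)
    (fun v => if v ∈ minH r p M then 1 else 0) (by
      intro v hv
      by_cases hm : v ∈ minH r p M
      · simp only [hm, if_true]
        omega
      · have : ¬ (∀ c ∈ kids r p v, c ∉ heavy r p M) := fun hh => hm (mem_filter.2 ⟨hv, hh⟩)
        push Not at this
        obtain ⟨c, hc, hch⟩ := this
        have hpos : 0 < ((heavy r p M).filter (fun c => c ∈ kids r p v)).card :=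
          card_pos.2 ⟨c, mem_filter.2 ⟨hch, hc⟩⟩
        omega)
  have hsum : ∑ v ∈ heavy r p M, (if v ∈ minH r p M then 1 else 0) = (minH r p M).card := by
    rw [← sum_filter, sum_const, smul_eq_mul, mul_one]
    congr 1
    ext v
    simp only [mem_filter]
    exact ⟨fun hh => hh.2, fun hh => ⟨(mem_filter.1 hh).1, hh⟩⟩
  rw [hsum] at hb
  refine (card_le_card ?_).trans ((Nat.le_succ _).trans hb)
  intro v hv
  rw [mem_filter] at hv ⊢
  refine ⟨hv.1, ?_⟩
  have heq : kids r p v ∩ heavy r p M = (heavy r p M).filter (fun c => c ∈ kids r p v) := by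
    ext c
    simp only [mem_inter, mem_filter]
    tauto
  rw [← heq]
  have := hv.2
  omega

end Pool.Agent.H142.NT
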