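import Pool.Agent.H142.NT.Defs2
import Pool.Agent.H142.NT.B0a
import Pool.Agent.H142.NT.B0b

set_option autoImplicit false

open Finset Classical

namespace Pool.Agent.H142.NT

variable {V : Type} [Fintype V]

theorem mem_tau_TAU (r : V) (p : V → V) (M : ℕ) (v u : V) : u ∈ tau r p M v ↔
    u ∈ desc r p v ∧ ∀ w ∈ desc r p v, u ∈ desc r p w → w ≠ v → w ∉ heavy r p M := by
  unfold tau
  rw [mem_filter]

theorem antisymm_TAU {G : SimpleGraph V} {r : V} {p : V → V} (h : IsPar G r p) {v w : V}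
    (h1 : w ∈ desc r p v) (h2 : dep r p w ≤ dep r p v) : w = v := by
  have h3 := dep_le_of_desc h h1
  have h4 : dep r p w - dep r p v = 0 := by omega
  have h5 := h3.2
  rw [h4] at h5
  exact h5

theorem kid_mem_TAU {G : SimpleGraph V} {r : V} {p : V → V} (h : IsPar G r p) {v c : V}
    (hc : c ∈ kids r p v) : c ∈ desc r p v := by
  obtain ⟨h1, h2⟩ := (mem_kids r p v c).1 hc
  exact mem_desc_of_par h h1 (by rw [h2]; exact self_mem_desc r p v)

theorem kid_ne_TAU {G : SimpleGraph V} {r : V} {p : V → V} (h : IsPar G r p) {v c : V}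
    (hc : c ∈ kids r p v) : c ≠ v := by
  intro e
  have h1 := (desc_disj h v).1 c hc
  rw [e] at h1
  exact h1 (self_mem_desc r p v)

theorem card_tau {G : SimpleGraph V} {r : V} {p : V → V} (h : IsPar G r p) (d M : ℕ)
    (hd : ∀ v, (nbr G v).card ≤ d) (hM : 1 ≤ M) (v : V) :
    (tau r p M v).card ≤ 1 + d * (M - 1) := by
  have hsub : tau r p M v ⊆ insert v (((kids r p v).filter (fun c => c ∉ heavy r p M)).biUnion
      (desc r p)) := by
    intro u hu
    rw [mem_tau_TAU] at hu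
    by_cases huv : u = v
    · rw [huv]
      exact mem_insert_self _ _
    · have h1 := hu.1
      rw [desc_eq h v, mem_insert, mem_biUnion] at h1
      rcases h1 with h1 | ⟨c, hc, huc⟩
      · exact absurd h1 huv
      · refine mem_insert_of_mem (mem_biUnion.2 ⟨c, mem_filter.2 ⟨hc, ?_⟩, huc⟩)
        exact hu.2 c (kid_mem_TAU h hc) huc (kid_ne_TAU h hc)
  refine (card_le_card hsub).trans ((card_insert_le _ _).trans ?_)
  have h2 : (((kids r p v).filter (fun c => c ∉ heavy r p M)).biUnion (desc r p)).card ≤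
      ((kids r p v).filter (fun c => c ∉ heavy r p M)).card * (M - 1) := by
    refine card_biUnion_le_card_mul _ _ _ fun c hc => ?_
    have h3 : ¬ M ≤ (desc r p c).card := by
      intro h4
      exact (mem_filter.1 hc).2 (by unfold heavy; exact mem_filter.2 ⟨mem_univ _, h4⟩)
    omega
  have h5 : ((kids r p v).filter (fun c => c ∉ heavy r p M)).card ≤ d :=
    (card_le_card (filter_subset _ _)).trans ((card_le_card (kids_sub h v)).trans (hd v))
  have h6 := Nat.mul_le_mul_right (M - 1) h5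
  omega

theorem self_mem_tau {G : SimpleGraph V} {r : V} {p : V → V} (h : IsPar G r p) (M : ℕ) (v : V) :
    v ∈ tau r p M v := by
  rw [mem_tau_TAU]
  refine ⟨self_mem_desc r p v, fun w hw hvw hne => ?_⟩
  exact absurd (antisymm_TAU h hw (dep_le_of_desc h hvw).1) hne

theorem tau_light {G : SimpleGraph V} {r : V} {p : V → V} (h : IsPar G r p) (M : ℕ) (v u : V)
    (hu : u ∈ tau r p M v) (hne : u ≠ v) : u ∉ heavy r p M ∧ u ≠ r ∧ p u ∈ tau r p M v := by
  rw [mem_tau_TAU] at hu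
  obtain ⟨h1, h2⟩ := par_mem_desc h hu.1 hne
  refine ⟨hu.2 u hu.1 (self_mem_desc r p u) hne, h1, ?_⟩
  rw [mem_tau_TAU]
  exact ⟨h2, fun w hw huw hwv => hu.2 w hw (mem_desc_of_par h h1 huw) hwv⟩

theorem tau_kid {G : SimpleGraph V} {r : V} {p : V → V} (h : IsPar G r p) (M : ℕ) (v u c : V)
    (hu : u ∈ tau r p M v) (hc : c ∈ kids r p u) (hcH : c ∉ heavy r p M) : c ∈ tau r p M v := by
  rw [mem_tau_TAU] at hu ⊢
  obtain ⟨h1, h2⟩ := (mem_kids r p u c).1 hc
  refine ⟨mem_desc_of_par h h1 (by rw [h2]; exact hu.1), fun w hw hcw hwv => ?_⟩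
  by_cases e : c = w
  · rw [← e]
    exact hcH
  · have h3 := (par_mem_desc h hcw e).2
    rw [h2] at h3
    exact hu.2 w hw h3 hwv

theorem tau_disj {G : SimpleGraph V} {r : V} {p : V → V} (h : IsPar G r p) (M : ℕ) (x y : V)
    (hx : x ∈ heavy r p M) (hy : y ∈ heavy r p M) (hxy : x ≠ y) :
    Disjoint (tau r p M x) (tau r p M y) := by
  rw [disjoint_left]
  intro u hux huy
  rw [mem_tau_TAU] at hux huy
  rcases desc_comp h hux.1 huy.1 with h1 | h1
  · exact huy.2 x h1 hux.1 hxy hx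
  · exact hux.2 y h1 huy.1 (Ne.symm hxy) hy

theorem exists_tau {G : SimpleGraph V} {r : V} {p : V → V} (h : IsPar G r p) (M : ℕ)
    (hr : r ∈ heavy r p M) (u : V) : ∃ v ∈ heavy r p M, u ∈ tau r p M v := by
  obtain ⟨v, hv, hmax⟩ := exists_max_image
    ((heavy r p M).filter (fun v => u ∈ desc r p v)) (dep r p)
    ⟨r, mem_filter.2 ⟨hr, by rw [desc_root h]; exact mem_univ _⟩⟩
  rw [mem_filter] at hv
  refine ⟨v, hv.1, ?_⟩
  rw [mem_tau_TAU]
  refine ⟨hv.2, fun w hw huw hwv hwH => ?_⟩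
  exact hwv (antisymm_TAU h hw (hmax w (mem_filter.2 ⟨hwH, huw⟩)))

end Pool.Agent.H142.NT

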