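import Pool.Agent.H142.NT.Defs2
import Pool.Agent.H142.NT.B0a
import Pool.Agent.H142.NT.B0b
import Pool.Agent.H142.NT.ASM
import Pool.Agent.H142.NT.TAU
import Pool.Agent.H142.NT.HV

set_option autoImplicit false

open Finset Classical

namespace Pool.Agent.H142.NT

variable {V : Type} [Fintype V]

section
variable {G : SimpleGraph V} {r : V} {p : V → V} {I : Finset V} {Q : V → Finset V}
  {u : V → V} {K : ℕ} {f : V → ℕ → V → V}

end

theorem out_desc_BL {G : SimpleGraph V} {r : V} {p : V → V} {I : Finset V} {Q : V → Finset V}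
    {u : V → V} {K : ℕ} {f : V → ℕ → V → V} (h : Sys G r p I Q u K f) (S : V → ℕ)
    (hS : ∀ x ∈ I, S x < K) (c : V) :
    ∀ (k : ℕ) (w : V), (∀ x ∈ I, w ∉ Q x) → k ≤ dep r p w → p^[k] w = c →
      w ∈ desc r (asm p I Q f S) c := by
  intro k
  induction k with
  | zero =>
    intro w _ _ hw
    have hw' : w = c := hw
    rw [hw']
    exact self_mem_desc _ _ _
  | succ k ih =>
    intro w hw hk hc
    have hwr : w ≠ r := by
      intro hwr
      rw [hwr, dep_root] at hk
      omega
    have h1 := dep_par h.par w hwr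
    refine mem_desc_of_par (asm_isPar h S hS) hwr ?_
    rw [asm_of_not S hw]
    exact ih (p w) (h.closed w hw) (by omega) (by rwa [Function.iterate_succ_apply] at hc)

theorem out_mem_BL {G : SimpleGraph V} {r : V} {p : V → V} {I : Finset V} {Q : V → Finset V}
    {u : V → V} {K : ℕ} {f : V → ℕ → V → V} (h : Sys G r p I Q u K f) (S : V → ℕ)
    (hS : ∀ x ∈ I, S x < K) (c w : V) (hw : ∀ x ∈ I, w ∉ Q x) (hd : w ∈ desc r p c) :
    w ∈ desc r (asm p I Q f S) c := by
  unfold desc at hd
  rw [Finset.mem_filter] at hd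
  obtain ⟨_, k, hk, hk2⟩ := hd
  exact out_desc_BL h S hS c k w hw hk hk2

theorem hit_desc_BL {G : SimpleGraph V} {r : V} {p : V → V} {I : Finset V} {Q : V → Finset V}
    {u : V → V} {K : ℕ} {f : V → ℕ → V → V} (h : Sys G r p I Q u K f) (S : V → ℕ)
    (hS : ∀ x ∈ I, S x < K) (x : V) (hx : x ∈ I) :
    ∀ (k : ℕ) (w : V), (f x (S x))^[k] w = x → (∀ j < k, (f x (S x))^[j] w ∈ Q x) →
      w ∈ desc r (asm p I Q f S) x := by
  intro k
  induction k with
  | zero =>
    intro w hw _
    have hw' : w = x := hw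
    rw [hw']
    exact self_mem_desc _ _ _
  | succ k ih =>
    intro w hw hj
    have hwQ : w ∈ Q x := by
      have := hj 0 (by omega)
      simpa using this
    have hwr : w ≠ r := by
      intro hwr
      rw [hwr] at hwQ
      exact h.root x hx hwQ
    refine mem_desc_of_par (asm_isPar h S hS) hwr ?_
    rw [asm_of_mem h S hx hwQ]
    refine ih _ (by rwa [Function.iterate_succ_apply] at hw) ?_
    intro j hjk
    have := hj (j + 1) (by omega)
    rwa [Function.iterate_succ_apply] at this

theorem top_mem_BL {r : V} {p : V → V} {G : SimpleGraph V} (h : IsPar G r p) (M : ℕ) (c x w : V)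
    (hc : c ∈ heavy r p M) (hw : w ∈ tau r p M x) (hwc : w ∈ desc r p c) : x ∈ desc r p c := by
  unfold tau at hw
  rw [Finset.mem_filter] at hw
  obtain ⟨hwx, hw2⟩ := hw
  rcases desc_comp h hwx hwc with h1 | h1
  · exact h1
  · by_cases hcx : c = x
    · rw [hcx]
      exact self_mem_desc _ _ _
    · exact absurd hc (hw2 c h1 hwc hcx)

theorem big_lower {G : SimpleGraph V} {r : V} {p : V → V} {I : Finset V} {Q : V → Finset V}
    {u : V → V} {f : V → ℕ → V → V} (h : Sys G r p I Q u 2 f) (M : ℕ)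
    (hI : I ⊆ heavy r p M) (hQ : ∀ x ∈ I, Q x = (tau r p M x).erase x)
    (hE : ∀ x ∈ I, ∀ s < 2, (Q x \ hit (Q x) x (f x s)).card ≤ 1)
    (S : V → ℕ) (hS : ∀ x ∈ I, S x < 2) (c : V) (hc : c ∈ heavy r p M) :
    (desc r p c).card ≤ 2 * (desc r (asm p I Q f S) c).card := by
  -- every `w ∈ D` in some `Q x` has `x ∈ D'`
  have hxD : ∀ x ∈ I, ∀ w ∈ Q x, w ∈ desc r p c → x ∈ desc r (asm p I Q f S) c := by
    intro x hx w hw hwc
    have hwt : w ∈ tau r p M x := by
      rw [hQ x hx] at hw
      exact Finset.mem_of_mem_erase hw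
    have h1 := top_mem_BL h.par M c x w hc hwt hwc
    exact out_mem_BL h S hS c x (fun y hy => h.base x hx y hy) h1
  have key : ∀ w ∈ desc r p c \ desc r (asm p I Q f S) c,
      ∃ x ∈ I, w ∈ Q x \ hit (Q x) x (f x (S x)) := by
    intro w hw
    rw [Finset.mem_sdiff] at hw
    obtain ⟨hw1, hw2⟩ := hw
    by_contra hcon
    push Not at hcon
    by_cases hex : ∃ x ∈ I, w ∈ Q x
    · obtain ⟨x, hx, hwQ⟩ := hex
      have h3 := hcon x hx
      rw [Finset.mem_sdiff] at h3
      push Not at h3
      have h4 := h3 hwQ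
      unfold hit at h4
      rw [Finset.mem_filter] at h4
      obtain ⟨_, k, hk, hk2⟩ := h4
      have h5 := hit_desc_BL h S hS x hx k w hk hk2
      exact hw2 (desc_trans (asm_isPar h S hS) (hxD x hx w hwQ hw1) h5)
    · push Not at hex
      exact hw2 (out_mem_BL h S hS c w hex hw1)
  choose! X hX1 hX2 using key
  have hinj : (desc r p c \ desc r (asm p I Q f S) c).card
      ≤ (desc r (asm p I Q f S) c).card := by
    refine Finset.card_le_card_of_injOn X ?_ ?_
    · intro w hw
      have hw' : w ∈ desc r p c \ desc r (asm p I Q f S) c := hw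
      have h1 := hX2 w hw'
      exact hxD (X w) (hX1 w hw') w (Finset.mem_sdiff.1 h1).1 (Finset.mem_sdiff.1 hw').1
    · intro w hw w' hw' heq
      have e1 : w ∈ desc r p c \ desc r (asm p I Q f S) c := hw
      have e2 : w' ∈ desc r p c \ desc r (asm p I Q f S) c := hw'
      have h1 := hX2 w e1
      have h2 := hX2 w' e2
      have heq' : X w = X w' := heq
      rw [← heq'] at h2
      exact Finset.card_le_one.1 (hE (X w) (hX1 w e1) (S (X w)) (hS _ (hX1 w e1))) w h1 w' h2
  have hsum : (desc r p c).card ≤ (desc r (asm p I Q f S) c).card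
      + (desc r p c \ desc r (asm p I Q f S) c).card := by
    have h1 : desc r p c ⊆ desc r (asm p I Q f S) c ∪ (desc r p c \ desc r (asm p I Q f S) c) := by
      intro w hw
      by_cases hw2 : w ∈ desc r (asm p I Q f S) c
      · exact Finset.mem_union_left _ hw2
      · exact Finset.mem_union_right _ (Finset.mem_sdiff.2 ⟨hw, hw2⟩)
    exact (Finset.card_le_card h1).trans (Finset.card_union_le _ _)
  omega

end Pool.Agent.H142.NT
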