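import Pool.Agent.H142.NT.Defs2
import Pool.Agent.H142.NT.B0a

set_option autoImplicit false

open Finset Classical

namespace Pool.Agent.H142.NT

variable {V : Type} [Fintype V]

theorem pgraph_adj {G : SimpleGraph V} {r : V} {p : V → V} (h : IsPar G r p) (v w : V) :
    (pgraph r p).Adj v w ↔ (v ≠ r ∧ p v = w) ∨ (w ≠ r ∧ p w = v) := by
  unfold pgraph
  rw [SimpleGraph.fromRel_adj]
  constructor
  · exact fun H => H.2
  · intro H
    refine ⟨?_, H⟩
    rintro rfl
    have hp : ∀ u : V, u ≠ r → p u ≠ u := fun u hu => (h.adj u hu).ne'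
    rcases H with ⟨h1, h2⟩ | ⟨h1, h2⟩
    · exact hp _ h1 h2
    · exact hp _ h1 h2

theorem pgraph_le {G : SimpleGraph V} {r : V} {p : V → V} (h : IsPar G r p) :
    pgraph r p ≤ G := by
  intro v w hvw
  rw [pgraph_adj h] at hvw
  rcases hvw with ⟨h1, h2⟩ | ⟨h1, h2⟩
  · rw [← h2]; exact h.adj v h1
  · rw [← h2]; exact (h.adj w h1).symm

theorem reach_PG {G : SimpleGraph V} {r : V} {p : V → V} (h : IsPar G r p) (k : ℕ) :
    ∀ v : V, p^[k] v = r → (pgraph r p).Reachable v r := by
  induction k with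
  | zero => intro v hv; rw [Function.iterate_zero, id] at hv; rw [hv]
  | succ k ih =>
    intro v hv
    by_cases hvr : v = r
    · rw [hvr]
    · rw [Function.iterate_succ_apply] at hv
      have hadj : (pgraph r p).Adj v (p v) := (pgraph_adj h v (p v)).2 (Or.inl ⟨hvr, rfl⟩)
      exact hadj.reachable.trans (ih (p v) hv)

theorem pgraph_isTree {G : SimpleGraph V} {r : V} {p : V → V} (h : IsPar G r p) :
    (pgraph r p).IsTree := by
  rw [SimpleGraph.isTree_iff_connected_and_card]
  constructor
  · haveI : Nonempty V := ⟨r⟩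
    refine ⟨fun u v => ?_⟩
    obtain ⟨k, hk⟩ := h.reach u
    obtain ⟨l, hl⟩ := h.reach v
    exact (reach_PG h k u hk).trans (reach_PG h l v hl).symm
  · let φ : {v : V // v ≠ r} → (pgraph r p).edgeSet := fun v =>
      ⟨s(v.1, p v.1), (SimpleGraph.mem_edgeSet _).2 ((pgraph_adj h v.1 (p v.1)).2 (Or.inl ⟨v.2, rfl⟩))⟩
    have hφ : Function.Bijective φ := by
      constructor
      · intro v w hvw
        have h1 : s(v.1, p v.1) = s(w.1, p w.1) := congrArg Subtype.val hvw
        rw [Sym2.eq_iff] at h1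
        rcases h1 with ⟨h1, -⟩ | ⟨h1, h2⟩
        · exact Subtype.ext h1
        · exfalso
          have h3 := dep_par h v.1 v.2
          have h4 := dep_par h w.1 w.2
          rw [h2] at h3
          rw [← h1] at h4
          omega
      · rintro ⟨e, he⟩
        induction e using Sym2.ind with
        | _ a b =>
          have he' := he
          rw [SimpleGraph.mem_edgeSet, pgraph_adj h] at he'
          rcases he' with ⟨h1, h2⟩ | ⟨h1, h2⟩
          · exact ⟨⟨a, h1⟩, Subtype.ext (by simp [φ, h2])⟩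
          · exact ⟨⟨b, h1⟩, Subtype.ext (by simp [φ, h2, Sym2.eq_swap])⟩
    have hcard : Nat.card {v : V // v ≠ r} = Nat.card (pgraph r p).edgeSet :=
      Nat.card_eq_of_bijective φ hφ
    rw [← hcard, Nat.card_eq_fintype_card, Nat.card_eq_fintype_card, Fintype.card_subtype_compl,
      Fintype.card_subtype_eq]
    have : 0 < Fintype.card V := Fintype.card_pos_iff.2 ⟨r⟩
    omega

end Pool.Agent.H142.NT
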