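import Pool.Agent.H142.NT.Defs2
import Pool.Agent.H142.NT.B0a
import Pool.Agent.H142.NT.PG

set_option autoImplicit false

open Finset Classical

namespace Pool.Agent.H142.NT

variable {V : Type} [Fintype V]

theorem filter_adj_CD {G : SimpleGraph V} {r : V} {p : V → V} (h : IsPar G r p) {v : V}
    (hv : v ≠ r) : univ.filter (fun w => (pgraph r p).Adj v w ∧ w ≠ p v) = kids r p v := by
  ext w
  rw [mem_kids, mem_filter, pgraph_adj h]
  constructor
  · rintro ⟨-, h1 | h1, h2⟩
    · exact absurd h1.2.symm h2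
    · exact h1
  · rintro ⟨hw, hpw⟩
    refine ⟨mem_univ _, Or.inr ⟨hw, hpw⟩, ?_⟩
    intro hwv
    have h1 := dep_par h v hv
    have h2 := dep_par h w hw
    rw [hpw] at h2
    rw [← hwv] at h1
    omega

theorem filter_root_CD {G : SimpleGraph V} {r : V} {p : V → V} (h : IsPar G r p) :
    univ.filter (fun w => (pgraph r p).Adj r w) = kids r p r := by
  ext w
  rw [mem_kids, mem_filter, pgraph_adj h]
  constructor
  · rintro ⟨-, h1 | h1⟩
    · exact absurd rfl h1.1
    · exact h1
  · intro hw
    exact ⟨mem_univ _, Or.inr hw⟩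

theorem cdg_pgraph_CD {G : SimpleGraph V} {r : V} {p : V → V} (h : IsPar G r p) (k : ℕ) :
    ∀ v : V, v ≠ r → cdg (pgraph r p) k (p v) v = pc r p k v := by
  induction k with
  | zero => intro v _; simp only [cdg, pc]
  | succ k ih =>
    intro v hv
    simp only [cdg, pc]
    rw [filter_adj_CD h hv]
    congr 1
    apply Multiset.map_congr rfl
    intro w hw
    rw [Finset.mem_val, mem_kids] at hw
    rw [← ih w hw.1, hw.2]

theorem cdr_pgraph {G : SimpleGraph V} {r : V} {p : V → V} (h : IsPar G r p) (k : ℕ) :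
    cdr (pgraph r p) k r = pc r p (k + 1) r := by
  simp only [cdr, pc]
  rw [filter_root_CD h]
  congr 1
  apply Multiset.map_congr rfl
  intro w hw
  rw [Finset.mem_val, mem_kids] at hw
  rw [← cdg_pgraph_CD h k w hw.1, hw.2]

theorem filter_map_CD {V' : Type} [Fintype V'] {T : SimpleGraph V} {T' : SimpleGraph V'}
    (φ : T ≃g T') (u v : V) :
    univ.filter (fun w => T'.Adj (φ v) w ∧ w ≠ φ u)
      = (univ.filter (fun w => T.Adj v w ∧ w ≠ u)).map φ.toEquiv.toEmbedding := by
  ext w
  rw [mem_filter, mem_map]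
  constructor
  · rintro ⟨-, h1, h2⟩
    refine ⟨φ.symm w, ?_, ?_⟩
    · rw [mem_filter]
      refine ⟨mem_univ _, ?_, ?_⟩
      · rw [← φ.map_adj_iff]
        simpa using h1
      · rintro rfl
        apply h2
        simp
    · simp
  · rintro ⟨x, hx, rfl⟩
    rw [mem_filter] at hx
    refine ⟨mem_univ _, ?_, ?_⟩
    · exact φ.map_adj_iff.2 hx.2.1
    · intro h
      exact hx.2.2 (φ.injective h)

theorem filter_map'_CD {V' : Type} [Fintype V'] {T : SimpleGraph V} {T' : SimpleGraph V'}
    (φ : T ≃g T') (v : V) :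
    univ.filter (fun w => T'.Adj (φ v) w)
      = (univ.filter (fun w => T.Adj v w)).map φ.toEquiv.toEmbedding := by
  ext w
  rw [mem_filter, mem_map]
  constructor
  · rintro ⟨-, h1⟩
    refine ⟨φ.symm w, ?_, ?_⟩
    · rw [mem_filter]
      refine ⟨mem_univ _, ?_⟩
      rw [← φ.map_adj_iff]
      simpa using h1
    · simp
  · rintro ⟨x, hx, rfl⟩
    rw [mem_filter] at hx
    exact ⟨mem_univ _, φ.map_adj_iff.2 hx.2⟩

theorem cdg_iso_CD {V' : Type} [Fintype V'] {T : SimpleGraph V} {T' : SimpleGraph V'}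
    (φ : T ≃g T') (k : ℕ) : ∀ u v : V, cdg T' k (φ u) (φ v) = cdg T k u v := by
  induction k with
  | zero => intro u v; simp only [cdg]
  | succ k ih =>
    intro u v
    simp only [cdg]
    rw [filter_map_CD φ u v, Finset.map_val, Multiset.map_map]
    congr 1
    apply Multiset.map_congr rfl
    intro w _
    exact ih v w

theorem cdr_iso {V' : Type} [Fintype V'] {T : SimpleGraph V} {T' : SimpleGraph V'} (φ : T ≃g T')
    (k : ℕ) (a : V) : cdr T' k (φ a) = cdr T k a := by
  simp only [cdr]
  rw [filter_map'_CD φ a, Finset.map_val, Multiset.map_map]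
  congr 1
  apply Multiset.map_congr rfl
  intro w _
  exact cdg_iso_CD φ k a w

/-- equal codes: equal multisets of the codes of the children -/
theorem pc_succ_eq (r : V) (p p' : V → V) (k : ℕ) (v v' : V) :
    pc r p (k + 1) v = pc r p' (k + 1) v' ↔
      (kids r p v).val.map (pc r p k) = (kids r p' v').val.map (pc r p' k) := by
  simp only [pc]
  exact Encodable.encode_injective.eq_iff

end Pool.Agent.H142.NT
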