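import Pool.Agent.H142.NT.Defs2
import Pool.Agent.H142.NT.PG
import Pool.Agent.H142.NT.CD

set_option autoImplicit false

open Finset Classical

namespace Pool.Agent.H142.NT

variable {V : Type} [Fintype V]

theorem codes_card (G : SimpleGraph V) (r : V) (k : ℕ) (P : Finset (V → V))
    (hP : ∀ p ∈ P, IsPar G r p) :
    (P.image (fun p => pc r p (k + 1) r)).card ≤ Fintype.card V * numUnlabeled G := by
  have : Finite (STree G) := by
    unfold STree
    infer_instance
  have : Fintype (Quotient (isoRel G)) := Fintype.ofFinite _
  have hcard : numUnlabeled G = Fintype.card (Quotient (isoRel G)) := Nat.card_eq_fintype_card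
  have hsub : P.image (fun p => pc r p (k + 1) r) ⊆
      (univ : Finset (V × Quotient (isoRel G))).image
        (fun x => cdr (Quotient.out x.2).1 k x.1) := by
    intro c hc
    rw [mem_image] at hc
    obtain ⟨p, hp, rfl⟩ := hc
    have h := hP p hp
    set T : STree G := ⟨pgraph r p, pgraph_le h, pgraph_isTree h⟩ with hT
    have hrel : (isoRel G).r T (Quotient.out (Quotient.mk (isoRel G) T)) :=
      (isoRel G).symm' (Quotient.mk_out T)
    obtain ⟨φ⟩ := hrel
    rw [mem_image]
    refine ⟨(φ r, Quotient.mk (isoRel G) T), mem_univ _, ?_⟩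
    simp only
    rw [← cdr_pgraph h k]
    exact cdr_iso φ k r
  refine (card_le_card hsub).trans (card_image_le.trans ?_)
  rw [card_univ, Fintype.card_prod, hcard]

end Pool.Agent.H142.NT
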