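import Pool.Agent.H142.NT.Defs2
import Pool.Agent.H142.NT.B0a
import Pool.Agent.H142.NT.CD

set_option autoImplicit false

open Finset Classical

namespace Pool.Agent.H142.NT

variable {V : Type} [Fintype V]

def rk142 (S : Finset ℕ) (a : ℕ) : ℕ := (S.filter (fun b => b < a)).card

theorem rk142_lt (S : Finset ℕ) (a : ℕ) (ha : a ∈ S) : rk142 S a < S.card := by
  apply Finset.card_lt_card
  refine ⟨Finset.filter_subset _ _, fun h => ?_⟩
  have := (Finset.mem_filter.1 (h ha)).2
  omega

theorem rk142_lt_of_lt (S : Finset ℕ) (a b : ℕ) (ha : a ∈ S) (hab : a < b) :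
    rk142 S a < rk142 S b := by
  apply Finset.card_lt_card
  refine ⟨?_, ?_⟩
  · intro x hx
    rw [Finset.mem_filter] at hx ⊢
    exact ⟨hx.1, lt_trans hx.2 hab⟩
  · intro h
    have h1 : a ∈ S.filter (fun b => b < a) := h (Finset.mem_filter.2 ⟨ha, hab⟩)
    have := (Finset.mem_filter.1 h1).2
    omega

theorem rk142_inj (S : Finset ℕ) (a b : ℕ) (ha : a ∈ S) (hb : b ∈ S)
    (h : rk142 S a = rk142 S b) : a = b := by
  rcases lt_trichotomy a b with h1 | h1 | h1
  · have := rk142_lt_of_lt S a b ha h1
    omega
  · exact h1
  · have := rk142_lt_of_lt S b a hb h1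
    omega

/-- ranks of the codes of the children -/
noncomputable def rho142 (d : ℕ) (r : V) (p : V → V) (k : ℕ) (v : V) (e : V → ℕ) (j : Fin d) :
    Option (Fin d) :=
  if h : ∃ c ∈ kids r p v, e c = j.val then
    (if h2 : rk142 ((kids r p v).image (pc r p k)) (pc r p k h.choose) < d then some ⟨_, h2⟩
      else none)
  else none

theorem decode {G : SimpleGraph V} {r : V} {ι : Type} [Fintype ι] (d : ℕ)
    (hd : ∀ v, (nbr G v).card ≤ d) (P : ι → V → V) (hP : ∀ s, IsPar G r (P s))
    (pst : V → V) (δ : V → ℕ) (N : ℕ) (A W : Finset V) (hW : W ⊆ A) (hr : r ∈ A) (δr : δ r = 0)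
    (hN : ∀ v ∈ A, δ v < N)
    (hA : ∀ v ∈ A, v ≠ r → pst v ∈ A ∧ δ (pst v) + 1 = δ v ∧ ∀ s, P s v = pst v)
    (Λ : Type) (loc : V → ι → Λ)
    (hinj : ∀ s s', (∀ v ∈ A \ W, loc v s = loc v s') → s = s')
    (hdec : ∀ v ∈ A \ W, ∀ s s',
      pc r (P s) (N - δ v) v = pc r (P s') (N - δ v) v →
      (∀ c ∈ A, c ≠ r → pst c = v → pc r (P s) (N - δ c) c = pc r (P s') (N - δ c) c) ∧
      loc v s = loc v s') :
    Fintype.card ι ≤ (univ.image (fun s => pc r (P s) N r)).card * ((d + 1) ^ d) ^ W.card := by
  have he : ∀ v, ∃ e : V → ℕ, (∀ c ∈ nbr G v, e c < d) ∧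
      ∀ c ∈ nbr G v, ∀ c' ∈ nbr G v, e c = e c' → c = c' := by
    intro v
    refine ⟨fun c => if h : c ∈ nbr G v then ((nbr G v).equivFin ⟨c, h⟩).val else 0, ?_, ?_⟩
    · intro c hc
      simp only [dif_pos hc]
      exact lt_of_lt_of_le (Fin.is_lt _) (hd v)
    · intro c hc c' hc' h
      simp only [dif_pos hc, dif_pos hc'] at h
      have h1 := (nbr G v).equivFin.injective (Fin.ext h)
      exact congrArg Subtype.val h1
  choose e he1 he2 using he
  let Φ : ι → ℕ × (W → Fin d → Option (Fin d)) := fun s =>
    (pc r (P s) N r, fun v => rho142 d r (P s) (N - δ v.1 - 1) v.1 (e v.1))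
  have hΦ : Function.Injective Φ := by
    intro s s' hss
    have h1 : pc r (P s) N r = pc r (P s') N r := congrArg Prod.fst hss
    have h2 : ∀ v ∈ W, rho142 d r (P s) (N - δ v - 1) v (e v) =
        rho142 d r (P s') (N - δ v - 1) v (e v) := by
      intro v hv
      exact congrFun (congrArg Prod.snd hss) ⟨v, hv⟩
    have key : ∀ n, ∀ v ∈ A, δ v = n → pc r (P s) (N - δ v) v = pc r (P s') (N - δ v) v := by
      intro n
      induction n with
      | zero =>
        intro v hv hn
        by_cases hvr : v = r
        · rw [hvr, δr]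
          exact h1
        · have := (hA v hv hvr).2.1
          omega
      | succ n ih =>
        intro v hv hn
        by_cases hvr : v = r
        · rw [hvr, δr]
          exact h1
        · obtain ⟨hw, hδ, hp⟩ := hA v hv hvr
          set w := pst v with hwdef
          have ihw := ih w hw (by omega)
          by_cases hwW : w ∈ W
          · have hNw := hN w hw
            have hk : N - δ w = (N - δ w - 1) + 1 := by omega
            have hk2 : N - δ v = N - δ w - 1 := by omega
            rw [hk, pc_succ_eq] at ihw
            rw [hk2]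
            set k := N - δ w - 1 with hkdef
            have hvk : ∀ t, v ∈ kids r (P t) w := by
              intro t
              rw [mem_kids]
              exact ⟨hvr, hp t⟩
            have hC : (kids r (P s) w).image (pc r (P s) k) =
                (kids r (P s') w).image (pc r (P s') k) := by
              unfold Finset.image
              rw [ihw]
            have hnb : ∀ t, kids r (P t) w ⊆ nbr G w := fun t => kids_sub (hP t) w
            have hjd := he1 w v (hnb s (hvk s))
            have hrho : ∀ t, rho142 d r (P t) k w (e w) ⟨e w v, hjd⟩ =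
                some ⟨rk142 ((kids r (P t) w).image (pc r (P t) k)) (pc r (P t) k v), by
                  refine lt_of_lt_of_le (rk142_lt _ _ (Finset.mem_image_of_mem _ (hvk t))) ?_
                  exact le_trans Finset.card_image_le
                    (le_trans (Finset.card_le_card (hnb t)) (hd w))⟩ := by
              intro t
              unfold rho142
              have hex : ∃ c ∈ kids r (P t) w, e w c = e w v := ⟨v, hvk t, rfl⟩
              have hch : hex.choose = v :=
                he2 w _ (hnb t hex.choose_spec.1) v (hnb t (hvk t)) hex.choose_spec.2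
              rw [dif_pos hex]
              have hlt : rk142 ((kids r (P t) w).image (pc r (P t) k)) (pc r (P t) k hex.choose)
                  < d := by
                rw [hch]
                refine lt_of_lt_of_le (rk142_lt _ _ (Finset.mem_image_of_mem _ (hvk t))) ?_
                exact le_trans Finset.card_image_le
                  (le_trans (Finset.card_le_card (hnb t)) (hd w))
              rw [dif_pos hlt]
              congr 2
              rw [hch]
            have h3 := congrFun (h2 w hwW) ⟨e w v, hjd⟩
            rw [hrho s, hrho s', Option.some.injEq, Fin.mk.injEq, hC] at h3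
            refine rk142_inj _ _ _ ?_ (Finset.mem_image_of_mem _ (hvk s')) h3
            rw [← hC]
            exact Finset.mem_image_of_mem _ (hvk s)
          · exact (hdec w (Finset.mem_sdiff.2 ⟨hw, hwW⟩) s s' ihw).1 v hv hvr rfl
    apply hinj
    intro v hv
    exact (hdec v hv s s' (key _ v (Finset.mem_sdiff.1 hv).1 rfl)).2
  have hmaps : ∀ s, Φ s ∈ (univ.image (fun s => pc r (P s) N r)) ×ˢ
      (univ : Finset (W → Fin d → Option (Fin d))) := by
    intro s
    rw [Finset.mem_product]
    exact ⟨Finset.mem_image_of_mem _ (Finset.mem_univ s), Finset.mem_univ _⟩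
  have h4 := Finset.card_le_card_of_injOn (s := (univ : Finset ι)) Φ (fun s _ => hmaps s)
    (fun s _ s' _ h => hΦ h)
  rw [Finset.card_univ, Finset.card_product] at h4
  refine h4.trans (le_of_eq ?_)
  congr 1
  rw [Finset.card_univ, Fintype.card_fun, Fintype.card_fun, Fintype.card_option, Fintype.card_fin,
    Fintype.card_coe]

end Pool.Agent.H142.NT
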