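import Pool.Agent.H142.NT.Defs2
import Pool.Agent.H142.NT.B0a
import Pool.Agent.H142.NT.B0b
import Pool.Agent.H142.NT.CD

set_option autoImplicit false

open Finset Classical

namespace Pool.Agent.H142.NT

variable {V : Type} [Fintype V]

theorem decF_pc {G : SimpleGraph V} {r : V} {p : V → V} (h : IsPar G r p) (k : ℕ) (v : V)
    (hk : Fintype.card V ≤ dep r p v + k) : decF k (pc r p k v) = psi r p v := by
  induction k generalizing v with
  | zero =>
    have := dep_lt h v
    omega
  | succ k ih =>
    have h1 : decF (k + 1) (pc r p (k + 1) v) =
        1 + 2 * ∑ c ∈ kids r p v, decF k (pc r p k c) := by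
      simp only [pc, decF, Encodable.encodek, Option.getD_some, Multiset.map_map]
      rfl
    rw [h1, psi_rec h v]
    congr 2
    apply Finset.sum_congr rfl
    intro c hc
    have h2 := dep_kid h hc
    exact ih c (by omega)

end Pool.Agent.H142.NT
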