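import Pool.Agent.H142.NT.Defs2
import Pool.Agent.H142.NT.B0a
import Pool.Agent.H142.NT.ASM

set_option autoImplicit false

open Finset Classical

namespace Pool.Agent.H142.NT

variable {V : Type} [Fintype V]

section
variable {G : SimpleGraph V} {r : V} {p : V → V} {I : Finset V} {Q : V → Finset V}
  {u : V → V} {K : ℕ} {f : V → ℕ → V → V}

end

section
variable {G : SimpleGraph V} {r : V} {p : V → V} {I : Finset V} {Q : V → Finset V}
  {u : V → V} {K : ℕ} {f : V → ℕ → V → V}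

theorem kids_PC (h : Sys G r p I Q u K f) (S : V → ℕ) (hS : ∀ x ∈ I, S x < K)
    (A : Finset V) (hx : ∀ x ∈ I, x ∈ A) (hu : ∀ x ∈ I, u x ∈ A) (v : V)
    (hv : ∀ x ∈ I, v ∉ Q x) (hvA : v ∉ A) :
    kids r (asm p I Q f S) v = (kids r p v).filter (fun c => ∀ x ∈ I, c ∉ Q x) := by
  ext c
  rw [Finset.mem_filter]
  constructor
  · intro hc
    rcases kids_asm h S hS v hv c hc with h1 | ⟨x, hxI, _, _, h2⟩
    · exact h1
    · exfalso
      rcases h2 with h2 | h2
      · exact hvA (h2 ▸ hx x hxI)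
      · exact hvA (h2.1 ▸ hu x hxI)
  · rintro ⟨hc, hcQ⟩
    rw [mem_kids] at hc ⊢
    exact ⟨hc.1, by rw [asm_of_not S hcQ]; exact hc.2⟩

/-- outside of `A` (closed under parents, containing all `x`, `u x`) the codes do not depend on
the configuration -/
theorem pc_const (h : Sys G r p I Q u K f) (S S' : V → ℕ) (hS : ∀ x ∈ I, S x < K)
    (hS' : ∀ x ∈ I, S' x < K) (A : Finset V) (hA : ∀ v ∈ A, v ≠ r → p v ∈ A)
    (hx : ∀ x ∈ I, x ∈ A) (hu : ∀ x ∈ I, u x ∈ A) (v : V) (hv : ∀ x ∈ I, v ∉ Q x) (hvA : v ∉ A)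
    (k : ℕ) : pc r (asm p I Q f S) k v = pc r (asm p I Q f S') k v := by
  induction k generalizing v with
  | zero => rfl
  | succ k ih =>
    unfold pc
    rw [kids_PC h S hS A hx hu v hv hvA, kids_PC h S' hS' A hx hu v hv hvA]
    congr 1
    refine Multiset.map_congr rfl fun c hc => ?_
    rw [Finset.mem_val, Finset.mem_filter, mem_kids] at hc
    refine ih c hc.2 fun hcA => hvA ?_
    rw [← hc.1.2]
    exact hA c hcA hc.1.1

end

end Pool.Agent.H142.NT
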