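import Pool.Agent.H142.NT.Defs2
import Pool.Agent.H142.NT.B0a
import Pool.Agent.H142.NT.B0b
import Pool.Agent.H142.NT.ASM

set_option autoImplicit false

open Finset Classical

namespace Pool.Agent.H142.NT

variable {V : Type} [Fintype V]

section
variable {G : SimpleGraph V} {r : V} {p : V → V} {I : Finset V} {Q : V → Finset V}
  {u : V → V} {K : ℕ} {f : V → ℕ → V → V}

end

section
variable {G : SimpleGraph V} {r : V} {p : V → V} {I : Finset V} {Q : V → Finset V}
  {u : V → V} {K : ℕ} {f : V → ℕ → V → V}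

theorem desc_sub_PL (h : Sys G r p I Q u K f) (S : V → ℕ) (hS : ∀ x ∈ I, S x < K) (x : V)
    (hx : x ∈ I) (c : V) (hc : c ∈ Q x) (k : ℕ) : ∀ w, k ≤ dep r (asm p I Q f S) w →
    (asm p I Q f S)^[k] w = c → w ∈ Q x := by
  have hq := asm_isPar h S hS
  induction k with
  | zero =>
    intro w _ hw
    rw [Function.iterate_zero, id] at hw
    rw [hw]
    exact hc
  | succ k ih =>
    intro w hk hw
    have hwr : w ≠ r := by
      intro h0
      rw [h0, dep_root] at hk
      omega
    have h1 := dep_par hq w hwr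
    rw [Function.iterate_succ_apply] at hw
    have h2 := ih _ (by omega) hw
    exact kids_asm_in h S hS x hx _ h2 ((mem_kids r _ _ _).2 ⟨hwr, rfl⟩)

theorem iter_mem_PL (h : Sys G r p I Q u K f) (S : V → ℕ) (hS : ∀ x ∈ I, S x < K) (x : V)
    (hx : x ∈ I) (c : V) (hc : c ∈ Q x) (k : ℕ) (w : V) (hk : k ≤ dep r (asm p I Q f S) w)
    (hw : (asm p I Q f S)^[k] w = c) (j : ℕ) (hj : j ≤ k) : (asm p I Q f S)^[j] w ∈ Q x := by
  have hq := asm_isPar h S hS
  have h1 := dep_iter hq w j (hj.trans hk)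
  refine desc_sub_PL h S hS x hx c hc (k - j) _ (by omega) ?_
  rw [← Function.iterate_add_apply, show k - j + j = k by omega]
  exact hw

theorem iter_eq_PL (h : Sys G r p I Q u K f) (S : V → ℕ) (x : V)
    (hx : x ∈ I) (w : V) (k : ℕ) (hg : ∀ j < k, (f x (S x))^[j] w ∈ Q x) :
    (asm p I Q f S)^[k] w = (f x (S x))^[k] w := by
  induction k with
  | zero => rfl
  | succ k ih =>
    rw [Function.iterate_succ_apply', Function.iterate_succ_apply',
      ih (fun j hj => hg j (by omega)), asm_of_mem h S hx (hg k (by omega))]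

theorem iter_eq'_PL (h : Sys G r p I Q u K f) (S : V → ℕ) (x : V)
    (hx : x ∈ I) (w : V) (k : ℕ) (hg : ∀ j < k, (asm p I Q f S)^[j] w ∈ Q x) :
    (f x (S x))^[k] w = (asm p I Q f S)^[k] w := by
  induction k with
  | zero => rfl
  | succ k ih =>
    rw [Function.iterate_succ_apply', Function.iterate_succ_apply',
      ih (fun j hj => hg j (by omega)), asm_of_mem h S hx (hg k (by omega))]

/-- the weight of the local part hanging at `x` -/
theorem psi_local (h : Sys G r p I Q u K f) (S : V → ℕ) (hS : ∀ x ∈ I, S x < K) (x : V)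
    (hx : x ∈ I) :
    2 * ∑ c ∈ (Q x).filter (fun c => f x (S x) c = x), psi r (asm p I Q f S) c =
      lam (Q x) x (f x (S x)) := by
  obtain ⟨q, hqd⟩ : ∃ q, q = asm p I Q f S := ⟨_, rfl⟩
  obtain ⟨g, hgd⟩ : ∃ g, g = f x (S x) := ⟨_, rfl⟩
  have hq : IsPar G r q := by rw [hqd]; exact asm_isPar h S hS
  have hxQ : x ∉ Q x := h.base x hx x hx
  have hmem : ∀ c ∈ Q x, ∀ k w, k ≤ dep r q w → q^[k] w = c → ∀ j ≤ k, q^[j] w ∈ Q x := by
    rw [hqd]
    exact fun c hc k w hk hw j hj => iter_mem_PL h S hS x hx c hc k w hk hw j hj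
  have heq1 : ∀ w k, (∀ j < k, g^[j] w ∈ Q x) → q^[k] w = g^[k] w := by
    rw [hqd, hgd]
    exact fun w k hk => iter_eq_PL h S x hx w k hk
  have heq2 : ∀ w k, (∀ j < k, q^[j] w ∈ Q x) → g^[k] w = q^[k] w := by
    rw [hqd, hgd]
    exact fun w k hk => iter_eq'_PL h S x hx w k hk
  have hQr : ∀ w ∈ Q x, w ≠ r := fun w hw h0 => h.root x hx (h0 ▸ hw)
  have hqg : ∀ w ∈ Q x, q w = g w := by
    rw [hqd, hgd]
    exact fun w hw => asm_of_mem h S hx hw
  rw [← hqd, ← hgd]
  -- the first passage time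
  have hinf : ∀ c ∈ (Q x).filter (fun c => g c = x), ∀ w ∈ desc r q c,
      w ∈ Q x ∧ (∃ k, g^[k] w = x ∧ ∀ j < k, g^[j] w ∈ Q x) ∧
      sInf {k | g^[k] w = x} = dep r q w - dep r q c + 1 := by
    intro c hc w hw
    obtain ⟨hcQ, hcx⟩ := Finset.mem_filter.1 hc
    obtain ⟨-, k, hk, hkw⟩ := Finset.mem_filter.1 hw
    have h1 := hmem c hcQ k w hk hkw
    have h2 : ∀ j ≤ k, g^[j] w = q^[j] w := fun j hj => heq2 w j (fun i hi => h1 i (by omega))
    have h3 : ∀ j < k + 1, g^[j] w ∈ Q x := fun j hj => by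
      rw [h2 j (by omega)]
      exact h1 j (by omega)
    have h4 : g^[k + 1] w = x := by
      rw [Function.iterate_succ_apply', h2 k le_rfl, hkw, hcx]
    have h5 := dep_iter hq w k hk
    rw [hkw] at h5
    refine ⟨by simpa using h3 0 (by omega), ⟨k + 1, h4, h3⟩, ?_⟩
    have h6 : sInf {k | g^[k] w = x} = k + 1 := by
      apply le_antisymm
      · exact Nat.sInf_le h4
      · by_contra hcon
        have h7 : g^[sInf {k | g^[k] w = x}] w = x :=
          Nat.sInf_mem (s := {k | g^[k] w = x}) ⟨k + 1, h4⟩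
        exact hxQ (h7 ▸ h3 _ (by omega))
    omega
  have hhit : hit (Q x) x g = ((Q x).filter (fun c => g c = x)).biUnion (desc r q) := by
    ext w
    rw [Finset.mem_biUnion]
    constructor
    · intro hw
      obtain ⟨hwQ, k, hkx, hkQ⟩ := Finset.mem_filter.1 hw
      rcases Nat.eq_zero_or_pos k with h0 | h0
      · subst h0
        exact absurd (by simpa using hkx ▸ hwQ) hxQ
      · obtain ⟨m, rfl⟩ : ∃ m, k = m + 1 := ⟨k - 1, by omega⟩
        refine ⟨g^[m] w, ?_, ?_⟩
        · rw [Finset.mem_filter]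
          refine ⟨hkQ m (by omega), ?_⟩
          rw [← Function.iterate_succ_apply' g m w]
          exact hkx
        · have e1 : q^[m] w = g^[m] w := heq1 w m (fun j hj => hkQ j (by omega))
          rw [desc, Finset.mem_filter]
          refine ⟨Finset.mem_univ _, m, ?_, e1⟩
          by_contra hcon
          push Not at hcon
          have e2 := iter_dep hq w
          have e3 : q^[dep r q w] w = g^[dep r q w] w :=
            heq1 w _ (fun j hj => hkQ j (by omega))
          have e4 := hkQ (dep r q w) (by omega)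
          rw [← e3, e2] at e4
          exact h.root x hx e4
    · rintro ⟨c, hc, hw⟩
      obtain ⟨a1, a2, -⟩ := hinf c hc w hw
      rw [hit, Finset.mem_filter]
      exact ⟨a1, a2⟩
  unfold lam
  rw [hhit, Finset.sum_biUnion, Finset.mul_sum]
  · refine Finset.sum_congr rfl fun c hc => ?_
    unfold psi
    rw [Finset.mul_sum]
    refine Finset.sum_congr rfl fun w hw => ?_
    rw [(hinf c hc w hw).2.2, pow_succ, Nat.mul_comm]
  · intro c hc c' hc' hne
    obtain ⟨b1, b2⟩ := Finset.mem_filter.1 (Finset.mem_coe.1 hc)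
    obtain ⟨b3, b4⟩ := Finset.mem_filter.1 (Finset.mem_coe.1 hc')
    exact (desc_disj hq x).2 c ((mem_kids r q x c).2 ⟨hQr c b1, by rw [hqg c b1, b2]⟩) c'
      ((mem_kids r q x c').2 ⟨hQr c' b3, by rw [hqg c' b3, b4]⟩) hne

end

end Pool.Agent.H142.NT
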