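import Pool.Agent.H142.NT.Defs2
import Pool.Agent.H142.NT.B0a
import Pool.Agent.H142.NT.B0b
import Pool.Agent.H142.NT.CD
import Pool.Agent.H142.NT.CC
import Pool.Agent.H142.NT.DF
import Pool.Agent.H142.NT.DEC
import Pool.Agent.H142.NT.ASM
import Pool.Agent.H142.NT.PL
import Pool.Agent.H142.NT.PC
import Pool.Agent.H142.NT.BC

set_option autoImplicit false

open Finset Classical

namespace Pool.Agent.H142.NT

variable {V : Type} [Fintype V]

section
variable {G : SimpleGraph V} {r : V} {p : V → V} {I : Finset V} {Q : V → Finset V}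
  {u : V → V} {K : ℕ} {f : V → ℕ → V → V}

end

theorem iter_out_C1 {G : SimpleGraph V} {r : V} {p : V → V} {I : Finset V} {Q : V → Finset V}
    {u : V → V} {K : ℕ} {f : V → ℕ → V → V} (h : Sys G r p I Q u K f) {v : V}
    (hv : ∀ x ∈ I, v ∉ Q x) (k : ℕ) : ∀ x ∈ I, p^[k] v ∉ Q x := by
  induction k with
  | zero => exact hv
  | succ k ih =>
    rw [Function.iterate_succ_apply']
    exact h.closed _ ih

theorem desc_out_C1 {G : SimpleGraph V} {r : V} {p : V → V} {I : Finset V} {Q : V → Finset V}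
    {u : V → V} {K : ℕ} {f : V → ℕ → V → V} (h : Sys G r p I Q u K f) {v w : V}
    (hw : ∀ x ∈ I, w ∉ Q x) (hd : w ∈ desc r p v) : ∀ x ∈ I, v ∉ Q x := by
  unfold desc at hd
  rw [Finset.mem_filter] at hd
  obtain ⟨_, k, _, hk⟩ := hd
  rw [← hk]
  exact iter_out_C1 h hw k

/-- the ancestors of the places of the modifications -/
noncomputable def Aset_C1 (r : V) (p : V → V) (I : Finset V) (u : V → V) : Finset V :=
  univ.filter (fun v => ∃ x ∈ I, x ∈ desc r p v ∨ u x ∈ desc r p v)

theorem mem_Aset_C1 {r : V} {p : V → V} {I : Finset V} {u : V → V} {v : V} :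
    v ∈ Aset_C1 r p I u ↔ ∃ x ∈ I, x ∈ desc r p v ∨ u x ∈ desc r p v := by
  simp [Aset_C1]

theorem ext_lt_C1 {I : Finset V} {K : ℕ} (s : I → Fin K) : ∀ x ∈ I, ext s x < K := by
  intro x hx
  unfold ext
  rw [dif_pos hx]
  exact (s ⟨x, hx⟩).isLt

theorem ext_eq_C1 {I : Finset V} {K : ℕ} (s : I → Fin K) (x : V) (hx : x ∈ I) :
    ext s x = (s ⟨x, hx⟩).val := by
  unfold ext
  rw [dif_pos hx]

/-- local decoding at a vertex of `I` -/
theorem dec_in_C1 {G : SimpleGraph V} {r : V} {p : V → V} {I : Finset V} {Q : V → Finset V}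
    {u : V → V} {K : ℕ} {f : V → ℕ → V → V} (h : Sys G r p I Q u K f)
    (hkids : ∀ x ∈ I, kids r p x ⊆ Q x)
    (hlam : ∀ x ∈ I, ∀ s < K, ∀ s' < K, lam (Q x) x (f x s) = lam (Q x) x (f x s') → s = s')
    (S S' : V → ℕ) (hS : ∀ x ∈ I, S x < K) (hS' : ∀ x ∈ I, S' x < K) (v : V) (hv : v ∈ I)
    (k : ℕ) (hk : Fintype.card V ≤ k)
    (hpc : pc r (asm p I Q f S) (k + 1) v = pc r (asm p I Q f S') (k + 1) v) : S v = S' v := by
  have hkk : ∀ T : V → ℕ, (∀ x ∈ I, T x < K) →
      kids r (asm p I Q f T) v = (Q v).filter (fun c => f v (T v) c = v) := by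
    intro T hT
    ext c
    constructor
    · intro hc
      rcases kids_asm h T hT v (h.base v hv) c hc with ⟨h1, h2⟩ | ⟨x, hx, h1, h2, h3⟩
      · exact absurd (hkids v hv h1) (h2 v hv)
      · rcases h3 with h3 | ⟨_, h3⟩
        · subst h3
          exact Finset.mem_filter.2 ⟨h1, h2⟩
        · exact absurd rfl (h3 v hv)
    · intro hc
      obtain ⟨h1, h2⟩ := Finset.mem_filter.1 hc
      rw [mem_kids, asm_of_mem h T hv h1]
      refine ⟨?_, h2⟩
      rintro rfl
      exact h.root v hv h1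
  have hsum : ∀ T : V → ℕ, (∀ x ∈ I, T x < K) →
      (((kids r (asm p I Q f T) v).val.map (pc r (asm p I Q f T) k)).map (decF k)).sum =
        ∑ c ∈ kids r (asm p I Q f T) v, psi r (asm p I Q f T) c := by
    intro T hT
    rw [Multiset.map_map]
    show ∑ c ∈ kids r (asm p I Q f T) v, decF k (pc r (asm p I Q f T) k c) = _
    refine Finset.sum_congr rfl ?_
    intro c _
    exact decF_pc (asm_isPar h T hT) k c (by omega)
  rw [pc_succ_eq] at hpc
  have h1 := hsum S hS
  have h2 := hsum S' hS'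
  rw [hpc, h2] at h1
  rw [hkk S hS, hkk S' hS'] at h1
  have h3 := psi_local h S hS v hv
  have h4 := psi_local h S' hS' v hv
  rw [← h1] at h3
  exact hlam v hv _ (hS v hv) _ (hS' v hv) (h3.symm.trans h4)

/-- local decoding at an ancestor outside `I` -/
theorem dec_out_C1 {G : SimpleGraph V} {r : V} {p : V → V} {I : Finset V} {Q : V → Finset V}
    {u : V → V} {K : ℕ} {f : V → ℕ → V → V} (h : Sys G r p I Q u K f)
    (S S' : V → ℕ) (hS : ∀ x ∈ I, S x < K) (hS' : ∀ x ∈ I, S' x < K)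
    (A : Finset V) (hA : ∀ v ∈ A, v ≠ r → p v ∈ A)
    (hx : ∀ x ∈ I, x ∈ A) (hu : ∀ x ∈ I, u x ∈ A) (hAQ : ∀ v ∈ A, ∀ x ∈ I, v ∉ Q x)
    (v c : V) (hvA : v ∈ A) (hvI : v ∉ I) (hvu : ∀ x ∈ I, v ≠ u x)
    (hcA : c ∈ A) (hc : c ∈ kids r p v)
    (huniq : ∀ c' ∈ A, c' ∈ kids r p v → c' = c) (k : ℕ)
    (hpc : pc r (asm p I Q f S) (k + 1) v = pc r (asm p I Q f S') (k + 1) v) :
    pc r (asm p I Q f S) k c = pc r (asm p I Q f S') k c := by
  have hkk : ∀ T : V → ℕ, (∀ x ∈ I, T x < K) →
      kids r (asm p I Q f T) v = (kids r p v).filter (fun c => ∀ x ∈ I, c ∉ Q x) := by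
    intro T hT
    ext c
    constructor
    · intro hc
      rcases kids_asm h T hT v (hAQ v hvA) c hc with ⟨h1, h2⟩ | ⟨x, hx, h1, h2, h3⟩
      · exact Finset.mem_filter.2 ⟨h1, h2⟩
      · rcases h3 with h3 | ⟨h3, _⟩
        · exact absurd (h3 ▸ hx) hvI
        · exact absurd h3 (hvu x hx)
    · intro hc
      obtain ⟨h1, h2⟩ := Finset.mem_filter.1 hc
      rw [mem_kids] at h1 ⊢
      rw [asm_of_not T h2]
      exact h1
  rw [pc_succ_eq, hkk S hS, hkk S' hS'] at hpc
  set KK := (kids r p v).filter (fun c => ∀ x ∈ I, c ∉ Q x) with hKK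
  have hcK : c ∈ KK := Finset.mem_filter.2 ⟨hc, hAQ c hcA⟩
  have hval : KK.val = c ::ₘ (KK.erase c).val := by
    rw [← Finset.insert_val_of_notMem (Finset.notMem_erase c KK), Finset.insert_erase hcK]
  rw [hval, Multiset.map_cons, Multiset.map_cons] at hpc
  have hrest : (KK.erase c).val.map (pc r (asm p I Q f S) k) =
      (KK.erase c).val.map (pc r (asm p I Q f S') k) := by
    refine Multiset.map_congr rfl ?_
    intro c' hc'
    rw [Finset.mem_val, Finset.mem_erase] at hc'
    obtain ⟨h1, h2⟩ := hc'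
    obtain ⟨h3, h4⟩ := Finset.mem_filter.1 h2
    refine pc_const h S S' hS hS' A hA hx hu c' h4 ?_ k
    intro h5
    exact h1 (huniq c' h5 h3)
  rw [hrest] at hpc
  exact (Multiset.cons_inj_left _).1 hpc

theorem sum_count_C1 (A I : Finset V) (g : V → V) (hg : ∀ x ∈ I, g x ∈ A) :
    ∑ v ∈ A, (I.filter (fun x => g x = v)).card = I.card :=
  (Finset.card_eq_sum_card_fiberwise (f := g) (s := I) (t := A) hg).symm

theorem caseI {G : SimpleGraph V} {r : V} {p : V → V} {I : Finset V} {Q : V → Finset V}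
    {u : V → V} {K : ℕ} {f : V → ℕ → V → V} (h : Sys G r p I Q u K f) (d : ℕ)
    (hd : ∀ v, (nbr G v).card ≤ d)
    (hu : ∀ x ∈ I, (∀ y ∈ I, u x ∉ Q y ∧ u x ≠ y))
    (hkids : ∀ x ∈ I, kids r p x ⊆ Q x)
    (hlam : ∀ x ∈ I, ∀ s < K, ∀ s' < K, lam (Q x) x (f x s) = lam (Q x) x (f x s') → s = s')
    (hI : I.Nonempty) :
    K ^ I.card ≤ Fintype.card V * numUnlabeled G * ((d + 1) ^ d) ^ (2 * I.card) := by
  set A := Aset_C1 r p I u with hAdef
  have hxA : ∀ x ∈ I, x ∈ A := fun x hx => mem_Aset_C1.2 ⟨x, hx, Or.inl (self_mem_desc r p x)⟩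
  have huA : ∀ x ∈ I, u x ∈ A :=
    fun x hx => mem_Aset_C1.2 ⟨x, hx, Or.inr (self_mem_desc r p (u x))⟩
  have hAQ : ∀ v ∈ A, ∀ x ∈ I, v ∉ Q x := by
    intro v hv
    obtain ⟨x, hx, h1 | h1⟩ := mem_Aset_C1.1 hv
    · exact desc_out_C1 h (h.base x hx) h1
    · exact desc_out_C1 h (fun y hy => (hu x hx y hy).1) h1
  have hrA : r ∈ A := by
    obtain ⟨x, hx⟩ := hI
    refine mem_Aset_C1.2 ⟨x, hx, Or.inl ?_⟩
    rw [desc_root h.par]
    exact Finset.mem_univ _
  have hAp : ∀ v ∈ A, v ≠ r → p v ∈ A := by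
    intro v hv hvr
    have h2 : v ∈ desc r p (p v) := mem_desc_of_par h.par hvr (self_mem_desc r p (p v))
    obtain ⟨x, hx, h1 | h1⟩ := mem_Aset_C1.1 hv
    · exact mem_Aset_C1.2 ⟨x, hx, Or.inl (desc_trans h.par h2 h1)⟩
    · exact mem_Aset_C1.2 ⟨x, hx, Or.inr (desc_trans h.par h2 h1)⟩
  set m : V → ℕ := fun v => (I.filter (fun x => x = v)).card + (I.filter (fun x => u x = v)).card
    with hm
  have hmpos : ∀ v ∈ A, 1 ≤ (A.filter (fun c => c ∈ kids r p v)).card + m v := by
    intro v hv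
    obtain ⟨x, hx, hw⟩ := mem_Aset_C1.1 hv
    have key : ∀ w, (w = x ∨ w = u x) → w ∈ desc r p v →
        1 ≤ (A.filter (fun c => c ∈ kids r p v)).card + m v := by
      intro w hw1 hw2
      rw [desc_eq h.par v, Finset.mem_insert, Finset.mem_biUnion] at hw2
      rcases hw2 with hw2 | ⟨c, hc, hcw⟩
      · rcases hw1 with hw1 | hw1
        · have : 0 < (I.filter (fun y => y = v)).card :=
            Finset.card_pos.2 ⟨x, Finset.mem_filter.2 ⟨hx, hw1.symm.trans hw2⟩⟩
          simp only [hm]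
          omega
        · have : 0 < (I.filter (fun y => u y = v)).card :=
            Finset.card_pos.2 ⟨x, Finset.mem_filter.2 ⟨hx, hw1.symm.trans hw2⟩⟩
          simp only [hm]
          omega
      · have : 0 < (A.filter (fun c => c ∈ kids r p v)).card := by
          refine Finset.card_pos.2 ⟨c, Finset.mem_filter.2 ⟨mem_Aset_C1.2 ⟨x, hx, ?_⟩, hc⟩⟩
          rcases hw1 with hw1 | hw1
          · exact Or.inl (hw1 ▸ hcw)
          · exact Or.inr (hw1 ▸ hcw)
        omega
    rcases hw with hw | hw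
    · exact key x (Or.inl rfl) hw
    · exact key (u x) (Or.inr rfl) hw
  have hsum : ∑ v ∈ A, m v = 2 * I.card := by
    simp only [hm]
    rw [Finset.sum_add_distrib, sum_count_C1 A I (fun x => x) hxA, sum_count_C1 A I u huA]
    ring
  set W := A.filter (fun v => 2 ≤ (A.filter (fun c => c ∈ kids r p v)).card + m v) with hW
  have hWcard : W.card + 1 ≤ 2 * I.card := by
    rw [← hsum]
    exact branch_count h.par A hrA hAp m hmpos
  have hxW : ∀ x ∈ I, x ∉ W := by
    intro x hx hxW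
    have h2 := (Finset.mem_filter.1 hxW).2
    have e1 : A.filter (fun c => c ∈ kids r p x) = ∅ := by
      rw [Finset.filter_eq_empty_iff]
      intro c hc hc'
      exact hAQ c hc x hx (hkids x hx hc')
    have e2 : (I.filter (fun y => y = x)).card ≤ 1 := by
      rw [Finset.card_le_one]
      intro a ha b hb
      rw [(Finset.mem_filter.1 ha).2, (Finset.mem_filter.1 hb).2]
    have e3 : I.filter (fun y => u y = x) = ∅ := by
      rw [Finset.filter_eq_empty_iff]
      intro y hy
      exact (hu y hy x hx).2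
    simp only [hm] at h2
    rw [e1, e3, Finset.card_empty] at h2
    omega
  obtain ⟨N, hN⟩ : ∃ N, N = 2 * Fintype.card V + 2 := ⟨_, rfl⟩
  have hpar : ∀ s : I → Fin K, IsPar G r (asm p I Q f (ext s)) :=
    fun s => asm_isPar h (ext s) (ext_lt_C1 s)
  have hdep : ∀ v, dep r p v < Fintype.card V := dep_lt h.par
  have main := decode (ι := I → Fin K) d hd (fun s => asm p I Q f (ext s)) hpar p (dep r p) N A W
    (Finset.filter_subset _ _) hrA (dep_root r p)
    (fun v _ => by have := hdep v; omega)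
    (fun v hv hvr => ⟨hAp v hv hvr, dep_par h.par v hvr,
      fun s => asm_of_not (ext s) (hAQ v hv)⟩)
    (Option (Fin K)) (fun v s => if hv : v ∈ I then some (s ⟨v, hv⟩) else none)
    (by
      intro s s' hss
      funext ⟨x, hx⟩
      have h2 := hss x (Finset.mem_sdiff.2 ⟨hxA x hx, hxW x hx⟩)
      simpa only [dif_pos hx, Option.some.injEq] using h2)
    (by
      intro v hv s s' hpc
      obtain ⟨hvA, hvW⟩ := Finset.mem_sdiff.1 hv
      have hdv := hdep v
      obtain ⟨k, hk⟩ : ∃ k, N - dep r p v = k + 1 := ⟨N - dep r p v - 1, by omega⟩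
      have hle : (A.filter (fun c => c ∈ kids r p v)).card + m v ≤ 1 := by
        by_contra hcon
        exact hvW (Finset.mem_filter.2 ⟨hvA, by omega⟩)
      simp only [hk] at hpc
      by_cases hvI : v ∈ I
      · refine ⟨?_, ?_⟩
        · intro c hcA hcr hpcv
          exact absurd (hkids v hvI ((mem_kids r p v c).2 ⟨hcr, hpcv⟩)) (hAQ c hcA v hvI)
        · simp only [dif_pos hvI, Option.some.injEq]
          have h3 := dec_in_C1 h hkids hlam (ext s) (ext s') (ext_lt_C1 s) (ext_lt_C1 s') v hvI k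
            (by omega) hpc
          rw [ext_eq_C1 s v hvI, ext_eq_C1 s' v hvI] at h3
          exact Fin.ext h3
      · refine ⟨?_, ?_⟩
        · intro c hcA hcr hpcv
          have hck : c ∈ kids r p v := (mem_kids r p v c).2 ⟨hcr, hpcv⟩
          have hcf : c ∈ A.filter (fun c => c ∈ kids r p v) := Finset.mem_filter.2 ⟨hcA, hck⟩
          have hc1 : 0 < (A.filter (fun c => c ∈ kids r p v)).card := Finset.card_pos.2 ⟨c, hcf⟩
          have hcard1 : (A.filter (fun c => c ∈ kids r p v)).card ≤ 1 := by omega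
          have hm0 : m v = 0 := by omega
          have hvu : ∀ x ∈ I, v ≠ u x := by
            intro x hx hvx
            have : 0 < (I.filter (fun y => u y = v)).card :=
              Finset.card_pos.2 ⟨x, Finset.mem_filter.2 ⟨hx, hvx.symm⟩⟩
            simp only [hm] at hm0
            omega
          have hdc : N - dep r p c = k := by
            rw [dep_kid h.par hck]
            omega
          simp only [hdc]
          refine dec_out_C1 h (ext s) (ext s') (ext_lt_C1 s) (ext_lt_C1 s') A hAp hxA huA hAQ v c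
            hvA hvI hvu hcA hck ?_ k hpc
          intro c' hc'A hc'k
          exact Finset.card_le_one.1 hcard1 _ (Finset.mem_filter.2 ⟨hc'A, hc'k⟩) _ hcf
        · simp only [dif_neg hvI])
  have hcodes := codes_card G r (2 * Fintype.card V + 1)
    (univ.image (fun s : I → Fin K => asm p I Q f (ext s))) (by
      intro q hq
      obtain ⟨s, _, rfl⟩ := Finset.mem_image.1 hq
      exact hpar s)
  rw [Finset.image_image] at hcodes
  have hN' : 2 * Fintype.card V + 1 + 1 = N := by omega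
  rw [hN'] at hcodes
  have hcard : Fintype.card (I → Fin K) = K ^ I.card := by
    rw [Fintype.card_fun, Fintype.card_fin, Fintype.card_coe]
  rw [hcard] at main
  refine main.trans (Nat.mul_le_mul hcodes ?_)
  exact Nat.pow_le_pow_right (Nat.one_le_pow _ _ (by omega)) (by omega)

end Pool.Agent.H142.NT
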