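import Pool.Agent.H142.NT.Defs2
import Pool.Agent.H142.NT.B0a
import Pool.Agent.H142.NT.B0b
import Pool.Agent.H142.NT.CD
import Pool.Agent.H142.NT.CC
import Pool.Agent.H142.NT.DF
import Pool.Agent.H142.NT.DEC
import Pool.Agent.H142.NT.ASM
import Pool.Agent.H142.NT.PL

set_option autoImplicit false

open Finset Classical

namespace Pool.Agent.H142.NT

variable {V : Type} [Fintype V]

section
variable {G : SimpleGraph V} {r : V} {p : V → V} {I : Finset V} {Q : V → Finset V}
  {u : V → V} {K : ℕ} {f : V → ℕ → V → V}

end

theorem decF_map_C2 {G : SimpleGraph V} {r : V} {p : V → V} (h : IsPar G r p) (k : ℕ)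
    (hk : Fintype.card V ≤ k) (F : Finset V) :
    ((F.val.map (pc r p k)).map (decF k)).sum = ∑ c ∈ F, psi r p c := by
  rw [Multiset.map_map]
  refine congrArg Multiset.sum (Multiset.map_congr rfl fun c _ => ?_)
  exact decF_pc h k c (by omega)

omit [Fintype V] in
theorem ext_lt_C2 {I : Finset V} (s : I → Fin 2) (x : V) (hx : x ∈ I) : ext s x < 2 := by
  unfold ext
  rw [dif_pos hx]
  exact (s ⟨x, hx⟩).isLt

theorem caseII {G : SimpleGraph V} {r : V} {p : V → V} {I : Finset V} {Q : V → Finset V}
    {u : V → V} {f : V → ℕ → V → V} (h : Sys G r p I Q u 2 f) (d : ℕ)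
    (hd : ∀ v, (nbr G v).card ≤ d)
    (H W : Finset V) (hW : W ⊆ H) (hr : r ∈ H) (hH : ∀ v ∈ H, v ≠ r → p v ∈ H)
    (hIH : I ⊆ H \ W) (hQH : ∀ x ∈ I, ∀ v ∈ Q x, v ∉ H)
    (hlam : ∀ x ∈ I, lam (Q x) x (f x 0) ≠ lam (Q x) x (f x 1))
    (hkids : ∀ x ∈ I, ∀ c ∈ kids r p x, c ∉ H → c ∈ Q x)
    (θ : ℕ)
    (hgood : ∀ v ∈ H \ W, ∃ c ∈ H, kids r p v ∩ H = {c} ∧
      ∀ S : V → ℕ, (∀ x ∈ I, S x < 2) → θ < psi r (asm p I Q f S) c ∧
        ∀ c' ∈ kids r (asm p I Q f S) v, c' ≠ c → psi r (asm p I Q f S) c' ≤ θ) :
    2 ^ I.card ≤ Fintype.card V * numUnlabeled G * ((d + 1) ^ d) ^ W.card := by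
  have hlt : ∀ (s : I → Fin 2), ∀ x ∈ I, ext s x < 2 := fun s x hx => ext_lt_C2 s x hx
  have hP : ∀ s : I → Fin 2, IsPar G r (asm p I Q f (ext s)) := fun s =>
    asm_isPar h (ext s) (hlt s)
  have hHQ : ∀ v ∈ H, ∀ x ∈ I, v ∉ Q x := fun v hv x hx hq => hQH x hx v hq hv
  have hPH : ∀ s : I → Fin 2, ∀ v ∈ H, asm p I Q f (ext s) v = p v := fun s v hv =>
    asm_of_not (ext s) (hHQ v hv)
  have hmain : Fintype.card (I → Fin 2) ≤
      (univ.image (fun s : I → Fin 2 => pc r (asm p I Q f (ext s)) (2 * Fintype.card V + 2) r)).card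
        * ((d + 1) ^ d) ^ W.card := by
    refine decode (G := G) (r := r) d hd (fun s : I → Fin 2 => asm p I Q f (ext s)) hP p (dep r p)
      (2 * Fintype.card V + 2) H W hW hr (dep_root r p) (fun v _ => ?_) (fun v hv hvr => ?_)
      (Option (Fin 2)) (fun v s => if hv : v ∈ I then some (s ⟨v, hv⟩) else none) ?_ ?_
    · have := dep_lt h.par v
      omega
    · exact ⟨hH v hv hvr, dep_par h.par v hvr, fun s => hPH s v hv⟩
    · intro s s' hs
      funext x
      obtain ⟨x, hx⟩ := x
      have := hs x (hIH hx)
      simpa [hx] using this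
    · intro v hv s s' hcode
      have hvH : v ∈ H := (Finset.mem_sdiff.1 hv).1
      have hdv := dep_lt h.par v
      obtain ⟨k, hk⟩ : ∃ k, 2 * Fintype.card V + 2 - dep r p v = k + 1 :=
        ⟨2 * Fintype.card V + 2 - dep r p v - 1, by omega⟩
      have hkV : Fintype.card V ≤ k := by omega
      rw [hk, pc_succ_eq] at hcode
      obtain ⟨c, hcH, hc1, hc2⟩ := hgood v hv
      have hckid : c ∈ kids r p v := by
        have : c ∈ kids r p v ∩ H := by rw [hc1]; exact mem_singleton_self c
        exact (mem_inter.1 this).1
      obtain ⟨hcr, hpc⟩ := (mem_kids r p v c).1 hckid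
      have hcs : ∀ s : I → Fin 2, c ∈ kids r (asm p I Q f (ext s)) v := fun s =>
        (mem_kids _ _ _ _).2 ⟨hcr, by rw [hPH s c hcH]; exact hpc⟩
      -- the codes of `c` agree
      have hcc : pc r (asm p I Q f (ext s)) k c = pc r (asm p I Q f (ext s')) k c := by
        have h1 : pc r (asm p I Q f (ext s)) k c ∈
            (kids r (asm p I Q f (ext s)) v).val.map (pc r (asm p I Q f (ext s)) k) :=
          Multiset.mem_map_of_mem _ (hcs s)
        rw [hcode] at h1
        obtain ⟨c'', hc''1, hc''2⟩ := Multiset.mem_map.1 h1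
        have h2 : decF k (pc r (asm p I Q f (ext s')) k c'') = psi r (asm p I Q f (ext s')) c'' :=
          decF_pc (hP s') k c'' (by omega)
        have h3 : decF k (pc r (asm p I Q f (ext s)) k c) = psi r (asm p I Q f (ext s)) c :=
          decF_pc (hP s) k c (by omega)
        rw [hc''2, h3] at h2
        have h4 : c'' = c := by
          by_contra hne
          have h5 := (hc2 (ext s') (hlt s')).2 c'' hc''1 hne
          have h6 := (hc2 (ext s) (hlt s)).1
          omega
        rw [← hc''2, h4]
      refine ⟨fun c' hc'H hc'r hc'p => ?_, ?_⟩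
      · have h1 : c' ∈ kids r p v ∩ H := mem_inter.2 ⟨(mem_kids _ _ _ _).2 ⟨hc'r, hc'p⟩, hc'H⟩
        rw [hc1, mem_singleton] at h1
        subst h1
        have h2 := dep_par h.par c' hc'r
        rw [hc'p] at h2
        have h3 : 2 * Fintype.card V + 2 - dep r p c' = k := by omega
        rw [h3]
        exact hcc
      · by_cases hvI : v ∈ I
        · simp only [hvI, dif_pos]
          -- the kids other than `c`
          have hkey : ∀ s : I → Fin 2, (kids r (asm p I Q f (ext s)) v).erase c =
              (Q v).filter (fun c => f v (ext s v) c = v) := by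
            intro s
            ext c'
            rw [mem_erase, mem_filter]
            constructor
            · rintro ⟨hne, hk'⟩
              rcases kids_asm h (ext s) (hlt s) v (hHQ v hvH) c' hk' with ⟨h1, h2⟩ |
                ⟨x, hx, h1, h2, h3⟩
              · exfalso
                by_cases hc'H : c' ∈ H
                · have h4 : c' ∈ kids r p v ∩ H := mem_inter.2 ⟨h1, hc'H⟩
                  rw [hc1, mem_singleton] at h4
                  exact hne h4
                · exact h2 v hvI (hkids v hvI c' h1 hc'H)
              · rcases h3 with rfl | ⟨_, h4⟩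
                · exact ⟨h1, h2⟩
                · exact absurd rfl (h4 v hvI)
            · rintro ⟨h1, h2⟩
              refine ⟨fun he => hQH v hvI c' h1 (he ▸ hcH), (mem_kids _ _ _ _).2 ⟨?_, ?_⟩⟩
              · intro he
                exact h.root v hvI (he ▸ h1)
              · rw [asm_of_mem h (ext s) hvI h1]
                exact h2
          have hsum : ∀ s : I → Fin 2,
              (((kids r (asm p I Q f (ext s)) v).val.map (pc r (asm p I Q f (ext s)) k)).map
                (decF k)).sum = decF k (pc r (asm p I Q f (ext s)) k c) +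
                ∑ c ∈ (Q v).filter (fun c => f v (ext s v) c = v),
                  psi r (asm p I Q f (ext s)) c := by
            intro s
            rw [decF_map_C2 (hP s) k hkV, ← Finset.add_sum_erase _ _ (hcs s), hkey s,
              decF_pc (hP s) k c (by omega)]
          have h1 := hsum s
          rw [hcode, hsum s', hcc] at h1
          have h2 := Nat.add_left_cancel h1
          have h3 := psi_local h (ext s) (hlt s) v hvI
          have h4 := psi_local h (ext s') (hlt s') v hvI
          rw [h2] at h4
          rw [h3] at h4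
          -- so `ext s v = ext s' v`
          have h5 : ext s v = ext s' v := by
            have h6 := hlt s v hvI
            have h7 := hlt s' v hvI
            have h8 := hlam v hvI
            rcases Nat.lt_succ_iff_lt_or_eq.1 h6 with h9 | h9
            · have h9' : ext s v = 0 := by omega
              rcases Nat.lt_succ_iff_lt_or_eq.1 h7 with h10 | h10
              · omega
              · rw [h9', h10] at h4
                exact absurd h4 h8
            · rcases Nat.lt_succ_iff_lt_or_eq.1 h7 with h10 | h10
              · have h10' : ext s' v = 0 := by omega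
                rw [h9, h10'] at h4
                exact absurd h4.symm h8
              · omega
          unfold ext at h5
          rw [dif_pos hvI, dif_pos hvI] at h5
          rw [Fin.ext h5]
        · simp only [hvI, dif_neg, not_false_iff]
  have hcodes := codes_card G r (2 * Fintype.card V + 1)
    (univ.image (fun s : I → Fin 2 => asm p I Q f (ext s))) (by
      intro q hq
      obtain ⟨s, _, rfl⟩ := mem_image.1 hq
      exact hP s)
  rw [Finset.image_image] at hcodes
  rw [Fintype.card_fun, Fintype.card_fin, Fintype.card_coe] at hmain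
  exact hmain.trans (Nat.mul_le_mul_right _ hcodes)

end Pool.Agent.H142.NT
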