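import Pool.Agent.H142.NT.Defs2
import Pool.Agent.H142.NT.B0a

set_option autoImplicit false

open Finset Classical

namespace Pool.Agent.H142.NT

variable {V : Type} [Fintype V]

theorem exists_conflict_free (G : SimpleGraph V) (d b : ℕ) (hd : ∀ v, (nbr G v).card ≤ d)
    (X : Finset V) (B : V → Finset V) (hB : ∀ x ∈ X, (B x).card ≤ b)
    (hdisj : ∀ x ∈ X, ∀ y ∈ X, x ≠ y → Disjoint (B x) (B y)) (v u : V → V)
    (hv : ∀ x ∈ X, v x ∈ B x) (hvu : ∀ x ∈ X, G.Adj (v x) (u x)) :
    ∃ I ⊆ X, (∀ x ∈ I, ∀ y ∈ I, x ≠ y → u x ∉ B y) ∧ X.card ≤ I.card * (2 + b * d) := by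
  -- elements of two balls
  have huniq : ∀ x ∈ X, ∀ y ∈ X, ∀ w, w ∈ B x → w ∈ B y → x = y := by
    intro x hx y hy w h1 h2
    by_contra hne
    exact Finset.disjoint_left.1 (hdisj x hx y hy hne) h1 h2
  obtain ⟨I, hI, hmax⟩ := Finset.exists_max_image
    (X.powerset.filter fun I => ∀ x ∈ I, ∀ y ∈ I, x ≠ y → u x ∉ B y) Finset.card
    ⟨∅, by simp⟩
  rw [Finset.mem_filter, Finset.mem_powerset] at hI
  obtain ⟨hIX, hfree⟩ := hI
  refine ⟨I, hIX, hfree, ?_⟩
  have hcase : ∀ x ∈ X, x ∉ I → (∃ y ∈ I, u y ∈ B x) ∨ (∃ y ∈ I, u x ∈ B y) := by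
    intro x hx hxI
    by_contra hcon
    rw [not_or] at hcon
    obtain ⟨h1, h2⟩ := hcon
    have h3 : insert x I ∈ X.powerset.filter fun I => ∀ x ∈ I, ∀ y ∈ I, x ≠ y → u x ∉ B y := by
      rw [Finset.mem_filter, Finset.mem_powerset]
      refine ⟨Finset.insert_subset hx hIX, ?_⟩
      intro a ha c hc hac
      rw [Finset.mem_insert] at ha hc
      rcases ha with rfl | ha
      · rcases hc with rfl | hc
        · exact absurd rfl hac
        · exact fun h => h2 ⟨c, hc, h⟩
      · rcases hc with rfl | hc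
        · exact fun h => h1 ⟨a, ha, h⟩
        · exact hfree a ha c hc hac
    have h4 := hmax _ h3
    rw [Finset.card_insert_of_notMem hxI] at h4
    omega
  set A : Finset V := X.filter fun x => ∃ y ∈ I, u y ∈ B x with hA
  set C : Finset V := X.filter fun x => ∃ y ∈ I, u x ∈ B y with hC
  have hcov : X ⊆ I ∪ (A ∪ C) := by
    intro x hx
    by_cases hxI : x ∈ I
    · exact Finset.mem_union_left _ hxI
    · rcases hcase x hx hxI with h | h
      · exact Finset.mem_union_right _ (Finset.mem_union_left _ (Finset.mem_filter.2 ⟨hx, h⟩))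
      · exact Finset.mem_union_right _ (Finset.mem_union_right _ (Finset.mem_filter.2 ⟨hx, h⟩))
  have hAcard : A.card ≤ I.card := by
    have hex : ∀ x : V, ∃ w, x ∈ A → w ∈ I.image u ∧ w ∈ B x := by
      intro x
      by_cases hx : x ∈ A
      · obtain ⟨y, hy, hy'⟩ := (Finset.mem_filter.1 hx).2
        exact ⟨u y, fun _ => ⟨Finset.mem_image_of_mem u hy, hy'⟩⟩
      · exact ⟨x, fun h => absurd h hx⟩
    choose f hf using hex
    refine le_trans (Finset.card_le_card_of_injOn f (fun x hx => (hf x hx).1) ?_)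
      (Finset.card_image_le (s := I) (f := u))
    intro x hx y hy hxy
    have h1 := (hf x hx).2
    have h2 := (hf y hy).2
    rw [hxy] at h1
    exact huniq x (Finset.mem_filter.1 hx).1 y (Finset.mem_filter.1 hy).1 _ h1 h2
  have hCcard : C.card ≤ I.card * (b * d) := by
    have h1 : C.card ≤ (I.biUnion fun y => (B y).biUnion fun w => nbr G w).card := by
      refine Finset.card_le_card_of_injOn v ?_ ?_
      · intro x hx
        obtain ⟨hx1, y, hy, hy'⟩ := Finset.mem_filter.1 hx
        rw [Finset.mem_coe, Finset.mem_biUnion]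
        refine ⟨y, hy, ?_⟩
        rw [Finset.mem_biUnion]
        exact ⟨u x, hy', (mem_nbr G _ _).2 (hvu x hx1).symm⟩
      · intro x hx y hy hxy
        have hx1 := (Finset.mem_filter.1 hx).1
        have hy1 := (Finset.mem_filter.1 hy).1
        have h2 := hv x hx1
        rw [hxy] at h2
        exact huniq x hx1 y hy1 _ h2 (hv y hy1)
    refine h1.trans (Finset.card_biUnion_le_card_mul _ _ _ fun y hy => ?_)
    refine (Finset.card_biUnion_le_card_mul _ _ d fun w _ => hd w).trans ?_
    exact Nat.mul_le_mul_right d (hB y (hIX hy))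
  have h1 := Finset.card_le_card hcov
  have h2 := Finset.card_union_le I (A ∪ C)
  have h3 := Finset.card_union_le A C
  have h4 : I.card * (2 + b * d) = I.card + I.card + I.card * (b * d) := by ring
  rw [h4]
  omega

end Pool.Agent.H142.NT
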