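import Pool.Agent.H142.NT.Defs2

set_option autoImplicit false

open Finset Classical

namespace Pool.Agent.H142.NT

variable {V : Type} [Fintype V]

theorem tm_spec_LAM (x : V) (g : V → V) (v : V) (h : ∃ k, g^[k] v = x) :
    g^[tm x g v] v = x := Nat.sInf_mem (s := {k | g^[k] v = x}) h

theorem tm_le_LAM (x : V) (g : V → V) (v : V) (k : ℕ) (h : g^[k] v = x) : tm x g v ≤ k :=
  Nat.sInf_le (s := {k | g^[k] v = x}) h

theorem tm_self_LAM (x : V) (g : V → V) : tm x g x = 0 :=
  Nat.le_zero.1 (tm_le_LAM x g x 0 rfl)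

theorem tm_step_LAM (x : V) (g : V → V) (v : V) (hv : v ≠ x) (h : ∃ k, g^[k] v = x) :
    tm x g v = tm x g (g v) + 1 := by
  have h1 := tm_spec_LAM x g v h
  obtain ⟨m, hm⟩ : ∃ m, tm x g v = m + 1 := by
    rcases Nat.eq_zero_or_pos (tm x g v) with h0 | h0
    · rw [h0] at h1
      exact absurd h1 hv
    · exact ⟨tm x g v - 1, by omega⟩
  rw [hm] at h1
  have h2 : g^[m] (g v) = x := h1
  have h3 := tm_le_LAM x g (g v) m h2
  have h4 := tm_spec_LAM x g (g v) ⟨m, h2⟩
  have h5 : g^[tm x g (g v) + 1] v = x := h4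
  have h6 := tm_le_LAM x g v _ h5
  omega

theorem reach_LAM (Q : Finset V) (x : V) (g : V → V) (hg : LGood Q x g) (v : V)
    (hv : v ∈ Q ∨ v = x) : ∃ k, g^[k] v = x := by
  rcases hv with hv | rfl
  · obtain ⟨k, hk, _⟩ := hg v hv
    exact ⟨k, hk⟩
  · exact ⟨0, rfl⟩

theorem next_LAM (Q : Finset V) (x : V) (hx : x ∉ Q) (g : V → V) (hg : LGood Q x g) (v : V)
    (hv : v ∈ Q) : g v ∈ Q ∨ g v = x := by
  obtain ⟨k, hk, hj⟩ := hg v hv
  rcases k with _ | _ | k
  · exact absurd (show v = x from hk) (fun h => hx (h ▸ hv))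
  · exact Or.inr hk
  · exact Or.inl (hj 1 (by omega))

theorem step_LAM (Q : Finset V) (x : V) (hx : x ∉ Q) (g : V → V) (hg : LGood Q x g) (v : V)
    (hv : v ∈ Q) : tm x g v = tm x g (g v) + 1 :=
  tm_step_LAM x g v (fun h => hx (h ▸ hv)) (reach_LAM Q x g hg v (Or.inl hv))

theorem hit_LAM (Q : Finset V) (x : V) (g : V → V) (hg : LGood Q x g) : hit Q x g = Q := by
  unfold hit
  exact Finset.filter_true_of_mem (fun v hv => hg v hv)

theorem lam_LAM (Q : Finset V) (x : V) (g : V → V) (hg : LGood Q x g) :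
    lam Q x g = ∑ v ∈ Q, 2 ^ (tm x g v) := by
  unfold lam
  rw [hit_LAM Q x g hg]
  rfl

theorem pow_LAM (a b : ℕ) (h : a ≤ b) : 2 ^ a ≤ 2 ^ b := Nat.pow_le_pow_right (by norm_num) h

theorem pow_lt_LAM (a b : ℕ) (h : a < b) : 2 ^ a < 2 ^ b := Nat.pow_lt_pow_right (by norm_num) h

theorem lam_update_lt (Q : Finset V) (x : V) (hx : x ∉ Q) (g : V → V) (hg : LGood Q x g)
    (y z : V) (hy : y ∈ Q) (hz : z ∈ Q ∨ z = x) (hg' : LGood Q x (Function.update g y z))
    (ht : tm x g y ≤ tm x g z) : lam Q x g < lam Q x (Function.update g y z) := by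
  have key : ∀ n v, (v ∈ Q ∨ v = x) → tm x (Function.update g y z) v = n → tm x g v ≤ n := by
    intro n
    induction n with
    | zero =>
      intro v hv h
      have := tm_spec_LAM x _ v (reach_LAM Q x _ hg' v hv)
      rw [h] at this
      have h1 : v = x := this
      rw [h1, tm_self_LAM]
    | succ n ih =>
      intro v hv h
      rcases hv with hv | rfl
      swap
      · rw [tm_self_LAM]
        omega
      have h1 := step_LAM Q x hx _ hg' v hv
      have h2 := ih _ (next_LAM Q x hx _ hg' v hv) (by omega)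
      by_cases hvy : v = y
      · subst hvy
        rw [Function.update_self] at h2
        omega
      · rw [Function.update_of_ne hvy] at h2
        have h3 := step_LAM Q x hx g hg v hv
        omega
  rw [lam_LAM Q x g hg, lam_LAM Q x _ hg']
  apply Finset.sum_lt_sum
  · intro v hv
    exact pow_LAM _ _ (key _ v (Or.inl hv) rfl)
  · refine ⟨y, hy, pow_lt_LAM _ _ ?_⟩
    have h1 := step_LAM Q x hx _ hg' y hy
    rw [Function.update_self] at h1
    have h2 := key _ z hz rfl
    omega

theorem lam_update_gt (Q : Finset V) (x : V) (hx : x ∉ Q) (g : V → V) (hg : LGood Q x g)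
    (y z : V) (hy : y ∈ Q) (hz : z ∈ Q ∨ z = x) (hg' : LGood Q x (Function.update g y z))
    (ht : tm x g z + 1 < tm x g y) : lam Q x (Function.update g y z) < lam Q x g := by
  have key : ∀ n v, (v ∈ Q ∨ v = x) → tm x g v = n → tm x (Function.update g y z) v ≤ n := by
    intro n
    induction n using Nat.strong_induction_on with
    | _ n ih =>
      intro v hv h
      rcases hv with hv | rfl
      swap
      · rw [tm_self_LAM]
        omega
      have h1 := step_LAM Q x hx _ hg' v hv
      by_cases hvy : v = y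
      · subst hvy
        rw [Function.update_self] at h1
        have h2 := ih (tm x g z) (by omega) z hz rfl
        omega
      · rw [Function.update_of_ne hvy] at h1
        have h3 := step_LAM Q x hx g hg v hv
        have h2 := ih (tm x g (g v)) (by omega) (g v) (next_LAM Q x hx g hg v hv) rfl
        omega
  rw [lam_LAM Q x g hg, lam_LAM Q x _ hg']
  apply Finset.sum_lt_sum
  · intro v hv
    exact pow_LAM _ _ (key _ v (Or.inl hv) rfl)
  · refine ⟨y, hy, pow_lt_LAM _ _ ?_⟩
    have h1 := step_LAM Q x hx _ hg' y hy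
    rw [Function.update_self] at h1
    have h2 := key _ z hz rfl
    omega

theorem iter_eq_LAM (g : V → V) (y z v : V) (k : ℕ) (h : ∀ j < k, g^[j] v ≠ y) :
    ∀ j ≤ k, (Function.update g y z)^[j] v = g^[j] v := by
  intro j
  induction j with
  | zero => intro _; rfl
  | succ j ih =>
    intro hj
    rw [Function.iterate_succ_apply', Function.iterate_succ_apply', ih (by omega),
      Function.update_of_ne (h j (by omega))]

/-- moving a leaf out of `Q` -/
theorem lam_update_leaf (Q : Finset V) (x : V) (hx : x ∉ Q) (g : V → V) (hg : LGood Q x g)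
    (y z : V) (hy : y ∈ Q) (hz : z ∉ Q) (hzx : z ≠ x) (hleaf : ∀ v ∈ Q, g v ≠ y) :
    lam Q x (Function.update g y z) < lam Q x g := by
  have hsub : hit Q x (Function.update g y z) ⊆ Q.erase y := by
    intro v hv
    unfold hit at hv
    rw [Finset.mem_filter] at hv
    obtain ⟨hvQ, k, hk, hj⟩ := hv
    rw [Finset.mem_erase]
    refine ⟨?_, hvQ⟩
    rintro rfl
    rcases k with _ | _ | k
    · exact hx ((show v = x from hk) ▸ hvQ)
    · have h1 : Function.update g v z v = x := hk
      rw [Function.update_self] at h1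
      exact hzx h1
    · have h1 : Function.update g v z v ∈ Q := hj 1 (by omega)
      rw [Function.update_self] at h1
      exact hz h1
  have htm : ∀ v ∈ Q.erase y, tm x (Function.update g y z) v ≤ tm x g v := by
    intro v hv
    rw [Finset.mem_erase] at hv
    obtain ⟨k, hk, hj⟩ := hg v hv.2
    have hle := tm_le_LAM x g v k hk
    have hne : ∀ j < tm x g v, g^[j] v ≠ y := by
      intro j hjt
      rcases j with _ | j
      · exact hv.1
      · rw [Function.iterate_succ_apply']
        exact hleaf _ (hj j (by omega))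
    apply tm_le_LAM
    rw [iter_eq_LAM g y z v _ hne _ le_rfl]
    exact tm_spec_LAM x g v ⟨k, hk⟩
  rw [lam_LAM Q x g hg]
  calc lam Q x (Function.update g y z)
      = ∑ v ∈ hit Q x (Function.update g y z), 2 ^ (tm x (Function.update g y z) v) := rfl
    _ ≤ ∑ v ∈ Q.erase y, 2 ^ (tm x (Function.update g y z) v) :=
        Finset.sum_le_sum_of_subset hsub
    _ ≤ ∑ v ∈ Q.erase y, 2 ^ (tm x g v) :=
        Finset.sum_le_sum (fun v hv => pow_LAM _ _ (htm v hv))
    _ < ∑ v ∈ Q, 2 ^ (tm x g v) := by
        rw [← Finset.add_sum_erase Q _ hy]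
        have : 0 < 2 ^ (tm x g y) := pow_pos (by norm_num) _
        omega

theorem LGood_update (Q : Finset V) (x : V) (hx : x ∉ Q) (g : V → V) (hg : LGood Q x g)
    (y z : V) (hy : y ∈ Q) (hz : z ∈ Q ∨ z = x) (hzy : ∀ k, k ≤ tm x g z → g^[k] z ≠ y) :
    LGood Q x (Function.update g y z) := by
  have hZ : ∃ k, (Function.update g y z)^[k] z = x ∧
      ∀ j < k, (Function.update g y z)^[j] z ∈ Q := by
    rcases hz with hz | rfl
    · obtain ⟨k, hk, hj⟩ := hg z hz
      have hle := tm_le_LAM x g z k hk
      have he := iter_eq_LAM g y z z (tm x g z) (fun j hj => hzy j hj.le)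
      refine ⟨tm x g z, ?_, ?_⟩
      · rw [he _ le_rfl]
        exact tm_spec_LAM x g z ⟨k, hk⟩
      · intro j hjt
        rw [he j hjt.le]
        exact hj j (by omega)
    · exact ⟨0, rfl, fun j hj => absurd hj (Nat.not_lt_zero _)⟩
  have hstep : ∀ v ∈ Q, (∃ k, (Function.update g y z)^[k] (Function.update g y z v) = x ∧
      ∀ j < k, (Function.update g y z)^[j] (Function.update g y z v) ∈ Q) →
      ∃ k, (Function.update g y z)^[k] v = x ∧ ∀ j < k, (Function.update g y z)^[j] v ∈ Q := by
    rintro v hv ⟨k, hk, hj⟩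
    refine ⟨k + 1, hk, ?_⟩
    intro j hjk
    rcases j with _ | j
    · exact hv
    · exact hj j (by omega)
  have key : ∀ n v, (v ∈ Q ∨ v = x) → tm x g v = n →
      ∃ k, (Function.update g y z)^[k] v = x ∧ ∀ j < k, (Function.update g y z)^[j] v ∈ Q := by
    intro n
    induction n with
    | zero =>
      intro v hv h
      have := tm_spec_LAM x _ v (reach_LAM Q x _ hg v hv)
      rw [h] at this
      exact ⟨0, this, fun j hj => absurd hj (Nat.not_lt_zero _)⟩
    | succ n ih =>
      intro v hv h
      rcases hv with hv | rfl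
      swap
      · rw [tm_self_LAM] at h
        omega
      apply hstep v hv
      by_cases hvy : v = y
      · subst hvy
        rw [Function.update_self]
        exact hZ
      · rw [Function.update_of_ne hvy]
        have h3 := step_LAM Q x hx g hg v hv
        exact ih _ (next_LAM Q x hx g hg v hv) (by omega)
  intro v hv
  exact key _ v (Or.inl hv) rfl

end Pool.Agent.H142.NT
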