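import Pool.Agent.H142.NT.Defs2
import Pool.Agent.H142.NT.LAM

set_option autoImplicit false

open Finset Classical

namespace Pool.Agent.H142.NT

variable {V : Type} [Fintype V]

/-- the modified function -/
noncomputable def mod_CH (g zf : V → V) (A : Finset V) (v : V) : V := if v ∈ A then zf v else g v

/-- one step of the reachability statement -/
theorem step_CH (Q : Finset V) (x : V) (h : V → V) (v : V) (hv : v ∈ Q)
    (hr : ∃ k, h^[k] (h v) = x ∧ ∀ j < k, h^[j] (h v) ∈ Q) :
    ∃ k, h^[k] v = x ∧ ∀ j < k, h^[j] v ∈ Q := by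
  obtain ⟨k, hk, hj⟩ := hr
  refine ⟨k + 1, by rw [Function.iterate_succ_apply]; exact hk, ?_⟩
  intro j hjk
  rcases j with _ | j
  · exact hv
  · rw [Function.iterate_succ_apply]
    exact hj j (by omega)

/-- raising the vertices of a separated set one after the other, the deepest first -/
theorem chain (G : SimpleGraph V) (B : Finset V) (x : V) (hx : x ∈ B) (l : V → ℕ) (g : V → V)
    (hl0 : ∀ v ∈ B, l v = 0 → v = x) (hlx : l x = 0)
    (hg : ∀ v ∈ B, v ≠ x → g v ∈ B ∧ G.Adj v (g v) ∧ l (g v) + 1 = l v)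
    (hl : ∀ v ∈ B, ∀ w ∈ B, G.Adj v w → l v ≤ l w + 1)
    (Y : Finset V) (hY : ∀ y ∈ Y, y ∈ B ∧ ∃ z ∈ B, G.Adj y z ∧ l y ≤ l z ∧ g z ≠ y)
    (hsep : Sep G Y) :
    ∃ F : ℕ → V → V, (∀ s ≤ Y.card, (∀ v ∈ B.erase x, G.Adj v (F s v) ∧ F s v ∈ B) ∧
        LGood (B.erase x) x (F s)) ∧
      ∀ s < Y.card, lam (B.erase x) x (F s) < lam (B.erase x) x (F (s + 1)) := by
  -- the choice of `z`
  have hch : ∃ zf : V → V, ∀ y ∈ Y, zf y ∈ B ∧ G.Adj y (zf y) ∧ l y ≤ l (zf y) ∧ g (zf y) ≠ y := by
    refine ⟨fun y => if h : y ∈ Y then ((hY y h).2).choose else y, ?_⟩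
    intro y hy
    have hs := ((hY y hy).2).choose_spec
    simp only [dif_pos hy]
    exact ⟨hs.1, hs.2.1, hs.2.2.1, hs.2.2.2⟩
  obtain ⟨zf, hzf⟩ := hch
  have hYB : ∀ y ∈ Y, y ∈ B := fun y hy => (hY y hy).1
  -- `x` is not in `Y`
  have hxY : ∀ y ∈ Y, y ≠ x := by
    rintro y hy rfl
    obtain ⟨z1, z2, z3, z4⟩ := hzf y hy
    have hzx : zf y ≠ y := fun h => by
      rw [h] at z2
      exact G.loopless.irrefl y z2
    obtain ⟨g1, g2, g3⟩ := hg (zf y) z1 hzx
    have h5 := hl (zf y) z1 y hx z2.symm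
    exact z4 (hl0 _ g1 (by omega))
  have hly : ∀ y ∈ Y, 1 ≤ l y := by
    intro y hy
    by_contra hcon
    exact hxY y hy (hl0 y (hYB y hy) (by omega))
  have hzY : ∀ y ∈ Y, zf y ∉ Y := by
    intro y hy hz
    obtain ⟨z1, z2, z3, z4⟩ := hzf y hy
    have hne : y ≠ zf y := fun h => by
      rw [← h] at z2
      exact G.loopless.irrefl y z2
    exact (hsep y hy (zf y) hz hne).1 z2
  have hzx : ∀ y ∈ Y, zf y ≠ x := by
    intro y hy h
    obtain ⟨z1, z2, z3, z4⟩ := hzf y hy
    rw [h, hlx] at z3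
    have := hly y hy
    omega
  have hwY : ∀ y ∈ Y, g (zf y) ∉ Y := by
    intro y hy hw
    obtain ⟨z1, z2, z3, z4⟩ := hzf y hy
    obtain ⟨g1, g2, g3⟩ := hg (zf y) z1 (hzx y hy)
    exact (hsep y hy (g (zf y)) hw (Ne.symm z4)).2 (zf y) ⟨z2, g2.symm⟩
  have hwl : ∀ y ∈ Y, l (g (zf y)) ≤ l y := by
    intro y hy
    obtain ⟨z1, z2, z3, z4⟩ := hzf y hy
    obtain ⟨g1, g2, g3⟩ := hg (zf y) z1 (hzx y hy)
    have h5 := hl (zf y) z1 y (hYB y hy) z2.symm
    omega
  -- adjacency
  have hadj : ∀ A ⊆ Y, ∀ v ∈ B.erase x, G.Adj v (mod_CH g zf A v) ∧ mod_CH g zf A v ∈ B := by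
    intro A hA v hv
    obtain ⟨hvx, hvB⟩ := Finset.mem_erase.1 hv
    by_cases hvA : v ∈ A
    · obtain ⟨z1, z2, z3, z4⟩ := hzf v (hA hvA)
      simp only [mod_CH, if_pos hvA]
      exact ⟨z2, z1⟩
    · obtain ⟨g1, g2, g3⟩ := hg v hvB hvx
      simp only [mod_CH, if_neg hvA]
      exact ⟨g2, g1⟩
  -- goodness
  have hgood' : ∀ A ⊆ Y, ∀ n : ℕ, ∀ v ∈ B, l v ≤ n →
      ∃ k, (mod_CH g zf A)^[k] v = x ∧ ∀ j < k, (mod_CH g zf A)^[j] v ∈ B.erase x := by
    intro A hA n
    induction n with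
    | zero =>
      intro v hv hlv
      refine ⟨0, hl0 v hv (by omega), fun j hj => absurd hj (Nat.not_lt_zero _)⟩
    | succ n ih =>
      intro v hv hlv
      by_cases hvx : v = x
      · exact ⟨0, hvx, fun j hj => absurd hj (Nat.not_lt_zero _)⟩
      by_cases hvA : v ∈ A
      · have hvY := hA hvA
        obtain ⟨z1, z2, z3, z4⟩ := hzf v hvY
        obtain ⟨g1, g2, g3⟩ := hg (zf v) z1 (hzx v hvY)
        have hw := hwl v hvY
        have e1 : mod_CH g zf A v = zf v := by simp only [mod_CH, if_pos hvA]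
        have e2 : mod_CH g zf A (zf v) = g (zf v) := by
          simp only [mod_CH, if_neg (fun h => hzY v hvY (hA h))]
        refine step_CH _ x _ v (Finset.mem_erase.2 ⟨hvx, hv⟩) ?_
        rw [e1]
        refine step_CH _ x _ (zf v) (Finset.mem_erase.2 ⟨hzx v hvY, z1⟩) ?_
        rw [e2]
        by_cases hwx : g (zf v) = x
        · exact ⟨0, hwx, fun j hj => absurd hj (Nat.not_lt_zero _)⟩
        · have e3 : mod_CH g zf A (g (zf v)) = g (g (zf v)) := by
            simp only [mod_CH, if_neg (fun h => hwY v hvY (hA h))]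
          refine step_CH _ x _ (g (zf v)) (Finset.mem_erase.2 ⟨hwx, g1⟩) ?_
          rw [e3]
          obtain ⟨k1, k2, k3⟩ := hg (g (zf v)) g1 hwx
          exact ih _ k1 (by omega)
      · obtain ⟨g1, g2, g3⟩ := hg v hv hvx
        refine step_CH _ x _ v (Finset.mem_erase.2 ⟨hvx, hv⟩) ?_
        have e1 : mod_CH g zf A v = g v := by simp only [mod_CH, if_neg hvA]
        rw [e1]
        exact ih _ g1 (by omega)
  have hgood : ∀ A ⊆ Y, LGood (B.erase x) x (mod_CH g zf A) := fun A hA v hv =>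
    hgood' A hA (l v) v (Finset.mem_erase.1 hv).2 le_rfl
  -- lower bound for the local depth
  have hpath : ∀ A ⊆ Y, ∀ k : ℕ, ∀ v ∈ B, (mod_CH g zf A)^[k] v = x →
      (∀ j < k, (mod_CH g zf A)^[j] v ∈ B.erase x) → l v ≤ k := by
    intro A hA k
    induction k with
    | zero =>
      intro v hv h1 h2
      have : v = x := h1
      rw [this, hlx]
    | succ k ih =>
      intro v hv h1 h2
      have hv0 : v ∈ B.erase x := h2 0 (Nat.succ_pos k)
      obtain ⟨a1, a2⟩ := hadj A hA v hv0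
      have h3 := ih (mod_CH g zf A v) a2 (by rw [← Function.iterate_succ_apply]; exact h1)
        (fun j hj => by
          rw [← Function.iterate_succ_apply]
          exact h2 (j + 1) (by omega))
      have h4 := hl v hv _ a2 a1
      omega
  have hlow : ∀ A ⊆ Y, ∀ v ∈ B, l v ≤ tm x (mod_CH g zf A) v := by
    intro A hA v hv
    obtain ⟨k, hk1, hk2⟩ := hgood' A hA (l v) v hv le_rfl
    have hle := hpath A hA k v hv hk1 hk2
    have hne : {k | (mod_CH g zf A)^[k] v = x}.Nonempty := ⟨k, hk1⟩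
    have hmem := Nat.sInf_mem hne
    have hge : k ≤ sInf {k | (mod_CH g zf A)^[k] v = x} := by
      by_contra hcon
      have h5 := hk2 _ (not_le.1 hcon)
      exact (Finset.mem_erase.1 h5).1 hmem
    exact hle.trans hge
  -- upper bound for the depth of a least element
  have hup : ∀ A : Finset V, ∀ n : ℕ, ∀ v ∈ B, l v = n → (∀ a ∈ A, n ≤ l a) → v ∉ A →
      (mod_CH g zf A)^[n] v = x := by
    intro A n
    induction n with
    | zero =>
      intro v hv h1 h2 h3
      exact hl0 v hv h1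
    | succ n ih =>
      intro v hv h1 h2 h3
      have hvx : v ≠ x := by
        rintro rfl
        omega
      obtain ⟨g1, g2, g3⟩ := hg v hv hvx
      rw [Function.iterate_succ_apply]
      have e1 : mod_CH g zf A v = g v := by simp only [mod_CH, if_neg h3]
      rw [e1]
      refine ih (g v) g1 (by omega) (fun a ha => by have := h2 a ha; omega) ?_
      intro hmem
      have := h2 _ hmem
      omega
  -- one step
  have hstep : ∀ A ⊆ Y, ∀ y ∈ A, (∀ a ∈ A, l y ≤ l a) →
      lam (B.erase x) x (mod_CH g zf (A.erase y)) < lam (B.erase x) x (mod_CH g zf A) := by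
    intro A hA y hyA hmin
    have hyY := hA hyA
    obtain ⟨z1, z2, z3, z4⟩ := hzf y hyY
    have hA' : A.erase y ⊆ Y := fun a ha => hA (Finset.mem_of_mem_erase ha)
    have heq : mod_CH g zf A = Function.update (mod_CH g zf (A.erase y)) y (zf y) := by
      funext v
      by_cases hvy : v = y
      · subst hvy
        rw [Function.update_self]
        simp only [mod_CH, if_pos hyA]
      · rw [Function.update_of_ne hvy]
        simp only [mod_CH, Finset.mem_erase, ne_eq, hvy, not_false_iff, true_and]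
    have h1 : tm x (mod_CH g zf (A.erase y)) y ≤ l y := by
      refine Nat.sInf_le ?_
      exact hup (A.erase y) (l y) y (hYB y hyY) rfl
        (fun a ha => hmin a (Finset.mem_of_mem_erase ha)) (Finset.notMem_erase y A)
    have h2 := hlow (A.erase y) hA' (zf y) z1
    rw [heq]
    refine lam_update_lt (B.erase x) x (Finset.notMem_erase x B) _ (hgood _ hA') y (zf y)
      (Finset.mem_erase.2 ⟨hxY y hyY, hYB y hyY⟩) (Or.inl (Finset.mem_erase.2 ⟨hzx y hyY, z1⟩)) ?_ ?_
    · rw [← heq]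
      exact hgood A hA
    · omega
  -- the chain of sets
  have hsets : ∀ n : ℕ, ∀ A ⊆ Y, A.card = n → ∃ F : ℕ → Finset V, (∀ s, F s ⊆ Y) ∧ F n = A ∧
      ∀ s < n, lam (B.erase x) x (mod_CH g zf (F s)) < lam (B.erase x) x (mod_CH g zf (F (s + 1))) := by
    intro n
    induction n with
    | zero =>
      intro A hA hc
      exact ⟨fun _ => A, fun _ => hA, rfl, fun s hs => absurd hs (Nat.not_lt_zero _)⟩
    | succ n ih =>
      intro A hA hc
      have hne : A.Nonempty := by
        rw [← Finset.card_pos]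
        omega
      obtain ⟨y, hyA, hmin⟩ := Finset.exists_min_image A l hne
      have hA' : A.erase y ⊆ Y := fun a ha => hA (Finset.mem_of_mem_erase ha)
      obtain ⟨F, hF1, hF2, hF3⟩ := ih (A.erase y) hA' (by rw [Finset.card_erase_of_mem hyA]; omega)
      refine ⟨fun s => if s ≤ n then F s else A, ?_, ?_, ?_⟩
      · intro s
        dsimp only
        split_ifs
        · exact hF1 s
        · exact hA
      · dsimp only
        rw [if_neg (by omega)]
      · intro s hs
        dsimp only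
        rw [if_pos (by omega)]
        by_cases hsn : s < n
        · rw [if_pos (by omega)]
          exact hF3 s hsn
        · have : s = n := by omega
          subst this
          rw [if_neg (by omega), hF2]
          exact hstep A hA y hyA hmin
  obtain ⟨F, hF1, -, hF3⟩ := hsets Y.card Y (Finset.Subset.refl _) rfl
  exact ⟨fun s => mod_CH g zf (F s), fun s _ => ⟨hadj _ (hF1 s), hgood _ (hF1 s)⟩, hF3⟩

end Pool.Agent.H142.NT
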