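import Pool.Agent.H142.NT.Defs2
import Pool.Agent.H142.NT.B0a
import Pool.Agent.H142.NT.B0b

set_option autoImplicit false

open Finset Classical

namespace Pool.Agent.H142.NT

variable {V : Type} [Fintype V]

theorem card_top_aux_CT {G : SimpleGraph V} {r : V} {p : V → V} (h : IsPar G r p) (d : ℕ)
    (hd2 : 2 ≤ d) (hd : ∀ v, (nbr G v).card ≤ d) (K : ℕ) :
    ∀ x : V, ((desc r p x).filter (fun v => dep r p v - dep r p x + 1 < K)).card + 1 ≤ d ^ K := by
  induction K with
  | zero => intro x; simp
  | succ K ih =>
    intro x
    have hsub : (desc r p x).filter (fun v => dep r p v - dep r p x + 1 < K + 1) ⊆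
        insert x ((kids r p x).biUnion (fun c =>
          (desc r p c).filter (fun v => dep r p v - dep r p c + 1 < K))) := by
      intro v hv
      rw [Finset.mem_filter] at hv
      obtain ⟨hv1, hv2⟩ := hv
      rw [desc_eq h x, Finset.mem_insert] at hv1
      rw [Finset.mem_insert]
      rcases hv1 with hv1 | hv1
      · exact Or.inl hv1
      · right
        rw [Finset.mem_biUnion] at hv1 ⊢
        obtain ⟨c, hc, hvc⟩ := hv1
        refine ⟨c, hc, ?_⟩
        rw [Finset.mem_filter]
        refine ⟨hvc, ?_⟩
        have h1 := dep_kid h hc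
        have h2 := (dep_le_of_desc h hvc).1
        omega
    have hk : (kids r p x).card ≤ d := le_trans (Finset.card_le_card (kids_sub h x)) (hd x)
    have h1 := Finset.card_le_card hsub
    have h2 := Finset.card_insert_le x ((kids r p x).biUnion (fun c =>
          (desc r p c).filter (fun v => dep r p v - dep r p c + 1 < K)))
    have h3 : ((kids r p x).biUnion (fun c =>
          (desc r p c).filter (fun v => dep r p v - dep r p c + 1 < K))).card ≤
          (kids r p x).card * (d ^ K - 1) := by
      apply Finset.card_biUnion_le_card_mul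
      intro c _
      have := ih c
      omega
    have h4 : (kids r p x).card * (d ^ K - 1) ≤ d * (d ^ K - 1) := Nat.mul_le_mul_right _ hk
    have h5 : 1 ≤ d ^ K := Nat.one_le_pow _ _ (by omega)
    have h6 : d * (d ^ K - 1) + d = d ^ (K + 1) := by
      obtain ⟨m, hm⟩ : ∃ m, d ^ K = m + 1 := ⟨d ^ K - 1, by omega⟩
      rw [pow_succ, hm]
      simp only [Nat.add_sub_cancel]
      ring
    omega

/-- number of the descendants of small relative depth -/
theorem card_top {G : SimpleGraph V} {r : V} {p : V → V} (h : IsPar G r p) (d K : ℕ)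
    (hd2 : 2 ≤ d) (hd : ∀ v, (nbr G v).card ≤ d) (x : V) :
    ((desc r p x).filter (fun v => dep r p v - dep r p x + 1 < K)).card ≤ d ^ K := by
  have := card_top_aux_CT h d hd2 hd K x
  omega

end Pool.Agent.H142.NT
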