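import Mathlib

/-!
# Unlabelled spanning trees: rooted trees given by parent functions, codes

`IsPar G r p`: `p` is the parent function of a spanning tree of `G` rooted at `r`.
-/

set_option autoImplicit false

open Finset Classical

namespace Pool.Agent.H142.NT

/-- the set of the spanning trees of `G` -/
def STree {V : Type} (G : SimpleGraph V) : Type := {T : SimpleGraph V // T ≤ G ∧ T.IsTree}

/-- isomorphism (as abstract graphs) of spanning trees -/
def isoRel {V : Type} (G : SimpleGraph V) : Setoid (STree G) where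
  r T T' := Nonempty (T.1 ≃g T'.1)
  iseqv := ⟨fun _ => ⟨SimpleGraph.Iso.refl⟩, fun ⟨f⟩ => ⟨f.symm⟩, fun ⟨f⟩ ⟨g⟩ => ⟨f.trans g⟩⟩

/-- the number of isomorphism classes of spanning trees of `G` -/
noncomputable def numUnlabeled {V : Type} (G : SimpleGraph V) : ℕ := Nat.card (Quotient (isoRel G))

variable {V : Type} [Fintype V]

/-- neighbours -/
noncomputable def nbr (G : SimpleGraph V) (v : V) : Finset V := univ.filter (fun w => G.Adj v w)

/-- `p` is the parent function of a spanning tree of `G` with root `r` -/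
structure IsPar (G : SimpleGraph V) (r : V) (p : V → V) : Prop where
  root : p r = r
  adj : ∀ v, v ≠ r → G.Adj v (p v)
  reach : ∀ v, ∃ k, p^[k] v = r

/-- the graph with the edges `{v, p v}`, `v ≠ r` -/
def pgraph (r : V) (p : V → V) : SimpleGraph V := SimpleGraph.fromRel (fun u v => u ≠ r ∧ p u = v)

/-- depth -/
noncomputable def dep (r : V) (p : V → V) (v : V) : ℕ := sInf {k | p^[k] v = r}

/-- children -/
noncomputable def kids (r : V) (p : V → V) (v : V) : Finset V := univ.filter (fun u => u ≠ r ∧ p u = v)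

/-- descendants (with `v` itself) -/
noncomputable def desc (r : V) (p : V → V) (v : V) : Finset V :=
  univ.filter (fun u => ∃ k, k ≤ dep r p u ∧ p^[k] u = v)

/-- the weight `∑ 2 ^ (distance to v)` over the descendants of `v` -/
noncomputable def psi (r : V) (p : V → V) (v : V) : ℕ :=
  ∑ u ∈ desc r p v, 2 ^ (dep r p u - dep r p v)

/-- code of the branch at `v` seen from `u`, to depth `k` -/
noncomputable def cdg (T : SimpleGraph V) : ℕ → V → V → ℕ
  | 0, _, _ => 0
  | k + 1, u, v => Encodable.encode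
      ((univ.filter (fun w => T.Adj v w ∧ w ≠ u)).val.map (fun w => cdg T k v w) : Multiset ℕ)

/-- code of the graph seen from `a`, to depth `k + 1` -/
noncomputable def cdr (T : SimpleGraph V) (k : ℕ) (a : V) : ℕ :=
  Encodable.encode ((univ.filter (fun w => T.Adj a w)).val.map (fun w => cdg T k a w) : Multiset ℕ)

/-- code of the rooted tree hanging at `v`, to depth `k` -/
noncomputable def pc (r : V) (p : V → V) : ℕ → V → ℕ
  | 0, _ => 0
  | k + 1, v => Encodable.encode ((kids r p v).val.map (pc r p k) : Multiset ℕ)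

/-- the weight `psi` read off from the code -/
noncomputable def decF : ℕ → ℕ → ℕ
  | 0, _ => 0
  | k + 1, c => 1 + 2 * (((Encodable.decode c : Option (Multiset ℕ)).getD 0).map (decF k)).sum

/-! ### Local modifications -/

/-- `p` modified on the sets `Q x`, `x ∈ I`: there it is `f x (S x)` -/
noncomputable def asm (p : V → V) (I : Finset V) (Q : V → Finset V) (f : V → ℕ → V → V)
    (S : V → ℕ) (v : V) : V :=
  if h : ∃ x ∈ I, v ∈ Q x then f h.choose (S h.choose) v else p v

/-- a system of local modifications of the rooted spanning tree `p`: for `x ∈ I` the interior `Q x`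
(all its vertices hang below `x`), the receiver `u x`, and for `s < K` the local parent function
`f x s` on `Q x`; following it from a vertex of `Q x` one leaves `Q x` at `x` or at `u x`. -/
structure Sys (G : SimpleGraph V) (r : V) (p : V → V) (I : Finset V) (Q : V → Finset V)
    (u : V → V) (K : ℕ) (f : V → ℕ → V → V) : Prop where
  par : IsPar G r p
  disj : ∀ x ∈ I, ∀ y ∈ I, x ≠ y → Disjoint (Q x) (Q y)
  root : ∀ x ∈ I, r ∉ Q x
  base : ∀ x ∈ I, ∀ y ∈ I, x ∉ Q y
  closed : ∀ v, (∀ x ∈ I, v ∉ Q x) → ∀ x ∈ I, p v ∉ Q x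
  adj : ∀ x ∈ I, ∀ s < K, ∀ v ∈ Q x, G.Adj v (f x s v)
  maps : ∀ x ∈ I, ∀ s < K, ∀ v ∈ Q x, f x s v ∈ Q x ∨ f x s v = x ∨
    (f x s v = u x ∧ ∀ y ∈ I, u x ∉ Q y ∧ u x ≠ y)
  exit : ∀ x ∈ I, ∀ s < K, ∀ v ∈ Q x, ∃ k, (f x s)^[k] v ∉ Q x

/-- the vertices of `Q` from which iterating `g` leads to `x` inside `Q` -/
noncomputable def hit (Q : Finset V) (x : V) (g : V → V) : Finset V :=
  Q.filter (fun v => ∃ k, g^[k] v = x ∧ ∀ j < k, g^[j] v ∈ Q)

/-- the weight of the part of `Q` hanging at `x` -/
noncomputable def lam (Q : Finset V) (x : V) (g : V → V) : ℕ :=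
  ∑ v ∈ hit Q x g, 2 ^ (sInf {k | g^[k] v = x})

/-- extension of a configuration by zero -/
noncomputable def ext {I : Finset V} {K : ℕ} (S : I → Fin K) (v : V) : ℕ :=
  if h : v ∈ I then (S ⟨v, h⟩).val else 0

end Pool.Agent.H142.NT
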