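import Pool.Agent.H142.NT.Defs

set_option autoImplicit false

open Finset Classical

namespace Pool.Agent.H142.NT

variable {V : Type} [Fintype V]

/-- vertices at distance at least three -/
def Sep (G : SimpleGraph V) (Y : Finset V) : Prop :=
  ∀ y ∈ Y, ∀ y' ∈ Y, y ≠ y' → ¬ G.Adj y y' ∧ ∀ w, ¬ (G.Adj y w ∧ G.Adj y' w)

/-- iterating `g` from any vertex of `Q` one reaches `x` inside `Q` -/
def LGood (Q : Finset V) (x : V) (g : V → V) : Prop :=
  ∀ v ∈ Q, ∃ k, g^[k] v = x ∧ ∀ j < k, g^[j] v ∈ Q

/-- local depth -/
noncomputable def tm (x : V) (g : V → V) (v : V) : ℕ := sInf {k | g^[k] v = x}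

/-- the vertices with at least `M` descendants -/
noncomputable def heavy (r : V) (p : V → V) (M : ℕ) : Finset V :=
  univ.filter (fun v => M ≤ (desc r p v).card)

/-- heavy vertices without heavy children -/
noncomputable def minH (r : V) (p : V → V) (M : ℕ) : Finset V :=
  (heavy r p M).filter (fun v => ∀ c ∈ kids r p v, c ∉ heavy r p M)

/-- `v` and its light descendants which are reached through light vertices only -/
noncomputable def tau (r : V) (p : V → V) (M : ℕ) (v : V) : Finset V :=
  (desc r p v).filter (fun u => ∀ w ∈ desc r p v, u ∈ desc r p w → w ≠ v → w ∉ heavy r p M)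

end Pool.Agent.H142.NT
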