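import Pool.Agent.H142.NT.Defs2
import Pool.Agent.H142.NT.B0a
import Pool.Agent.H142.NT.B0b

set_option autoImplicit false

open Finset Classical

namespace Pool.Agent.H142.NT

variable {V : Type} [Fintype V]

theorem mem_desc_LE (r : V) (p : V → V) (v u : V) :
    u ∈ desc r p v ↔ ∃ k, k ≤ dep r p u ∧ p^[k] u = v := by
  simp [desc]

/-- the modified parent function -/
noncomputable def fm_LE (r : V) (p : V → V) (v u : V) (s : ℕ) (w : V) : V :=
  if w = p^[dep r p v - dep r p w] v ∧ dep r p v - dep r p w < s then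
    (if dep r p v - dep r p w = 0 then u else p^[dep r p v - dep r p w - 1] v)
  else p w

theorem fm_zero_LE (r : V) (p : V → V) (v u w : V) (s : ℕ) (hs : 0 < s) (hw : w = v) :
    fm_LE r p v u s w = u := by
  subst hw
  unfold fm_LE
  simp [hs]

theorem fm_path_LE {G : SimpleGraph V} {r : V} {p : V → V} (h : IsPar G r p) (v u : V) (s t : ℕ)
    (ht : t + 1 < s) (htv : t + 1 ≤ dep r p v) :
    fm_LE r p v u s (p^[t + 1] v) = p^[t] v := by
  have h1 := dep_iter h v (t + 1) htv
  have h2 : dep r p v - dep r p (p^[t + 1] v) = t + 1 := by omega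
  unfold fm_LE
  rw [h2]
  simp [ht]

theorem fm_cases_LE {G : SimpleGraph V} {r : V} {p : V → V} (h : IsPar G r p) (v u : V) (s : ℕ)
    (w : V) : (∃ t < s, t ≤ dep r p v ∧ w = p^[t] v) ∨
      (fm_LE r p v u s w = p w ∧ ∀ t < s, t ≤ dep r p v → w ≠ p^[t] v) := by
  by_cases h1 : ∃ t < s, t ≤ dep r p v ∧ w = p^[t] v
  · exact Or.inl h1
  · right
    push Not at h1
    refine ⟨?_, h1⟩
    unfold fm_LE
    rw [if_neg]
    rintro ⟨h2, h3⟩
    exact h1 _ h3 (Nat.sub_le _ _) h2

theorem path_desc_LE {G : SimpleGraph V} {r : V} {p : V → V} (h : IsPar G r p) (v : V) (t t' : ℕ)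
    (htt : t ≤ t') (ht' : t' ≤ dep r p v) : p^[t] v ∈ desc r p (p^[t'] v) := by
  rw [mem_desc_LE]
  have h1 := dep_iter h v t (htt.trans ht')
  refine ⟨t' - t, by omega, ?_⟩
  rw [← Function.iterate_add_apply]
  congr 2
  omega

/-- the part cut off -/
noncomputable def cut_LE (r : V) (p : V → V) (v : V) (s : ℕ) : Finset V :=
  if s = 0 then ∅ else desc r p (p^[s - 1] v)

section
variable {G : SimpleGraph V} {r : V} {p : V → V}

theorem step_LE (h : IsPar G r p) (x v u : V)
    (hv : v ∈ desc r p x) (hvu : G.Adj v u) (s : ℕ)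
    (hs : s ≤ dep r p v - dep r p x) (w : V) (hw : w ∈ (desc r p x).erase x) :
    G.Adj w (fm_LE r p v u s w) ∧ (fm_LE r p v u s w ∈ desc r p x ∨ fm_LE r p v u s w = u) := by
  obtain ⟨hd, hx⟩ := dep_le_of_desc h hv
  have hw1 := (mem_erase.1 hw).1
  have hw2 := (mem_erase.1 hw).2
  rcases fm_cases_LE h v u s w with ⟨t, ht, htv, rfl⟩ | ⟨h1, _⟩
  · rcases t with _ | t
    · have := fm_zero_LE r p v u (p^[0] v) s ht rfl
      rw [this]
      exact ⟨hvu, Or.inr rfl⟩
    · rw [fm_path_LE h v u s t ht htv]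
      refine ⟨?_, Or.inl ?_⟩
      · rw [Function.iterate_succ_apply']
        exact (h.adj _ (iter_ne h v t (by omega))).symm
      · have := path_desc_LE h v t (dep r p v - dep r p x) (by omega) (by omega)
        rw [hx] at this
        exact this
  · rw [h1]
    obtain ⟨h2, h3⟩ := par_mem_desc h hw2 hw1
    exact ⟨h.adj w h2, Or.inl h3⟩

theorem exit_path_LE (h : IsPar G r p) (x v u : V)
    (hu : u ∉ desc r p x) (s : ℕ) (t : ℕ) (ht : t < s) (htv : t ≤ dep r p v) :
    ∃ k, (fm_LE r p v u s)^[k] (p^[t] v) ∉ (desc r p x).erase x := by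
  induction t with
  | zero =>
    refine ⟨1, ?_⟩
    have := fm_zero_LE r p v u (p^[0] v) s ht rfl
    rw [Function.iterate_one, this]
    exact fun hh => hu (mem_erase.1 hh).2
  | succ t ih =>
    obtain ⟨k, hk⟩ := ih (by omega) (by omega)
    refine ⟨k + 1, ?_⟩
    rw [Function.iterate_succ_apply, fm_path_LE h v u s t ht htv]
    exact hk

theorem exit_LE (h : IsPar G r p) (x v u : V)
    (hu : u ∉ desc r p x) (s : ℕ) (n : ℕ) :
    ∀ w, dep r p w ≤ n → ∃ k, (fm_LE r p v u s)^[k] w ∉ (desc r p x).erase x := by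
  induction n with
  | zero =>
    intro w hw
    by_cases hwQ : w ∈ (desc r p x).erase x
    · exfalso
      have h1 := (mem_erase.1 hwQ).1
      have h2 := (mem_erase.1 hwQ).2
      have h3 : w = r := (dep_eq_zero h w).1 (by omega)
      exact (par_mem_desc h h2 h1).1 h3
    · exact ⟨0, hwQ⟩
  | succ n ih =>
    intro w hw
    by_cases hwQ : w ∈ (desc r p x).erase x
    · rcases fm_cases_LE h v u s w with ⟨t, ht, htv, rfl⟩ | ⟨h1, _⟩
      · exact exit_path_LE h x v u hu s t ht htv
      · have h2 := (mem_erase.1 hwQ).1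
        have h3 := (mem_erase.1 hwQ).2
        have h4 := dep_par h w (par_mem_desc h h3 h2).1
        obtain ⟨k, hk⟩ := ih (p w) (by omega)
        refine ⟨k + 1, ?_⟩
        rw [Function.iterate_succ_apply, h1]
        exact hk
    · exact ⟨0, hwQ⟩

theorem nohit_LE (h : IsPar G r p) (x v u : V)
    (hv : v ∈ desc r p x) (hu : u ∉ desc r p x) (s : ℕ) (hs0 : 0 < s)
    (hs : s ≤ dep r p v - dep r p x) (k : ℕ) :
    ∀ w ∈ desc r p (p^[s - 1] v), (fm_LE r p v u s)^[k] w = x →
      (∀ j < k, (fm_LE r p v u s)^[j] w ∈ (desc r p x).erase x) → False := by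
  obtain ⟨hd, hx⟩ := dep_le_of_desc h hv
  induction k with
  | zero =>
    intro w hw h1 _
    simp only [Function.iterate_zero, id] at h1
    subst h1
    have h2 := (dep_le_of_desc h hw).1
    have h3 := dep_iter h v (s - 1) (by omega)
    omega
  | succ k ih =>
    intro w hw h1 h2
    have hstep : ∀ w' ∈ desc r p (p^[s - 1] v), fm_LE r p v u s w = w' → False := by
      intro w' hw' he
      apply ih w' hw'
      · rw [← he, ← Function.iterate_succ_apply]
        exact h1
      · intro j hj
        have := h2 (j + 1) (by omega)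
        rw [Function.iterate_succ_apply, he] at this
        exact this
    rcases fm_cases_LE h v u s w with ⟨t, ht, htv, rfl⟩ | ⟨h3, h4⟩
    · rcases t with _ | t
      · have h5 := fm_zero_LE r p v u (p^[0] v) s ht rfl
        rcases Nat.eq_zero_or_pos k with hk | hk
        · subst hk
          rw [Function.iterate_one, h5] at h1
          apply hu
          rw [h1]
          exact self_mem_desc r p x
        · have := h2 1 (by omega)
          rw [Function.iterate_one, h5] at this
          exact hu (mem_erase.1 this).2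
      · exact hstep _ (path_desc_LE h v t (s - 1) (by omega) (by omega))
          (fm_path_LE h v u s t ht htv)
    · have h5 : w ≠ p^[s - 1] v := h4 (s - 1) (by omega) (by omega)
      exact hstep _ (par_mem_desc h hw h5).2 h3

theorem iter_eq_LE (h : IsPar G r p) (x v u : V)
    (hv : v ∈ desc r p x) (s : ℕ)
    (hs : s ≤ dep r p v - dep r p x) (w : V) (hw : w ∈ desc r p x) (hwc : w ∉ cut_LE r p v s)
    (j : ℕ) (hj : j ≤ dep r p w - dep r p x) :
    (fm_LE r p v u s)^[j] w = p^[j] w := by
  obtain ⟨hd, hx⟩ := dep_le_of_desc h hv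
  induction j with
  | zero => rfl
  | succ j ih =>
    rw [Function.iterate_succ_apply', ih (by omega), Function.iterate_succ_apply']
    rcases fm_cases_LE h v u s (p^[j] w) with ⟨t, ht, htv, h1⟩ | ⟨h3, _⟩
    · exfalso
      apply hwc
      unfold cut_LE
      rw [if_neg (by omega)]
      have h2 : p^[t] v ∈ desc r p (p^[s - 1] v) := path_desc_LE h v t (s - 1) (by omega) (by omega)
      rw [← h1] at h2
      apply desc_trans h h2
      rw [mem_desc_LE]
      exact ⟨j, by omega, rfl⟩
    · exact h3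

theorem hit_eq_LE (h : IsPar G r p) (x v u : V)
    (hv : v ∈ desc r p x) (hu : u ∉ desc r p x) (s : ℕ)
    (hs : s ≤ dep r p v - dep r p x) :
    hit ((desc r p x).erase x) x (fm_LE r p v u s) = (desc r p x).erase x \ cut_LE r p v s := by
  ext w
  unfold hit
  rw [mem_filter, mem_sdiff]
  apply and_congr_right
  intro hw
  have hw1 := (mem_erase.1 hw).1
  have hw2 := (mem_erase.1 hw).2
  obtain ⟨hd, hx⟩ := dep_le_of_desc h hw2
  constructor
  · rintro ⟨k, h1, h2⟩ hc
    unfold cut_LE at hc
    split_ifs at hc with h0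
    · simp at hc
    · exact nohit_LE h x v u hv hu s (by omega) hs k w hc h1 h2
  · intro hc
    refine ⟨dep r p w - dep r p x, ?_, ?_⟩
    · rw [iter_eq_LE h x v u hv s hs w hw2 hc _ le_rfl]
      exact hx
    · intro j hj
      rw [iter_eq_LE h x v u hv s hs w hw2 hc _ hj.le]
      have h3 := path_desc_LE h w j (dep r p w - dep r p x) hj.le (by omega)
      rw [hx] at h3
      refine mem_erase.2 ⟨?_, h3⟩
      intro h4
      have h5 := dep_iter h w j (by omega)
      rw [h4] at h5
      omega

theorem time_LE (h : IsPar G r p) (x v u : V)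
    (hv : v ∈ desc r p x) (s : ℕ)
    (hs : s ≤ dep r p v - dep r p x) (w : V) (hw : w ∈ desc r p x) (hwc : w ∉ cut_LE r p v s) :
    sInf {k | (fm_LE r p v u s)^[k] w = x} = dep r p w - dep r p x := by
  obtain ⟨hd, hx⟩ := dep_le_of_desc h hw
  have hmem : dep r p w - dep r p x ∈ {k | (fm_LE r p v u s)^[k] w = x} := by
    rw [Set.mem_setOf_eq, iter_eq_LE h x v u hv s hs w hw hwc _ le_rfl]
    exact hx
  apply le_antisymm (Nat.sInf_le hmem)
  have h1 := Nat.sInf_mem ⟨_, hmem⟩
  by_contra hlt
  push Not at hlt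
  rw [Set.mem_setOf_eq, iter_eq_LE h x v u hv s hs w hw hwc _ hlt.le] at h1
  have h2 := dep_iter h w _ (show sInf {k | (fm_LE r p v u s)^[k] w = x} ≤ dep r p w by omega)
  rw [h1] at h2
  omega

theorem lam_eq_LE (h : IsPar G r p) (x v u : V)
    (hv : v ∈ desc r p x) (hu : u ∉ desc r p x) (s : ℕ)
    (hs : s ≤ dep r p v - dep r p x) :
    lam ((desc r p x).erase x) x (fm_LE r p v u s) =
      ∑ w ∈ (desc r p x).erase x \ cut_LE r p v s, 2 ^ (dep r p w - dep r p x) := by
  unfold lam
  rw [hit_eq_LE h x v u hv hu s hs]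
  apply sum_congr rfl
  intro w hw
  rw [mem_sdiff, mem_erase] at hw
  rw [time_LE h x v u hv s hs w hw.1.2 hw.2]

theorem lam_lt_LE (h : IsPar G r p) (x v u : V)
    (hv : v ∈ desc r p x) (hu : u ∉ desc r p x) (s s' : ℕ) (hss : s < s')
    (hs : s' ≤ dep r p v - dep r p x) :
    lam ((desc r p x).erase x) x (fm_LE r p v u s') <
      lam ((desc r p x).erase x) x (fm_LE r p v u s) := by
  rw [lam_eq_LE h x v u hv hu s (by omega), lam_eq_LE h x v u hv hu s' hs]
  obtain ⟨hd, hx⟩ := dep_le_of_desc h hv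
  have hs1 : p^[s] v ∈ desc r p (p^[s' - 1] v) := path_desc_LE h v s (s' - 1) (by omega) (by omega)
  have hs2 : p^[s] v ∉ cut_LE r p v s := by
    unfold cut_LE
    split_ifs with h0
    · simp
    · intro h1
      have h2 := (dep_le_of_desc h h1).1
      have h3 := dep_iter h v (s - 1) (by omega)
      have h4 := dep_iter h v s (by omega)
      omega
  have hs3 : p^[s] v ∈ (desc r p x).erase x := by
    have h3 := path_desc_LE h v s (dep r p v - dep r p x) (by omega) (by omega)
    rw [hx] at h3
    refine mem_erase.2 ⟨?_, h3⟩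
    intro h4
    have h5 := dep_iter h v s (by omega)
    rw [h4] at h5
    omega
  have hcut : cut_LE r p v s ⊆ cut_LE r p v s' := by
    intro w hw
    unfold cut_LE at hw ⊢
    rw [if_neg (by omega : s' ≠ 0)]
    split_ifs at hw with h0
    · simp at hw
    · exact desc_trans h (path_desc_LE h v (s - 1) (s' - 1) (by omega) (by omega)) hw
  apply sum_lt_sum_of_subset (i := p^[s] v)
  · exact sdiff_subset_sdiff (subset_refl _) hcut
  · exact mem_sdiff.2 ⟨hs3, hs2⟩
  · intro h1
    apply (mem_sdiff.1 h1).2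
    unfold cut_LE
    rw [if_neg (by omega : s' ≠ 0)]
    exact hs1
  · positivity
  · intro j _ _
    positivity

end

/-- modifications using one edge `v u` leaving the subtree: the path from `v` up to `x` is cut at
different places and the lower part is hung at `u` -/
theorem local_ext {G : SimpleGraph V} {r : V} {p : V → V} (h : IsPar G r p) (x v u : V) (K : ℕ)
    (hv : v ∈ desc r p x) (hu : u ∉ desc r p x) (hvu : G.Adj v u)
    (hK : K ≤ dep r p v - dep r p x + 1) :
    ∃ f : ℕ → V → V, (∀ s < K, ∀ w ∈ (desc r p x).erase x, G.Adj w (f s w) ∧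
        (f s w ∈ desc r p x ∨ f s w = u) ∧ ∃ k, (f s)^[k] w ∉ (desc r p x).erase x) ∧
      ∀ s < K, ∀ s' < K, lam ((desc r p x).erase x) x (f s) = lam ((desc r p x).erase x) x (f s') →
        s = s' := by
  refine ⟨fm_LE r p v u, ?_, ?_⟩
  · intro s hs w hw
    have h1 := step_LE h x v u hv hvu s (by omega) w hw
    exact ⟨h1.1, h1.2, exit_LE h x v u hu s _ w le_rfl⟩
  · intro s hs s' hs' he
    rcases Nat.lt_trichotomy s s' with h1 | h1 | h1
    · have := lam_lt_LE h x v u hv hu s s' h1 (by omega)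
      omega
    · exact h1
    · have := lam_lt_LE h x v u hv hu s' s h1 (by omega)
      omega

end Pool.Agent.H142.NT
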