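import Pool.Agent.H142.NT.Defs2
import Pool.Agent.H142.NT.B0a

set_option autoImplicit false

open Finset Classical

namespace Pool.Agent.H142.NT

variable {V : Type} [Fintype V]

/-- the ordered pairs of adjacent vertices of `B` -/
noncomputable def prs_RC (G : SimpleGraph V) (B : Finset V) : Finset (V × V) :=
  (B ×ˢ B).filter (fun p => G.Adj p.1 p.2)

theorem lower_RC (G : SimpleGraph V) (h3 : ∀ v, 3 ≤ (nbr G v).card) (B : Finset V) :
    3 * B.card ≤ 3 * (B.filter (fun v => ∃ w, G.Adj v w ∧ w ∉ B)).card + (prs_RC G B).card := by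
  have h1 : (B.filter (fun v => ∃ w, G.Adj v w ∧ w ∉ B)).card +
      (B.filter (fun v => ¬ ∃ w, G.Adj v w ∧ w ∉ B)).card = B.card :=
    Finset.card_filter_add_card_filter_not _
  have h2 : (B.filter (fun v => ¬ ∃ w, G.Adj v w ∧ w ∉ B)).card * 3 ≤ (prs_RC G B).card := by
    have h4 : ((B.filter (fun v => ¬ ∃ w, G.Adj v w ∧ w ∉ B)).biUnion
        (fun v => (nbr G v).image (fun z => (v, z)))).card ≤ (prs_RC G B).card := by
      refine Finset.card_le_card fun p hp => ?_
      rw [Finset.mem_biUnion] at hp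
      obtain ⟨v, hv, hp⟩ := hp
      rw [Finset.mem_image] at hp
      obtain ⟨z, hz, rfl⟩ := hp
      rw [Finset.mem_filter] at hv
      rw [mem_nbr] at hz
      have hzB : z ∈ B := by
        by_contra hn
        exact hv.2 ⟨z, hz, hn⟩
      simp only [prs_RC, Finset.mem_filter, Finset.mem_product]
      exact ⟨⟨hv.1, hzB⟩, hz⟩
    refine le_trans ?_ h4
    rw [Finset.card_biUnion]
    · rw [← smul_eq_mul]
      refine Finset.card_nsmul_le_sum _ _ _ fun v _ => ?_
      rw [Finset.card_image_of_injective _ (fun a b h => (Prod.mk.inj h).2)]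
      exact h3 v
    · intro a _ b _ hab
      rw [Function.onFun, Finset.disjoint_left]
      intro p hp1 hp2
      rw [Finset.mem_image] at hp1 hp2
      obtain ⟨_, _, rfl⟩ := hp1
      obtain ⟨_, _, h⟩ := hp2
      exact hab (Prod.mk.inj h).1.symm
  omega

theorem upper_RC (G : SimpleGraph V) (d : ℕ)
    (hd : ∀ v, (nbr G v).card ≤ d) (B : Finset V) (l : V → ℕ) (g : V → V) :
    (prs_RC G B).card ≤ 2 * B.card +
      2 * d * (B.filter (fun y => ∃ z ∈ B, G.Adj y z ∧ l y ≤ l z ∧ g z ≠ y)).card := by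
  obtain ⟨R, hR⟩ : ∃ R, R = B.filter (fun y => ∃ z ∈ B, G.Adj y z ∧ l y ≤ l z ∧ g z ≠ y) :=
    ⟨_, rfl⟩
  rw [← hR]
  have hsub : prs_RC G B ⊆ ((B.image (fun v => (v, g v))) ∪ (B.image (fun z => (g z, z)))) ∪
      ((R.biUnion (fun v => (nbr G v).image (fun z => (v, z)))) ∪
        (R.biUnion (fun z => (nbr G z).image (fun v => (v, z))))) := by
    rintro ⟨v, z⟩ hp
    simp only [prs_RC, Finset.mem_filter, Finset.mem_product] at hp
    obtain ⟨⟨hv, hz⟩, hadj⟩ := hp
    simp only [Finset.mem_union, Finset.mem_image, Finset.mem_biUnion, mem_nbr]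
    by_cases h1 : g v = z
    · left; left
      exact ⟨v, hv, by rw [h1]⟩
    by_cases h2 : g z = v
    · left; right
      exact ⟨z, hz, by rw [h2]⟩
    right
    by_cases h3 : l v ≤ l z
    · left
      refine ⟨v, ?_, z, hadj, rfl⟩
      rw [hR, Finset.mem_filter]
      exact ⟨hv, z, hz, hadj, h3, h2⟩
    · right
      refine ⟨z, ?_, v, hadj.symm, rfl⟩
      rw [hR, Finset.mem_filter]
      exact ⟨hz, v, hv, hadj.symm, by omega, h1⟩
  have c1 : (B.image (fun v => (v, g v))).card ≤ B.card := Finset.card_image_le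
  have c2 : (B.image (fun z => (g z, z))).card ≤ B.card := Finset.card_image_le
  have c3 : (R.biUnion (fun v => (nbr G v).image (fun z => (v, z)))).card ≤ R.card * d :=
    Finset.card_biUnion_le_card_mul _ _ _ fun v _ => Finset.card_image_le.trans (hd v)
  have c4 : (R.biUnion (fun z => (nbr G z).image (fun v => (v, z)))).card ≤ R.card * d :=
    Finset.card_biUnion_le_card_mul _ _ _ fun v _ => Finset.card_image_le.trans (hd v)
  have c5 := Finset.card_le_card hsub
  have c6 := Finset.card_union_le ((B.image (fun v => (v, g v))) ∪ (B.image (fun z => (g z, z))))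
    ((R.biUnion (fun v => (nbr G v).image (fun z => (v, z)))) ∪
        (R.biUnion (fun z => (nbr G z).image (fun v => (v, z)))))
  have c7 := Finset.card_union_le (B.image (fun v => (v, g v))) (B.image (fun z => (g z, z)))
  have c8 := Finset.card_union_le (R.biUnion (fun v => (nbr G v).image (fun z => (v, z))))
        (R.biUnion (fun z => (nbr G z).image (fun v => (v, z))))
  have c9 : 2 * d * R.card = R.card * d + R.card * d := by ring
  rw [c9]
  omega

theorem raisable_count (G : SimpleGraph V) (d : ℕ) (h3 : ∀ v, 3 ≤ (nbr G v).card)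
    (hd : ∀ v, (nbr G v).card ≤ d) (B : Finset V) (x : V) (hx : x ∈ B) (l : V → ℕ) (g : V → V)
    (hl0 : ∀ v ∈ B, l v = 0 → v = x) (hlx : l x = 0)
    (hg : ∀ v ∈ B, v ≠ x → g v ∈ B ∧ G.Adj v (g v) ∧ l (g v) + 1 = l v) :
    3 * B.card ≤ 3 * (B.filter (fun v => ∃ w, G.Adj v w ∧ w ∉ B)).card + 2 * B.card +
      2 * d * (B.filter (fun y => ∃ z ∈ B, G.Adj y z ∧ l y ≤ l z ∧ g z ≠ y)).card := by
  have h1 := lower_RC G h3 B
  have h2 := upper_RC G d hd B l g
  omega

end Pool.Agent.H142.NT
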