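import Pool.Agent.H142.NT.Defs2
import Pool.Agent.H142.NT.B0a
import Pool.Agent.H142.NT.B0b
import Pool.Agent.H142.NT.SEP
import Pool.Agent.H142.NT.BFS
import Pool.Agent.H142.NT.RC
import Pool.Agent.H142.NT.CH
import Pool.Agent.H142.NT.CT

set_option autoImplicit false

open Finset Classical

namespace Pool.Agent.H142.NT

variable {V : Type} [Fintype V]

theorem local_int {G : SimpleGraph V} {r : V} {p : V → V} (h : IsPar G r p) (d K : ℕ)
    (h3 : ∀ v, 3 ≤ (nbr G v).card) (hd : ∀ v, (nbr G v).card ≤ d) (x : V)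
    (hin : ∀ v ∈ desc r p x, K ≤ dep r p v - dep r p x + 1 → ∀ w, G.Adj v w → w ∈ desc r p x)
    (hbig : 3 * d ^ K + 2 * d * (1 + d + d ^ 2) * K ≤ (desc r p x).card) :
    ∃ f : ℕ → V → V, (∀ s < K, ∀ w ∈ (desc r p x).erase x, G.Adj w (f s w) ∧
        f s w ∈ desc r p x ∧ ∃ k, (f s)^[k] w ∉ (desc r p x).erase x) ∧
      ∀ s < K, ∀ s' < K, lam ((desc r p x).erase x) x (f s) = lam ((desc r p x).erase x) x (f s') →
        s = s' := by
  set B := desc r p x with hB
  have hx : x ∈ B := self_mem_desc r p x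
  have hd3 : 3 ≤ d := (h3 x).trans (hd x)
  obtain ⟨l, g, hlx, hl0, hg, hl⟩ := exists_bfs_local G B x hx p
    (fun v hv hne => by
      obtain ⟨h1, h2⟩ := par_mem_desc h hv hne
      exact ⟨h2, h.adj v h1⟩)
    (fun v hv => ⟨_, (dep_le_of_desc h hv).2⟩)
  have hN0 : (B.filter (fun v => ∃ w, G.Adj v w ∧ w ∉ B)).card ≤ d ^ K := by
    refine le_trans (Finset.card_le_card ?_) (card_top h d K (by omega) hd x)
    intro v hv
    rw [Finset.mem_filter] at hv ⊢
    refine ⟨hv.1, ?_⟩
    by_contra hcon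
    obtain ⟨w, hw1, hw2⟩ := hv.2
    exact hw2 (hin v hv.1 (by omega) w hw1)
  have hrc := raisable_count G d h3 hd B x hx l g hl0 hlx hg
  set R := B.filter (fun y => ∃ z ∈ B, G.Adj y z ∧ l y ≤ l z ∧ g z ≠ y) with hR
  obtain ⟨Y, hYR, hsep, hYc⟩ := exists_sep G d hd R
  have hKY : K ≤ Y.card := by
    have h1 : 2 * d * ((1 + d + d ^ 2) * K) ≤ 2 * d * R.card := by
      have : 2 * d * (1 + d + d ^ 2) * K = 2 * d * ((1 + d + d ^ 2) * K) := by ring
      omega
    have h2 : (1 + d + d ^ 2) * K ≤ R.card := Nat.le_of_mul_le_mul_left h1 (by omega)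
    have h3' : (1 + d + d ^ 2) * K ≤ (1 + d + d ^ 2) * Y.card := by
      calc (1 + d + d ^ 2) * K ≤ R.card := h2
        _ ≤ Y.card * (1 + d + d ^ 2) := hYc
        _ = (1 + d + d ^ 2) * Y.card := by ring
    exact Nat.le_of_mul_le_mul_left h3' (by omega)
  obtain ⟨F, hF1, hF2⟩ := chain G B x hx l g hl0 hlx hg hl Y
    (fun y hy => by
      have := hYR hy
      rw [hR, Finset.mem_filter] at this
      exact this) hsep
  have hmono : ∀ n s, s + n + 1 ≤ Y.card →
      lam (B.erase x) x (F s) < lam (B.erase x) x (F (s + n + 1)) := by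
    intro n
    induction n with
    | zero => intro s hs; exact hF2 s (by omega)
    | succ n ih =>
      intro s hs
      exact (ih s (by omega)).trans (hF2 (s + n + 1) (by omega))
  have hmono' : ∀ s s', s < s' → s' < K →
      lam (B.erase x) x (F s) < lam (B.erase x) x (F s') := by
    intro s s' hss hs'
    have := hmono (s' - s - 1) s (by omega)
    have he : s + (s' - s - 1) + 1 = s' := by omega
    rwa [he] at this
  refine ⟨F, ?_, ?_⟩
  · intro s hs w hw
    obtain ⟨h1, h2⟩ := hF1 s (by omega)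
    refine ⟨(h1 w hw).1, (h1 w hw).2, ?_⟩
    obtain ⟨k, hk, _⟩ := h2 w hw
    exact ⟨k, by rw [hk]; exact Finset.notMem_erase x B⟩
  · intro s hs s' hs' heq
    rcases lt_trichotomy s s' with hlt | heq' | hgt
    · exact absurd heq (hmono' s s' hlt hs').ne
    · exact heq'
    · exact absurd heq (hmono' s' s hgt hs).ne'

end Pool.Agent.H142.NT
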