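import Pool.Agent.H142.NT.Defs2
import Pool.Agent.H142.NT.B0b
import Pool.Agent.H142.NT.B0a
import Pool.Agent.H142.NT.LE
import Pool.Agent.H142.NT.LI

set_option autoImplicit false

open Finset Classical

namespace Pool.Agent.H142.NT

variable {V : Type} [Fintype V]

theorem exists_local {G : SimpleGraph V} {r : V} {p : V → V} (h : IsPar G r p) (d K : ℕ)
    (h3 : ∀ v, 3 ≤ (nbr G v).card) (hd : ∀ v, (nbr G v).card ≤ d) (x : V) (hx : x ≠ r)
    (hbig : 3 * d ^ K + 2 * d * (1 + d + d ^ 2) * K ≤ (desc r p x).card) :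
    ∃ (v u : V) (f : ℕ → V → V), v ∈ desc r p x ∧ u ∉ desc r p x ∧ G.Adj v u ∧
      (∀ s < K, ∀ w ∈ (desc r p x).erase x, G.Adj w (f s w) ∧
        (f s w ∈ desc r p x ∨ f s w = u) ∧ ∃ k, (f s)^[k] w ∉ (desc r p x).erase x) ∧
      ∀ s < K, ∀ s' < K, lam ((desc r p x).erase x) x (f s) = lam ((desc r p x).erase x) x (f s') →
        s = s' := by
  by_cases hex : ∃ v u, v ∈ desc r p x ∧ u ∉ desc r p x ∧ G.Adj v u ∧ K ≤ dep r p v - dep r p x + 1
  · obtain ⟨v, u, hv, hu, hvu, hK⟩ := hex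
    obtain ⟨f, hf1, hf2⟩ := local_ext h x v u K hv hu hvu hK
    exact ⟨v, u, f, hv, hu, hvu, hf1, hf2⟩
  · have hin : ∀ v ∈ desc r p x, K ≤ dep r p v - dep r p x + 1 → ∀ w, G.Adj v w → w ∈ desc r p x := by
      intro v hv hK w hvw
      by_contra hw
      exact hex ⟨v, w, hv, hw, hvw, hK⟩
    obtain ⟨f, hf1, hf2⟩ := local_int h d K h3 hd x hin hbig
    have hpx : p x ∉ desc r p x := by
      intro hmem
      have h1 := (dep_le_of_desc h hmem).1
      have h2 := dep_par h x hx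
      omega
    refine ⟨x, p x, f, self_mem_desc r p x, hpx, h.adj x hx, ?_, hf2⟩
    intro s hs w hw
    obtain ⟨a1, a2, a3⟩ := hf1 s hs w hw
    exact ⟨a1, Or.inl a2, a3⟩

end Pool.Agent.H142.NT

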