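import Pool.Agent.H142.NT.Defs2

set_option autoImplicit false

open Finset Classical

namespace Pool.Agent.H142.NT

variable {V : Type} [Fintype V]

theorem log_le_lin_FR (A : ℝ) (hA : 0 < A) : ∃ C : ℝ, 0 ≤ C ∧ ∀ x : ℝ, 0 < x →
    Real.log x ≤ x / (2 * A) + C := by
  refine ⟨max 0 (Real.log (2 * A)), le_max_left _ _, fun x hx => ?_⟩
  have h2A : 0 < 2 * A := by positivity
  have h1 : Real.log (x / (2 * A)) ≤ x / (2 * A) - 1 :=
    Real.log_le_sub_one_of_pos (div_pos hx h2A)
  rw [Real.log_div hx.ne' h2A.ne'] at h1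
  have h2 := le_max_right 0 (Real.log (2 * A))
  linarith

theorem final_real (A B : ℝ) (hA : 0 < A) (hB : 0 < B) : ∃ c : ℝ, 0 < c ∧ ∀ n U : ℕ, 1 ≤ n →
    2 ≤ U → (n : ℝ) ≤ A * Real.log ((n * U : ℕ) : ℝ) + B → Real.exp (c * n) ≤ U := by
  obtain ⟨C, hC, hlog⟩ := log_le_lin_FR A hA
  set D : ℝ := A * C + B with hD
  have hDpos : 0 < D := by positivity
  have hl2 : 0 < Real.log 2 := Real.log_pos (by norm_num)
  refine ⟨min (1 / (4 * A)) (Real.log 2 / (4 * D)), lt_min (by positivity) (by positivity), ?_⟩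
  intro n U hn hU h
  have hnpos : (0 : ℝ) < n := by exact_mod_cast hn
  have hUpos : (0 : ℝ) < U := by
    have : 0 < U := by omega
    exact_mod_cast this
  have hU2 : (2 : ℝ) ≤ U := by exact_mod_cast hU
  rw [Nat.cast_mul, Real.log_mul hnpos.ne' hUpos.ne'] at h
  have h3 := hlog n hnpos
  have h4 : A * Real.log n ≤ n / 2 + A * C := by
    have := mul_le_mul_of_nonneg_left h3 hA.le
    have e : A * ((n : ℝ) / (2 * A) + C) = n / 2 + A * C := by
      field_simp
    linarith
  have h5 : (n : ℝ) / 2 - D ≤ A * Real.log U := by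
    rw [hD]; linarith
  have hlogU : Real.log 2 ≤ Real.log U := Real.log_le_log (by norm_num) hU2
  rw [← Real.exp_log hUpos, Real.exp_le_exp]
  by_cases hc : 4 * D ≤ n
  · have h6 : (n : ℝ) / 4 ≤ A * Real.log U := by linarith
    calc min (1 / (4 * A)) (Real.log 2 / (4 * D)) * n ≤ 1 / (4 * A) * n :=
          mul_le_mul_of_nonneg_right (min_le_left _ _) hnpos.le
      _ = (n / 4) / A := by field_simp
      _ ≤ Real.log U := by
          rw [div_le_iff₀ hA]; linarith
  · push Not at hc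
    calc min (1 / (4 * A)) (Real.log 2 / (4 * D)) * n ≤ Real.log 2 / (4 * D) * n :=
          mul_le_mul_of_nonneg_right (min_le_right _ _) hnpos.le
      _ ≤ Real.log 2 / (4 * D) * (4 * D) :=
          mul_le_mul_of_nonneg_left hc.le (by positivity)
      _ = Real.log 2 := by field_simp
      _ ≤ Real.log U := hlogU

end Pool.Agent.H142.NT
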