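import Pool.Agent.H142.NT.Main

set_option autoImplicit false

open Finset Classical

namespace Pool.Agent.H142.NT

theorem lin_bound (a b e cW M C : ℕ) (ha : 1 ≤ a) (hb : 1 ≤ b) (he : 1 ≤ e) (hC : 1 ≤ C) :
    ∃ A B : ℝ, 0 < A ∧ 0 < B ∧ ∀ n N Lf w l i1 i2 : ℕ, 1 ≤ N → n ≤ a * Lf → Lf ≤ b * (w + i2 * e) →
      2 ^ i2 ≤ N * C ^ w → w ≤ cW * l → l ≤ 1 + i1 * e → 2 ^ i1 ≤ N →
      (n : ℝ) ≤ A * Real.log (N : ℝ) + B ∧ (M : ℝ) ≤ B := by
  have hl2 : 0 < Real.log 2 := Real.log_pos (by norm_num)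
  have haR : (1 : ℝ) ≤ a := by exact_mod_cast ha
  have hbR : (1 : ℝ) ≤ b := by exact_mod_cast hb
  have heR : (1 : ℝ) ≤ e := by exact_mod_cast he
  have hCR : (1 : ℝ) ≤ C := by exact_mod_cast hC
  have hlC : 0 ≤ Real.log C := Real.log_nonneg hCR
  set t : ℝ := 1 + e * Real.log C / Real.log 2 with ht
  have ht0 : 0 < t := by positivity
  refine ⟨a * b * (t * cW * (e / Real.log 2) + e / Real.log 2),
    a * b * (t * cW) + M + 1, by positivity, by positivity, ?_⟩
  intro n N Lf w l i1 i2 hN h1 h2 h3 h4 h5 h6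
  have hNR : (1 : ℝ) ≤ N := by exact_mod_cast hN
  set L := Real.log (N : ℝ) with hL
  have hL0 : 0 ≤ L := Real.log_nonneg hNR
  have h6' : (i1 : ℝ) * Real.log 2 ≤ L := by
    have : ((2 : ℝ) ^ i1) ≤ N := by exact_mod_cast h6
    have h7 := Real.log_le_log (by positivity) this
    rwa [Real.log_pow] at h7
  have h3' : (i2 : ℝ) * Real.log 2 ≤ L + w * Real.log C := by
    have : ((2 : ℝ) ^ i2) ≤ N * C ^ w := by exact_mod_cast h3
    have h7 := Real.log_le_log (by positivity) this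
    rwa [Real.log_pow, Real.log_mul (by positivity) (by positivity), Real.log_pow] at h7
  have h5' : (l : ℝ) ≤ 1 + i1 * e := by exact_mod_cast h5
  have h4' : (w : ℝ) ≤ cW * l := by exact_mod_cast h4
  have h2' : (Lf : ℝ) ≤ b * (w + i2 * e) := by exact_mod_cast h2
  have h1' : (n : ℝ) ≤ a * Lf := by exact_mod_cast h1
  have hi1 : (i1 : ℝ) ≤ L / Real.log 2 := by
    rw [le_div_iff₀ hl2]
    exact h6'
  have hi2 : (i2 : ℝ) ≤ (L + w * Real.log C) / Real.log 2 := by
    rw [le_div_iff₀ hl2]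
    exact h3'
  have hw : (w : ℝ) ≤ cW * (1 + (L / Real.log 2) * e) := by
    refine h4'.trans ?_
    apply mul_le_mul_of_nonneg_left _ (Nat.cast_nonneg _)
    refine h5'.trans ?_
    gcongr
  have hw0 : (0 : ℝ) ≤ w := Nat.cast_nonneg _
  have h7 : (w : ℝ) + i2 * e ≤ t * w + L * (e / Real.log 2) := by
    have h8 : (i2 : ℝ) * e ≤ ((L + w * Real.log C) / Real.log 2) * e := by gcongr
    have h9 : ((L + w * Real.log C) / Real.log 2) * e =
        L * (e / Real.log 2) + (e * Real.log C / Real.log 2) * w := by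
      field_simp
    rw [ht]
    nlinarith
  have h10 : t * w ≤ t * cW + t * cW * (e / Real.log 2) * L := by
    have : t * w ≤ t * (cW * (1 + (L / Real.log 2) * e)) := by gcongr
    refine this.trans (le_of_eq ?_)
    field_simp
  have h11 : (n : ℝ) ≤ a * (b * (w + i2 * e)) := by
    refine h1'.trans ?_
    gcongr
  have hM0 : (0 : ℝ) ≤ M := Nat.cast_nonneg _
  have hpos : 0 ≤ (a : ℝ) * b * (t * cW) := by positivity
  constructor
  · have h12 : (a : ℝ) * (b * (w + i2 * e)) ≤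
        a * b * (t * cW + t * cW * (e / Real.log 2) * L + L * (e / Real.log 2)) := by
      rw [← mul_assoc]
      exact mul_le_mul_of_nonneg_left (by linarith) (by positivity)
    have h13 : (a : ℝ) * b * (t * cW + t * cW * (e / Real.log 2) * L + L * (e / Real.log 2)) =
        a * b * (t * cW * (e / Real.log 2) + e / Real.log 2) * L + a * b * (t * cW) := by ring
    linarith
  · linarith

theorem main_bound' (d : ℕ) : ∃ c : ℝ, 0 < c ∧ ∀ (V : Type) [Fintype V] (G : SimpleGraph V),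
    G.Connected → (∀ v, 3 ≤ (nbr G v).card) → (∀ v, (nbr G v).card ≤ d) →
    Real.exp (c * Fintype.card V) ≤ numUnlabeled G := by
  by_cases hd3 : 3 ≤ d
  swap
  · refine ⟨1, one_pos, ?_⟩
    intro V _ G hG h3 hd
    obtain ⟨r⟩ := hG.nonempty
    exact absurd (le_trans (h3 r) (hd r)) hd3
  · obtain ⟨K, hK⟩ : ∃ K, K = 2 * (((d + 1) ^ d) ^ 2) := ⟨_, rfl⟩
    obtain ⟨M, hM⟩ : ∃ M, M = 3 * d ^ K + 2 * d * (1 + d + d ^ 2) * K := ⟨_, rfl⟩
    obtain ⟨b, hb⟩ : ∃ b, b = 1 + d * (M - 1) := ⟨_, rfl⟩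
    obtain ⟨X, hX⟩ : ∃ X, X = (1 + d) * b := ⟨_, rfl⟩
    obtain ⟨θ, hθ⟩ : ∃ θ, θ = X * 2 ^ X := ⟨_, rfl⟩
    have hM2 : 2 ≤ M := by
      have : 0 < d ^ K := pow_pos (by omega) K
      omega
    obtain ⟨A, B, hA, hB, hAB⟩ := lin_bound (1 + d + d ^ 2) b (2 + b * d)
      (2 * (θ + 1) + d * M + 2) M ((d + 1) ^ d) (by omega) (by omega) (by omega)
      (Nat.one_le_pow _ _ (by omega))
    obtain ⟨c, hc, hcc⟩ := final_real A B hA hB
    refine ⟨c, hc, ?_⟩
    intro V _ G hG h3 hd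
    obtain ⟨r⟩ := hG.nonempty
    obtain ⟨p, hp, hLf⟩ := exists_base G hG d h3 hd r
    have hn : 1 ≤ Fintype.card V := Fintype.card_pos_iff.2 ⟨r⟩
    have hN : 1 ≤ Fintype.card V * numUnlabeled G := one_le_nU hp
    refine hcc (Fintype.card V) (numUnlabeled G) hn (two_classes G hG h3) ?_
    by_cases hr : r ∈ heavy r p M
    · obtain ⟨i1, h1, h2⟩ := ineqI' hp d K M h3 hd hK hM
      obtain ⟨i2, w, h4, h5, h6⟩ := ineqII' hp d M X θ h3 hd hM2 hr (by rw [hX, hb]) hθ
      rw [← hb] at h1 h5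
      exact (hAB _ _ _ w _ i1 i2 hN hLf h5 h6 h4 h1 h2).1
    · have h7 : Fintype.card V < M := by
        by_contra hcon
        apply hr
        rw [heavy, Finset.mem_filter, desc_root hp]
        exact ⟨Finset.mem_univ _, by rw [Finset.card_univ]; omega⟩
      have h8 := (hAB 0 1 0 0 0 0 0 le_rfl (by omega) (by omega) (by simp) (by omega)
        (by omega) (by simp)).2
      have h9 : 0 ≤ A * Real.log ((Fintype.card V * numUnlabeled G : ℕ) : ℝ) := by
        apply mul_nonneg hA.le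
        apply Real.log_nonneg
        exact_mod_cast hN
      have h10 : (Fintype.card V : ℝ) ≤ M := by exact_mod_cast h7.le
      linarith

end Pool.Agent.H142.NT
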