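import Pool.Agent.H142.NT.Defs2
import Pool.Agent.H142.NT.B0a
import Pool.Agent.H142.NT.B0b
import Pool.Agent.H142.NT.TAU

set_option autoImplicit false

open Finset Classical

namespace Pool.Agent.H142.NT

variable {V : Type} [Fintype V]

theorem tau_sub_MV (r : V) (p : V → V) (M : ℕ) (x v : V) (hv : v ∈ tau r p M x) :
    v ∈ desc r p x := (Finset.mem_filter.1 hv).1

theorem iter_tau_MV {G : SimpleGraph V} {r : V} {p : V → V} (h : IsPar G r p) (M : ℕ) (x v : V)
    (hv : v ∈ tau r p M x) (j : ℕ) (hj : j ≤ dep r p v - dep r p x) :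
    p^[j] v ∈ tau r p M x ∧ dep r p (p^[j] v) + j = dep r p v := by
  have hle := (dep_le_of_desc h (tau_sub_MV r p M x v hv)).1
  have hd : dep r p (p^[j] v) + j = dep r p v := dep_iter h v j (by omega)
  refine ⟨?_, hd⟩
  induction j with
  | zero => exact hv
  | succ j ih =>
    have hd' : dep r p (p^[j] v) + j = dep r p v := dep_iter h v j (by omega)
    have h1 := ih (by omega) hd'
    have h2 : p^[j] v ≠ x := by
      intro h3
      rw [h3] at hd'
      omega
    rw [Function.iterate_succ_apply']
    exact (tau_light h M x _ h1 h2).2.2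

theorem exists_move {G : SimpleGraph V} {r : V} {p : V → V} (h : IsPar G r p) (M : ℕ)
    (h3 : ∀ v, 3 ≤ (nbr G v).card) (x : V) (hx : x ∈ heavy r p M) (hne : tau r p M x ≠ {x}) :
    ∃ y z, y ∈ tau r p M x ∧ y ≠ x ∧ G.Adj y z ∧
      ((kids r p y = ∅ ∧ z ∉ tau r p M x) ∨
        (z ∈ tau r p M x ∧ z ∉ desc r p y ∧ dep r p z + 1 ≠ dep r p y)) := by
  have hself := self_mem_tau h M x
  have hne' : ((tau r p M x).erase x).Nonempty := by
    rw [Finset.nonempty_iff_ne_empty]
    intro h0
    apply hne
    rw [← Finset.insert_erase hself, h0]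
    rfl
  obtain ⟨w, hw, hmax⟩ := Finset.exists_max_image _ (dep r p) hne'
  rw [Finset.mem_erase] at hw
  obtain ⟨hwx, hwt⟩ := hw
  have hwd := tau_sub_MV r p M x w hwt
  have hle := dep_le_of_desc h hwd
  have hlight := tau_light h M x w hwt hwx
  have hkids : kids r p w = ∅ := by
    rw [Finset.eq_empty_iff_forall_notMem]
    intro c hc
    have hc' := (mem_kids r p w c).1 hc
    have hcd : c ∈ desc r p w := mem_desc_of_par h hc'.1 (by rw [hc'.2]; exact self_mem_desc r p w)
    have hcH : c ∉ heavy r p M := by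
      intro hH
      apply hlight.1
      unfold heavy at hH ⊢
      rw [Finset.mem_filter] at hH ⊢
      refine ⟨Finset.mem_univ _, hH.2.trans (Finset.card_le_card ?_)⟩
      intro a ha
      exact desc_trans h hcd ha
    have hct := tau_kid h M x w c hwt hc hcH
    have hdk := dep_kid h hc
    have hcx : c ≠ x := by
      intro h0
      rw [h0] at hdk
      omega
    have := hmax c (Finset.mem_erase.2 ⟨hcx, hct⟩)
    omega
  obtain ⟨u, hu⟩ : ((nbr G w).erase (p w)).Nonempty := by
    rw [← Finset.card_pos]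
    have h1 := Finset.pred_card_le_card_erase (s := nbr G w) (a := p w)
    have h2 := h3 w
    omega
  rw [Finset.mem_erase, mem_nbr] at hu
  obtain ⟨hup, hadj⟩ := hu
  by_cases hut : u ∈ tau r p M x
  · by_cases hdep : dep r p u + 1 = dep r p w
    · refine ⟨u, w, hut, ?_, hadj.symm, Or.inr ⟨hwt, ?_, by omega⟩⟩
      · intro hux
        apply hup
        have h4 := hle.2
        have h5 : dep r p w - dep r p x = 1 := by
          rw [← hux]
          omega
        rw [h5, Function.iterate_one] at h4
        rw [h4, hux]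
      · intro hwu
        apply hup
        have h4 := (dep_le_of_desc h hwu).2
        have h5 : dep r p w - dep r p u = 1 := by omega
        rw [h5, Function.iterate_one] at h4
        exact h4.symm
    · refine ⟨w, u, hwt, hwx, hadj, Or.inr ⟨hut, ?_, hdep⟩⟩
      rw [desc_eq h w, hkids]
      intro h4
      have h5 : u = w := by simpa using h4
      exact hadj.ne h5.symm
  · exact ⟨w, u, hwt, hwx, hadj, Or.inl ⟨hkids, hut⟩⟩

theorem LGood_tau {G : SimpleGraph V} {r : V} {p : V → V} (h : IsPar G r p) (M : ℕ) (x : V) :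
    LGood ((tau r p M x).erase x) x p ∧
      ∀ v ∈ tau r p M x, tm x p v = dep r p v - dep r p x := by
  constructor
  · intro v hv
    rw [Finset.mem_erase] at hv
    have hle := dep_le_of_desc h (tau_sub_MV r p M x v hv.2)
    refine ⟨dep r p v - dep r p x, hle.2, fun j hj => ?_⟩
    obtain ⟨h1, h2⟩ := iter_tau_MV h M x v hv.2 j hj.le
    rw [Finset.mem_erase]
    refine ⟨fun h3 => ?_, h1⟩
    rw [h3] at h2
    omega
  · intro v hv
    have hle := dep_le_of_desc h (tau_sub_MV r p M x v hv)
    unfold tm
    apply le_antisymm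
    · exact Nat.sInf_le hle.2
    · by_contra hlt
      rw [not_le] at hlt
      have hmem : p^[sInf {k | p^[k] v = x}] v = x :=
        Nat.sInf_mem (s := {k | p^[k] v = x}) ⟨_, hle.2⟩
      obtain ⟨h1, h2⟩ := iter_tau_MV h M x v hv _ hlt.le
      rw [hmem] at h2
      omega

end Pool.Agent.H142.NT
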