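import Pool.Agent.H142.NT.Defs2
import Pool.Agent.H142.NT.B0a
import Pool.Agent.H142.NT.B0b
import Pool.Agent.H142.NT.ASM
import Pool.Agent.H142.NT.TAU

set_option autoImplicit false

open Finset Classical

namespace Pool.Agent.H142.NT

variable {V : Type} [Fintype V]

section
variable {G : SimpleGraph V} {r : V} {p : V → V} {I : Finset V} {Q : V → Finset V}
  {u : V → V} {K : ℕ} {f : V → ℕ → V → V}

end

/-- `v` lies in `tau v` -/
theorem self_mem_tau_SU {G : SimpleGraph V} {r : V} {p : V → V} (h : IsPar G r p) (M : ℕ) (v : V) :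
    v ∈ tau r p M v := by
  unfold tau
  rw [mem_filter]
  refine ⟨self_mem_desc r p v, fun w hw hv hne => ?_⟩
  exfalso
  apply hne
  obtain ⟨h1, h2⟩ := dep_le_of_desc h hw
  obtain ⟨h3, _⟩ := dep_le_of_desc h hv
  have h4 : dep r p w - dep r p v = 0 := by omega
  rw [h4] at h2
  simpa using h2

/-- the sets `tau v` of the heavy vertices are disjoint -/
theorem tau_disj_SU {G : SimpleGraph V} {r : V} {p : V → V} (h : IsPar G r p) (M : ℕ) {v x y : V}
    (hv : v ∈ heavy r p M) (hx : x ∈ heavy r p M) (h1 : y ∈ tau r p M v) (h2 : y ∈ tau r p M x) :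
    x = v := by
  unfold tau at h1 h2
  rw [mem_filter] at h1 h2
  by_contra hne
  rcases desc_comp h h1.1 h2.1 with hc | hc
  · exact h2.2 v hc h1.1 (fun hh => hne hh.symm) hv
  · exact h1.2 x hc h2.1 hne hx

/-- a descendant of a light vertex is light -/
theorem light_desc_SU {G : SimpleGraph V} {r : V} {p : V → V} (h : IsPar G r p) (M : ℕ) {v u : V}
    (hu : u ∈ desc r p v) (hv : v ∉ heavy r p M) : u ∉ heavy r p M := by
  intro hcon
  apply hv
  unfold heavy at hcon ⊢
  rw [mem_filter] at hcon ⊢
  refine ⟨mem_univ _, le_trans hcon.2 (card_le_card ?_)⟩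
  intro w hw
  exact desc_trans h hu hw

theorem psi_ge_card (r : V) (p : V → V) (v : V) : (desc r p v).card ≤ psi r p v := by
  unfold psi
  rw [Finset.card_eq_sum_ones]
  exact Finset.sum_le_sum (fun u _ => Nat.one_le_two_pow)

theorem psi_le {G : SimpleGraph V} {r : V} {p : V → V} (h : IsPar G r p) (v : V) (X : ℕ)
    (hX : (desc r p v).card ≤ X) : psi r p v ≤ X * 2 ^ X := by
  unfold psi
  have hk : ∀ u ∈ desc r p v, 2 ^ (dep r p u - dep r p v) ≤ 2 ^ X := by
    intro u hu
    refine Nat.pow_le_pow_right (by norm_num) ?_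
    obtain ⟨h1, h2⟩ := dep_le_of_desc h hu
    have hcard : (range (dep r p u - dep r p v + 1)).card ≤ (desc r p v).card := by
      refine Finset.card_le_card_of_injOn (fun i => p^[i] u) ?_ ?_
      · intro i hi
        simp only [coe_range, Set.mem_Iio] at hi
        have hdi := dep_iter h u i (by omega)
        show p^[i] u ∈ (↑(desc r p v) : Set V)
        rw [mem_coe]
        unfold desc
        rw [mem_filter]
        refine ⟨mem_univ _, dep r p u - dep r p v - i, by omega, ?_⟩
        rw [← Function.iterate_add_apply]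
        have h3 : dep r p u - dep r p v - i + i = dep r p u - dep r p v := by omega
        rw [h3]
        exact h2
      · intro i hi j hj hij
        simp only [coe_range, Set.mem_Iio] at hi hj
        have hdi := dep_iter h u i (by omega)
        have hdj := dep_iter h u j (by omega)
        have hij' : p^[i] u = p^[j] u := hij
        rw [hij'] at hdi
        omega
    rw [card_range] at hcard
    omega
  calc ∑ u ∈ desc r p v, 2 ^ (dep r p u - dep r p v) ≤ ∑ _u ∈ desc r p v, 2 ^ X :=
        Finset.sum_le_sum hk
    _ = (desc r p v).card * 2 ^ X := by rw [Finset.sum_const, smul_eq_mul]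
    _ ≤ X * 2 ^ X := Nat.mul_le_mul_right _ hX

theorem small_upper {G : SimpleGraph V} {r : V} {p : V → V} {I : Finset V} {Q : V → Finset V}
    {u : V → V} {f : V → ℕ → V → V} (h : Sys G r p I Q u 2 f) (d M b : ℕ)
    (hd : ∀ v, (nbr G v).card ≤ d)
    (hI : I ⊆ heavy r p M) (hQ : ∀ x ∈ I, Q x = (tau r p M x).erase x)
    (hleaf : ∀ x ∈ I, ∀ s < 2, ∀ w ∈ Q x, f x s w ∉ Q x → f x s w ≠ x →
      ∀ c ∈ Q x, f x s c ≠ w)
    (S : V → ℕ) (hS : ∀ x ∈ I, S x < 2) (v : V) (hv : v ∈ heavy r p M)
    (hb : (tau r p M v).card ≤ b) (c : V) (hc : c ∈ kids r (asm p I Q f S) v)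
    (hcH : c ∉ heavy r p M) :
    (desc r (asm p I Q f S) c).card ≤ (1 + d) * b := by
  have hp : IsPar G r p := h.par
  have hq : IsPar G r (asm p I Q f S) := asm_isPar h S hS
  have hqmem : ∀ {x w : V}, x ∈ I → w ∈ Q x → asm p I Q f S w = f x (S x) w :=
    fun hx hw => asm_of_mem h S hx hw
  have hqnot : ∀ {w : V}, (∀ x ∈ I, w ∉ Q x) → asm p I Q f S w = p w :=
    fun hw => asm_of_not S hw
  have hkidsin : ∀ x ∈ I, ∀ w ∈ Q x, kids r (asm p I Q f S) w ⊆ Q x :=
    fun x hx w hw => kids_asm_in h S hS x hx w hw
  generalize asm p I Q f S = q at hc hq hqmem hqnot hkidsin ⊢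
  rw [mem_kids] at hc
  obtain ⟨hcr, hqc⟩ := hc
  set T := tau r p M v with hT
  set E : Finset V := univ.filter (fun w => (∃ x ∈ I, w ∈ Q x) ∧ w ∉ T ∧ q w ∈ T) with hE
  have hvT : v ∈ T := self_mem_tau_SU hp M v
  have hdepc : dep r q v + 1 = dep r q c := by
    have := dep_par hq c hcr
    rw [hqc] at this
    exact this
  have hmain : ∀ k : ℕ, ∀ w : V, k ≤ dep r q w → q^[k] w = c → w ∈ T ∪ E := by
    intro k
    induction k with
    | zero =>
      intro w _ hw
      have hwc : w = c := by simpa using hw
      subst hwc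
      rw [mem_union]
      by_cases hex : ∃ x ∈ I, w ∈ Q x
      · by_cases hwT : w ∈ T
        · exact Or.inl hwT
        · right
          rw [hE, mem_filter]
          exact ⟨mem_univ _, hex, hwT, by rw [hqc]; exact hvT⟩
      · left
        push Not at hex
        have h1 : p w = v := by rw [← hqnot hex]; exact hqc
        have h2 : w ∈ kids r p v := by rw [mem_kids]; exact ⟨hcr, h1⟩
        exact tau_kid hp M v v w hvT h2 hcH
    | succ k ih =>
      intro w hk hw
      have hwr : w ≠ r := by
        intro hwr
        rw [(dep_eq_zero hq w).2 hwr] at hk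
        omega
      have hdw := dep_par hq w hwr
      have hw' : q^[k] (q w) = c := by
        rw [← Function.iterate_succ_apply]
        exact hw
      have hIH := ih (q w) (by omega) hw'
      -- `q w ≠ v`
      have hdit := dep_iter hq (q w) k (by omega)
      rw [hw'] at hdit
      have hqwv : q w ≠ v := by
        intro hcon
        rw [hcon] at hdit
        omega
      rw [mem_union] at hIH
      rcases hIH with hIH | hIH
      · -- `q w ∈ T`
        have hl := tau_light hp M v (q w) hIH hqwv
        rw [mem_union]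
        by_cases hex : ∃ x ∈ I, w ∈ Q x
        · by_cases hwT : w ∈ T
          · exact Or.inl hwT
          · right
            rw [hE, mem_filter]
            exact ⟨mem_univ _, hex, hwT, hIH⟩
        · left
          push Not at hex
          have h1 : p w = q w := (hqnot hex).symm
          have h2 : w ∈ kids r p (q w) := by rw [mem_kids]; exact ⟨hwr, h1⟩
          have h3 : w ∈ desc r p (q w) := by
            refine mem_desc_of_par hp hwr ?_
            rw [h1]
            exact self_mem_desc r p (q w)
          exact tau_kid hp M v (q w) w hIH h2 (light_desc_SU hp M h3 hl.1)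
      · -- `q w ∈ E`
        exfalso
        rw [hE, mem_filter] at hIH
        obtain ⟨_, ⟨x, hx, hwx⟩, hnT, hqT⟩ := hIH
        have hwx' : q w ∈ tau r p M x := by
          rw [hQ x hx] at hwx
          exact (mem_erase.1 hwx).2
        have hxH : x ∈ heavy r p M := hI hx
        have hnotau : f x (S x) (q w) ∉ tau r p M x := by
          intro hcon
          rw [← hqmem hx hwx] at hcon
          have hxv : x = v := tau_disj_SU hp M hv hxH hqT hcon
          subst hxv
          exact hnT hwx'
        have h1 : f x (S x) (q w) ∉ Q x := by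
          intro hcon
          rw [hQ x hx] at hcon
          exact hnotau (mem_erase.1 hcon).2
        have h2 : f x (S x) (q w) ≠ x := by
          intro hcon
          apply hnotau
          rw [hcon]
          exact self_mem_tau_SU hp M x
        have h3 : w ∈ Q x := by
          apply hkidsin x hx (q w) hwx
          rw [mem_kids]
          exact ⟨hwr, rfl⟩
        exact hleaf x hx (S x) (hS x hx) (q w) hwx h1 h2 w h3 (hqmem hx h3).symm
  have hsub : desc r q c ⊆ T ∪ E := by
    intro w hw
    unfold desc at hw
    rw [mem_filter] at hw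
    obtain ⟨_, k, hk, hkw⟩ := hw
    exact hmain k w hk hkw
  have hEcard : E.card ≤ T.card * d := by
    have hsub2 : E ⊆ T.biUnion (nbr G) := by
      intro w hw
      rw [hE, mem_filter] at hw
      obtain ⟨_, ⟨x, hx, hwx⟩, _, hqT⟩ := hw
      rw [mem_biUnion]
      refine ⟨q w, hqT, ?_⟩
      rw [mem_nbr]
      have hwr : w ≠ r := by
        intro hcon
        subst hcon
        exact h.root x hx hwx
      exact (hq.adj w hwr).symm
    calc E.card ≤ (T.biUnion (nbr G)).card := card_le_card hsub2
      _ ≤ ∑ t ∈ T, (nbr G t).card := card_biUnion_le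
      _ ≤ ∑ _t ∈ T, d := Finset.sum_le_sum (fun t _ => hd t)
      _ = T.card * d := by rw [Finset.sum_const, smul_eq_mul]
  calc (desc r q c).card ≤ (T ∪ E).card := card_le_card hsub
    _ ≤ T.card + E.card := card_union_le _ _
    _ ≤ T.card + T.card * d := Nat.add_le_add_left hEcard _
    _ = (1 + d) * T.card := by ring
    _ ≤ (1 + d) * b := Nat.mul_le_mul_left _ hb

end Pool.Agent.H142.NT
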