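import Pool.Agent.H142.NT.Defs2
import Pool.Agent.H142.NT.B0a
import Pool.Agent.H142.NT.PG
import Pool.Agent.H142.NT.BFS

set_option autoImplicit false

open Finset Classical

namespace Pool.Agent.H142.NT

variable {V : Type} [Fintype V]

/-! ### T2: two non-isomorphic spanning trees -/

/-- the degree of `v` in the spanning tree of `p` -/
noncomputable def dg_T2 (r : V) (p : V → V) (v : V) : ℕ :=
  (kids r p v).card + (if v = r then 0 else 1)

theorem nbr_card_T2 {G : SimpleGraph V} {r : V} {p : V → V} (h : IsPar G r p) (v : V) :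
    (nbr (pgraph r p) v).card = dg_T2 r p v := by
  by_cases hv : v = r
  · have e : nbr (pgraph r p) v = kids r p v := by
      ext w
      rw [mem_nbr, pgraph_adj h, mem_kids]
      constructor
      · rintro (h1 | h1)
        · exact absurd hv h1.1
        · exact h1
      · exact fun h1 => Or.inr h1
    rw [e, dg_T2, if_pos hv, add_zero]
  · have hn : p v ∉ kids r p v := by
      intro hk
      rw [mem_kids] at hk
      have h1 := dep_par h v hv
      have h2 := dep_par h (p v) hk.1
      rw [hk.2] at h2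
      omega
    have e : nbr (pgraph r p) v = insert (p v) (kids r p v) := by
      ext w
      rw [mem_nbr, pgraph_adj h, Finset.mem_insert, mem_kids]
      constructor
      · rintro (h1 | h1)
        · exact Or.inl h1.2.symm
        · exact Or.inr h1
      · rintro (h1 | h1)
        · exact Or.inl ⟨hv, h1.symm⟩
        · exact Or.inr h1
    rw [e, Finset.card_insert_of_notMem hn, dg_T2, if_neg hv]

theorem iso_sum_T2 {T T' : SimpleGraph V} (f : T ≃g T') :
    ∑ v, (nbr T v).card ^ 2 = ∑ v, (nbr T' v).card ^ 2 := by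
  rw [← Equiv.sum_comp f.toEquiv (fun v => (nbr T' v).card ^ 2)]
  refine Finset.sum_congr rfl fun v _ => ?_
  congr 1
  refine Finset.card_bij' (fun w _ => f w) (fun w _ => f.symm w) ?_ ?_ ?_ ?_
  · intro w hw
    rw [mem_nbr] at hw ⊢
    exact f.map_rel_iff.2 hw
  · intro w hw
    rw [mem_nbr] at hw ⊢
    have h1 : T'.Adj (f v) (f (f.symm w)) := by
      rw [f.apply_symm_apply]; exact hw
    exact f.map_rel_iff.1 h1
  · intro w _
    exact f.symm_apply_apply w
  · intro w _
    exact f.apply_symm_apply w

theorem not_meet_T2 {G : SimpleGraph V} {r : V} {p : V → V} (h : IsPar G r p) {w : V}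
    (hwr : w ≠ r) (hw : kids r p w = ∅) {v : V} (hv : v ≠ w) (k : ℕ) : p^[k] v ≠ w := by
  induction k with
  | zero => exact hv
  | succ k ih =>
    rw [Function.iterate_succ_apply']
    intro hk
    by_cases hr : p^[k] v = r
    · rw [hr, h.root] at hk
      exact hwr hk.symm
    · have : p^[k] v ∈ kids r p w := (mem_kids r p w _).2 ⟨hr, hk⟩
      rw [hw] at this
      exact absurd this (Finset.notMem_empty _)

theorem iter_update_T2 {G : SimpleGraph V} {r : V} {p : V → V} (h : IsPar G r p) {w u : V}
    (hwr : w ≠ r) (hw : kids r p w = ∅) {v : V} (hv : v ≠ w) (k : ℕ) :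
    (Function.update p w u)^[k] v = p^[k] v := by
  induction k with
  | zero => rfl
  | succ k ih =>
    rw [Function.iterate_succ_apply', Function.iterate_succ_apply', ih,
      Function.update_of_ne (not_meet_T2 h hwr hw hv k)]

theorem move_T2 {G : SimpleGraph V} {r : V} {p : V → V} (h : IsPar G r p) {w u : V}
    (hwr : w ≠ r) (hw : kids r p w = ∅) (hwu : G.Adj w u) :
    IsPar G r (Function.update p w u) := by
  have huw : u ≠ w := (G.ne_of_adj hwu).symm
  refine ⟨?_, ?_, ?_⟩
  · rw [Function.update_of_ne (Ne.symm hwr)]; exact h.root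
  · intro v hv
    by_cases hvw : v = w
    · subst hvw
      rw [Function.update_self]; exact hwu
    · rw [Function.update_of_ne hvw]; exact h.adj v hv
  · intro v
    by_cases hvw : v = w
    · obtain ⟨k, hk⟩ := h.reach u
      refine ⟨k + 1, ?_⟩
      rw [hvw, Function.iterate_succ_apply, Function.update_self, iter_update_T2 h hwr hw huw]
      exact hk
    · obtain ⟨k, hk⟩ := h.reach v
      exact ⟨k, by rw [iter_update_T2 h hwr hw hvw]; exact hk⟩

theorem kids_move_T2 {r : V} {p : V → V} {w u x : V} (hxu : x ≠ u) (hxp : x ≠ p w) :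
    kids r (Function.update p w u) x = kids r p x := by
  ext c
  rw [mem_kids, mem_kids]
  by_cases hc : c = w
  · subst hc
    rw [Function.update_self]
    exact ⟨fun h => absurd h.2.symm hxu, fun h => absurd h.2.symm hxp⟩
  · rw [Function.update_of_ne hc]

theorem kids_move_new_T2 {r : V} {p : V → V} {w u : V} (hwr : w ≠ r) (hup : u ≠ p w) :
    (kids r (Function.update p w u) u).card = (kids r p u).card + 1 := by
  have e : kids r (Function.update p w u) u = insert w (kids r p u) := by
    ext c
    rw [Finset.mem_insert, mem_kids, mem_kids]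
    by_cases hc : c = w
    · subst hc
      rw [Function.update_self]
      exact ⟨fun _ => Or.inl rfl, fun _ => ⟨hwr, rfl⟩⟩
    · rw [Function.update_of_ne hc]
      exact ⟨fun h => Or.inr h, fun h => h.resolve_left hc⟩
  rw [e, Finset.card_insert_of_notMem]
  intro h
  rw [mem_kids] at h
  exact hup h.2.symm

theorem kids_move_old_T2 {r : V} {p : V → V} {w u : V} (hwr : w ≠ r) (hup : u ≠ p w) :
    (kids r (Function.update p w u) (p w)).card + 1 = (kids r p (p w)).card := by
  have e : kids r (Function.update p w u) (p w) = (kids r p (p w)).erase w := by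
    ext c
    rw [Finset.mem_erase, mem_kids, mem_kids]
    by_cases hc : c = w
    · subst hc
      rw [Function.update_self]
      exact ⟨fun h => absurd h.2 hup, fun h => absurd rfl h.1⟩
    · rw [Function.update_of_ne hc]
      exact ⟨fun h => ⟨hc, h⟩, fun h => h.2⟩
  have hm : w ∈ kids r p (p w) := (mem_kids r p (p w) w).2 ⟨hwr, rfl⟩
  rw [e, Finset.card_erase_add_one hm]

/-- all spanning trees isomorphic: a relation between the degrees -/
theorem rel_T2 {G : SimpleGraph V} {r : V}
    (hall : ∀ T T' : STree G, Nonempty (T.1 ≃g T'.1)) {p : V → V} (h : IsPar G r p) {w u : V}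
    (hwr : w ≠ r) (hw : kids r p w = ∅) (hwu : G.Adj w u) (hup : u ≠ p w) :
    dg_T2 r p u + 1 = dg_T2 r p (p w) := by
  have h' := move_T2 h hwr hw hwu
  obtain ⟨f⟩ := hall ⟨pgraph r p, pgraph_le h, pgraph_isTree h⟩
    ⟨pgraph r (Function.update p w u), pgraph_le h', pgraph_isTree h'⟩
  have hs := iso_sum_T2 f
  simp only [nbr_card_T2 h, nbr_card_T2 h'] at hs
  have hz : ∑ v, (((dg_T2 r (Function.update p w u) v : ℤ)) ^ 2 - ((dg_T2 r p v : ℤ)) ^ 2) = 0 := by
    rw [Finset.sum_sub_distrib]
    have : (∑ v, dg_T2 r p v ^ 2 : ℤ) = ∑ v, (dg_T2 r (Function.update p w u) v : ℤ) ^ 2 := by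
      exact_mod_cast hs
    rw [this, sub_self]
  rw [Finset.sum_eq_add u (p w) hup (by
    rintro c - ⟨hc1, hc2⟩
    rw [dg_T2, dg_T2, kids_move_T2 hc1 hc2, sub_self]) (by simp) (by simp)] at hz
  have e1 : dg_T2 r (Function.update p w u) u = dg_T2 r p u + 1 := by
    rw [dg_T2, dg_T2, kids_move_new_T2 hwr hup]; omega
  have e2 : dg_T2 r (Function.update p w u) (p w) + 1 = dg_T2 r p (p w) := by
    rw [dg_T2, dg_T2, ← kids_move_old_T2 hwr hup]; omega
  have e3 : (dg_T2 r (Function.update p w u) (p w) : ℤ) = dg_T2 r p (p w) - 1 := by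
    have : ((dg_T2 r (Function.update p w u) (p w) + 1 : ℕ) : ℤ) = dg_T2 r p (p w) := by
      exact_mod_cast e2
    push_cast at this
    linarith
  rw [e1, e3] at hz
  push_cast at hz
  have : (dg_T2 r p u : ℤ) + 1 = dg_T2 r p (p w) := by nlinarith
  exact_mod_cast this

theorem exists_nbr_T2 {G : SimpleGraph V} (h3 : ∀ v, 3 ≤ (nbr G v).card) (v a b : V) :
    ∃ u, G.Adj v u ∧ u ≠ a ∧ u ≠ b := by
  have h1 : ((nbr G v) \ {a, b}).Nonempty := by
    rw [← Finset.card_pos]
    have h2 := Finset.le_card_sdiff ({a, b} : Finset V) (nbr G v)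
    have h4 : ({a, b} : Finset V).card ≤ 2 := Finset.card_le_two
    have h5 := h3 v
    omega
  obtain ⟨u, hu⟩ := h1
  rw [Finset.mem_sdiff, mem_nbr, Finset.mem_insert, Finset.mem_singleton, not_or] at hu
  exact ⟨u, hu.1, hu.2.1, hu.2.2⟩

theorem not_all_T2 (G : SimpleGraph V) (hG : G.Connected) (h3 : ∀ v, 3 ≤ (nbr G v).card) :
    ¬ ∀ T T' : STree G, Nonempty (T.1 ≃g T'.1) := by
  intro hall
  obtain ⟨r⟩ := hG.nonempty
  obtain ⟨p, hp, hd⟩ := exists_bfs G hG r
  obtain ⟨w, -, hw⟩ := Finset.exists_max_image (univ : Finset V) (fun v => dep r p v) ⟨r, by simp⟩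
  have hmax : ∀ v, dep r p v ≤ dep r p w := fun v => hw v (by simp)
  have hchildless : ∀ v, dep r p w ≤ dep r p v → kids r p v = ∅ := by
    intro v hv
    rw [Finset.eq_empty_iff_forall_notMem]
    intro c hc
    have h1 := dep_kid hp hc
    have h2 := hmax c
    omega
  have hR : 1 ≤ dep r p w := by
    obtain ⟨x, hx, -, -⟩ := exists_nbr_T2 h3 r r r
    have h1 : dep r p x = 1 := by
      rw [hd, SimpleGraph.dist_eq_one_iff_adj]; exact hx
    have := hmax x
    omega
  have hwr : w ≠ r := by
    intro h
    rw [h, dep_root] at hR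
    omega
  have hw0 : kids r p w = ∅ := hchildless w le_rfl
  -- a neighbour of `w` different from `p w` is not the root
  have hnr : ∀ u, G.Adj w u → u ≠ p w → u ≠ r := by
    intro u hu hup hur
    have h1 : dep r p w = 1 := by
      rw [hd, SimpleGraph.dist_eq_one_iff_adj]
      rw [hur] at hu
      exact hu.symm
    have h2 := dep_par hp w hwr
    have h3 : dep r p (p w) = 0 := by omega
    rw [dep_eq_zero hp] at h3
    exact hup (hur.trans h3.symm)
  obtain ⟨u, hwu, hup, -⟩ := exists_nbr_T2 h3 w (p w) (p w)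
  have hur := hnr u hwu hup
  have hwdg : dg_T2 r p w = 1 := by
    rw [dg_T2, hw0, if_neg hwr, Finset.card_empty]
  by_cases hu0 : kids r p u = ∅
  · -- case A
    have hudg : dg_T2 r p u = 1 := by
      rw [dg_T2, hu0, if_neg hur, Finset.card_empty]
    have hpw : dg_T2 r p (p w) = 2 := by
      rw [← rel_T2 hall hp hwr hw0 hwu hup, hudg]
    obtain ⟨w3, hww3, h3p, h3u⟩ := exists_nbr_T2 h3 w (p w) u
    have h3r := hnr w3 hww3 h3p
    have h3dg : dg_T2 r p w3 = 1 := by
      have := rel_T2 hall hp hwr hw0 hww3 h3p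
      omega
    have h30 : kids r p w3 = ∅ := by
      rw [dg_T2, if_neg h3r] at h3dg
      rw [← Finset.card_eq_zero]
      omega
    have hnp : ∀ x, x ≠ r → w ≠ p x := by
      intro x hx hwx
      have : x ∈ kids r p w := (mem_kids r p w x).2 ⟨hx, hwx.symm⟩
      rw [hw0] at this
      exact absurd this (Finset.notMem_empty _)
    have h4 : dg_T2 r p (p w3) = 2 := by
      rw [← rel_T2 hall hp h3r h30 hww3.symm (hnp w3 h3r), hwdg]
    have hp' := move_T2 hp hur hu0 hwu.symm
    have h3w : w3 ≠ w := (G.ne_of_adj hww3).symm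
    have h3pu : w3 ≠ p u := by
      intro h
      have : u ∈ kids r p w3 := (mem_kids r p w3 u).2 ⟨hur, h.symm⟩
      rw [h30] at this
      exact absurd this (Finset.notMem_empty _)
    have h30' : kids r (Function.update p u w) w3 = ∅ := by
      rw [kids_move_T2 h3w h3pu, h30]
    have hpw3 : Function.update p u w w3 = p w3 := Function.update_of_ne h3u _ _
    have h5 := rel_T2 hall hp' h3r h30' hww3.symm (by rw [hpw3]; exact hnp w3 h3r)
    rw [hpw3] at h5
    have h6 : dg_T2 r (Function.update p u w) w = 2 := by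
      rw [dg_T2, kids_move_new_T2 hur (hnp u hur), hw0, if_neg hwr, Finset.card_empty]
    have h7 : dg_T2 r (Function.update p u w) (p w3) ≤ dg_T2 r p (p w3) := by
      by_cases hq : p w3 = p u
      · rw [hq, dg_T2, dg_T2, ← kids_move_old_T2 hur (hnp u hur)]
        omega
      · rw [dg_T2, dg_T2, kids_move_T2 (hnp w3 h3r).symm hq]
    omega
  · -- case B
    obtain ⟨w2, hw2⟩ := Finset.nonempty_iff_ne_empty.2 hu0
    have hk2 := dep_kid hp hw2
    rw [mem_kids] at hw2
    have h1 : dep r p w ≤ dep r p u + 1 := by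
      rw [hd, hd]
      have := hG.dist_triangle (u := r) (v := u) (w := w)
      have h2 : G.dist u w = 1 := by
        rw [SimpleGraph.dist_eq_one_iff_adj]; exact hwu.symm
      omega
    have hw20 : kids r p w2 = ∅ := hchildless w2 (by omega)
    have hw2w : w2 ≠ w := by
      intro h
      rw [h] at hw2
      exact hup hw2.2.symm
    have hp' := move_T2 hp hwr hw0 hwu
    obtain ⟨u', hu', hu'u, hu'p⟩ := exists_nbr_T2 h3 w2 u (p w)
    have h4 := rel_T2 hall hp hw2.1 hw20 hu' (by rw [hw2.2]; exact hu'u)
    rw [hw2.2] at h4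
    have hw2u : w2 ≠ u := by
      intro h
      rw [h] at hk2
      omega
    have hw2p : w2 ≠ p w := by
      intro h
      have : w ∈ kids r p w2 := (mem_kids r p w2 w).2 ⟨hwr, h.symm⟩
      rw [hw20] at this
      exact absurd this (Finset.notMem_empty _)
    have hw20' : kids r (Function.update p w u) w2 = ∅ := by
      rw [kids_move_T2 hw2u hw2p, hw20]
    have hpw2 : Function.update p w u w2 = u := by
      rw [Function.update_of_ne hw2w]; exact hw2.2
    have h5 := rel_T2 hall hp' hw2.1 hw20' hu' (by rw [hpw2]; exact hu'u)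
    rw [hpw2] at h5
    have h6 : dg_T2 r (Function.update p w u) u = dg_T2 r p u + 1 := by
      rw [dg_T2, dg_T2, kids_move_new_T2 hwr hup]; omega
    have h7 : dg_T2 r (Function.update p w u) u' = dg_T2 r p u' := by
      rw [dg_T2, dg_T2, kids_move_T2 hu'u hu'p]
    omega

theorem two_classes (G : SimpleGraph V) (hG : G.Connected) (h3 : ∀ v, 3 ≤ (nbr G v).card) :
    2 ≤ numUnlabeled G := by
  by_contra hlt
  apply not_all_T2 G hG h3
  have hfin : Finite (STree G) := by
    unfold STree
    infer_instance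
  have hfin' : Finite (Quotient (isoRel G)) := inferInstance
  have h1 : Nat.card (Quotient (isoRel G)) ≤ 1 := by
    have : numUnlabeled G ≤ 1 := by omega
    exact this
  rw [Finite.card_le_one_iff_subsingleton] at h1
  intro T T'
  have h2 : (Quotient.mk (isoRel G) T) = Quotient.mk (isoRel G) T' := Subsingleton.elim _ _
  exact Quotient.exact h2

end Pool.Agent.H142.NT
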