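import Pool.Agent.H142.NT.C1
import Pool.Agent.H142.NT.C2
import Pool.Agent.H142.NT.EL
import Pool.Agent.H142.NT.HV
import Pool.Agent.H142.NT.TAU
import Pool.Agent.H142.NT.MV
import Pool.Agent.H142.NT.SU
import Pool.Agent.H142.NT.BL
import Pool.Agent.H142.NT.LAM
import Pool.Agent.H142.NT.CF
import Pool.Agent.H142.NT.BASE
import Pool.Agent.H142.NT.T2
import Pool.Agent.H142.NT.FR
import Pool.Agent.H142.NT.CC

set_option autoImplicit false

open Finset Classical

namespace Pool.Agent.H142.NT

theorem one_le_nU {V : Type} [Fintype V] {G : SimpleGraph V} {r : V} {p : V → V}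
    (h : IsPar G r p) : 1 ≤ Fintype.card V * numUnlabeled G := by
  have := codes_card G r 0 {p} (by intro q hq; rw [Finset.mem_singleton] at hq; rw [hq]; exact h)
  rw [Finset.image_singleton, Finset.card_singleton] at this
  exact this

theorem not_desc_par {V : Type} [Fintype V] {G : SimpleGraph V} {r : V} {p : V → V}
    (h : IsPar G r p) (x : V) (hx : x ≠ r) : p x ∉ desc r p x := by
  intro hmem
  have h1 := (dep_le_of_desc h hmem).1
  have h2 := dep_par h x hx
  omega

/-- first inequality -/
theorem ineqI' {V : Type} [Fintype V] {G : SimpleGraph V} {r : V} {p : V → V} (h : IsPar G r p)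
    (d K M : ℕ)
    (h3 : ∀ v, 3 ≤ (nbr G v).card) (hd : ∀ v, (nbr G v).card ≤ d)
    (hK : K = 2 * (((d + 1) ^ d) ^ 2))
    (hM : M = 3 * d ^ K + 2 * d * (1 + d + d ^ 2) * K) :
    ∃ i : ℕ, (minH r p M).card ≤ 1 + i * (2 + (1 + d * (M - 1)) * d) ∧
      2 ^ i ≤ Fintype.card V * numUnlabeled G := by
  have hd3 : 3 ≤ d := le_trans (h3 r) (hd r)
  have hM1 : 1 ≤ M := by
    rw [hM]
    have : 0 < d ^ K := pow_pos (by omega) K
    omega
  set X := (minH r p M).erase r with hX
  have hXr : ∀ x ∈ X, x ≠ r := fun x hx => Finset.ne_of_mem_erase hx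
  have hXm : ∀ x ∈ X, x ∈ minH r p M := fun x hx => Finset.mem_of_mem_erase hx
  have hbig : ∀ x ∈ X, 3 * d ^ K + 2 * d * (1 + d + d ^ 2) * K ≤ (desc r p x).card := by
    intro x hx
    have h1 := hXm x hx
    rw [minH, Finset.mem_filter, heavy, Finset.mem_filter] at h1
    rw [← hM]
    exact h1.1.2
  -- the local families
  have hloc : ∀ x : V, ∃ (v u : V) (f : ℕ → V → V), x ∈ X → (v ∈ desc r p x ∧ u ∉ desc r p x ∧
      G.Adj v u ∧
      (∀ s < K, ∀ w ∈ (desc r p x).erase x, G.Adj w (f s w) ∧
        (f s w ∈ desc r p x ∨ f s w = u) ∧ ∃ k, (f s)^[k] w ∉ (desc r p x).erase x) ∧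
      ∀ s < K, ∀ s' < K, lam ((desc r p x).erase x) x (f s) = lam ((desc r p x).erase x) x (f s') →
        s = s') := by
    intro x
    by_cases hx : x ∈ X
    · obtain ⟨v, u, f, hf⟩ := exists_local h d K h3 hd x (hXr x hx) (hbig x hx)
      exact ⟨v, u, f, fun _ => hf⟩
    · exact ⟨x, x, fun _ => id, fun hx' => absurd hx' hx⟩
  choose v u f hf using hloc
  obtain ⟨I, hIX, hconf, hcard⟩ := exists_conflict_free G d (1 + d * (M - 1)) hd X (desc r p)
    (fun x hx => minH_card_desc h d M hd hM1 x (hXm x hx))
    (fun x hx y hy hxy => minH_disj h M x y (hXm x hx) (hXm y hy) hxy) v u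
    (fun x hx => (hf x hx).1) (fun x hx => (hf x hx).2.2.1)
  refine ⟨I.card, ?_, ?_⟩
  · have h1 : (minH r p M).card ≤ X.card + 1 := by
      rw [hX]
      have := Finset.pred_card_le_card_erase (s := minH r p M) (a := r)
      omega
    omega
  · by_cases hI : I.Nonempty
    · set Q : V → Finset V := fun x => (desc r p x).erase x with hQ
      have hIr : ∀ x ∈ I, x ≠ r := fun x hx => hXr x (hIX hx)
      have hdis : ∀ x ∈ I, ∀ y ∈ I, x ≠ y → Disjoint (desc r p x) (desc r p y) :=
        fun x hx y hy hxy => minH_disj h M x y (hXm x (hIX hx)) (hXm y (hIX hy)) hxy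
      have hu : ∀ x ∈ I, ∀ y ∈ I, u x ∉ Q y ∧ u x ≠ y := by
        intro x hx y hy
        have h1 : u x ∉ desc r p y := by
          by_cases hxy : x = y
          · rw [← hxy]
            exact (hf x (hIX hx)).2.1
          · exact hconf x hx y hy hxy
        refine ⟨fun h2 => h1 (Finset.mem_of_mem_erase h2), fun h2 => h1 ?_⟩
        rw [h2]
        exact self_mem_desc r p y
      have hsys : Sys G r p I Q u K (fun x s => f x s) := by
        refine ⟨h, ?_, ?_, ?_, ?_, ?_, ?_, ?_⟩
        · intro x hx y hy hxy
          exact Finset.disjoint_of_subset_left (Finset.erase_subset _ _)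
            (Finset.disjoint_of_subset_right (Finset.erase_subset _ _) (hdis x hx y hy hxy))
        · intro x hx hr
          have h1 : r ∈ desc r p x := Finset.mem_of_mem_erase hr
          have h2 : r ≠ x := Finset.ne_of_mem_erase hr
          exact (par_mem_desc h h1 h2).1 rfl
        · intro x hx y hy hxy
          have h1 : x ∈ desc r p y := Finset.mem_of_mem_erase hxy
          have h2 : x ≠ y := Finset.ne_of_mem_erase hxy
          exact Finset.disjoint_left.1 (hdis x hx y hy h2) (self_mem_desc r p x) h1
        · intro w hw x hx hpw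
          have h1 : p w ∈ desc r p x := Finset.mem_of_mem_erase hpw
          have h2 : p w ≠ x := Finset.ne_of_mem_erase hpw
          by_cases hwr : w = r
          · subst hwr
            rw [h.root] at h1 h2
            exact (par_mem_desc h h1 h2).1 rfl
          · have h3' : w ∈ desc r p x := mem_desc_of_par h hwr h1
            apply hw x hx
            refine Finset.mem_erase.2 ⟨?_, h3'⟩
            rintro rfl
            exact not_desc_par h w hwr h1
        · intro x hx s hs w hw
          exact ((hf x (hIX hx)).2.2.2.1 s hs w hw).1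
        · intro x hx s hs w hw
          rcases ((hf x (hIX hx)).2.2.2.1 s hs w hw).2.1 with h1 | h1
          · by_cases h2 : f x s w = x
            · exact Or.inr (Or.inl h2)
            · exact Or.inl (Finset.mem_erase.2 ⟨h2, h1⟩)
          · exact Or.inr (Or.inr ⟨h1, fun y hy => hu x hx y hy⟩)
        · intro x hx s hs w hw
          exact ((hf x (hIX hx)).2.2.2.1 s hs w hw).2.2
      have hkids : ∀ x ∈ I, kids r p x ⊆ Q x := by
        intro x hx c hc
        have h1 := (mem_kids r p x c).1 hc
        refine Finset.mem_erase.2 ⟨?_, ?_⟩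
        · rintro rfl
          have h2 := dep_kid h hc
          omega
        · apply mem_desc_of_par h h1.1
          rw [h1.2]
          exact self_mem_desc r p x
      have key := caseI hsys d hd hu hkids (fun x hx => (hf x (hIX hx)).2.2.2.2) hI
      set C := (d + 1) ^ d with hC
      have hCpos : 0 < C := pow_pos (by omega) d
      rw [hK, mul_pow, ← pow_mul] at key
      have hpos : 0 < C ^ (2 * I.card) := pow_pos hCpos _
      exact Nat.le_of_mul_le_mul_right key hpos
    · rw [Finset.not_nonempty_iff_eq_empty] at hI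
      rw [hI]
      simpa using one_le_nU h

theorem exit_update {V : Type} [Fintype V] (Q : Finset V) (x : V) (hx : x ∉ Q) (g : V → V)
    (hg : LGood Q x g) (y z : V) (hz : z ∉ Q) (w : V) (hw : w ∈ Q) :
    ∃ k, (Function.update g y z)^[k] w ∉ Q := by
  by_contra hcon
  push Not at hcon
  have h1 : ∀ k, (Function.update g y z)^[k] w = g^[k] w := by
    intro k
    induction k with
    | zero => rfl
    | succ k ih =>
      rw [Function.iterate_succ_apply', Function.iterate_succ_apply', ih]
      have h2 : g^[k] w ≠ y := by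
        intro h3
        have h4 := hcon (k + 1)
        rw [Function.iterate_succ_apply', ih, h3, Function.update_self] at h4
        exact hz h4
      rw [Function.update_of_ne h2]
  obtain ⟨k, hk, -⟩ := hg w hw
  have h5 := hcon k
  rw [h1, hk] at h5
  exact hx h5

theorem hit_eq_of_LGood {V : Type} [Fintype V] (Q : Finset V) (x : V) (g : V → V)
    (hg : LGood Q x g) : hit Q x g = Q := by
  unfold hit
  exact Finset.filter_true_of_mem hg

theorem hit_update_leaf {V : Type} [Fintype V] (Q : Finset V) (x : V) (g : V → V)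
    (hg : LGood Q x g) (y z : V) (hleaf : ∀ v ∈ Q, g v ≠ y) :
    Q.erase y ⊆ hit Q x (Function.update g y z) := by
  intro w hw
  have hwQ := Finset.mem_of_mem_erase hw
  have hwy := Finset.ne_of_mem_erase hw
  obtain ⟨k, hk, hj⟩ := hg w hwQ
  have h1 : ∀ j ≤ k, (Function.update g y z)^[j] w = g^[j] w := by
    intro j
    induction j with
    | zero => intro _; rfl
    | succ j ih =>
      intro hjk
      rw [Function.iterate_succ_apply', Function.iterate_succ_apply', ih (by omega)]
      have h2 : g^[j] w ≠ y := by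
        cases j with
        | zero => exact hwy
        | succ j =>
          rw [Function.iterate_succ_apply']
          exact hleaf _ (hj j (by omega))
      rw [Function.update_of_ne h2]
  unfold hit
  refine Finset.mem_filter.2 ⟨hwQ, k, by rw [h1 k le_rfl]; exact hk, ?_⟩
  intro j hjk
  rw [h1 j hjk.le]
  exact hj j hjk

theorem ineqII' {V : Type} [Fintype V] {G : SimpleGraph V} {r : V} {p : V → V} (h : IsPar G r p)
    (d M X θ : ℕ)
    (h3 : ∀ v, 3 ≤ (nbr G v).card) (hd : ∀ v, (nbr G v).card ≤ d) (hM : 2 ≤ M)
    (hr : r ∈ heavy r p M)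
    (hX : X = (1 + d) * (1 + d * (M - 1))) (hθ : θ = X * 2 ^ X) :
    ∃ i w : ℕ, w ≤ (2 * (θ + 1) + d * M + 2) * (minH r p M).card ∧
      (univ.filter (fun v => kids r p v = ∅)).card ≤
        (1 + d * (M - 1)) * (w + i * (2 + (1 + d * (M - 1)) * d)) ∧
      2 ^ i ≤ Fintype.card V * numUnlabeled G * ((d + 1) ^ d) ^ w := by
  set H := heavy r p M with hH
  set b := 1 + d * (M - 1) with hb
  set good : V → Prop := fun v => ∃ c, kids r p v ∩ H = {c} ∧ 2 * (θ + 1) ≤ (desc r p c).card
    with hgooddef
  set W := H.filter (fun v => ¬ good v) with hW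
  set P0 := H.filter (fun v => good v ∧ tau r p M v ≠ {v}) with hP0
  have hP0H : ∀ x ∈ P0, x ∈ H := fun x hx => (Finset.mem_filter.1 hx).1
  have hmv : ∀ x : V, ∃ y z, x ∈ P0 → (y ∈ tau r p M x ∧ y ≠ x ∧ G.Adj y z ∧
      ((kids r p y = ∅ ∧ z ∉ tau r p M x) ∨
        (z ∈ tau r p M x ∧ z ∉ desc r p y ∧ dep r p z + 1 ≠ dep r p y))) := by
    intro x
    by_cases hx : x ∈ P0
    · obtain ⟨y, z, hyz⟩ := exists_move h M h3 x (hP0H x hx) (Finset.mem_filter.1 hx).2.2
      exact ⟨y, z, fun _ => hyz⟩
    · exact ⟨x, x, fun hx' => absurd hx' hx⟩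
  choose y z hyz using hmv
  obtain ⟨I, hIP, hconf, hcard⟩ := exists_conflict_free G d b hd P0 (tau r p M)
    (fun x hx => card_tau h d M hd (by omega) x)
    (fun x hx y hy hxy => tau_disj h M x y (hP0H x hx) (hP0H y hy) hxy) y z
    (fun x hx => (hyz x hx).1) (fun x hx => (hyz x hx).2.2.1)
  set Q : V → Finset V := fun x => (tau r p M x).erase x with hQ
  set f : V → ℕ → V → V := fun x s => if s = 0 then p else Function.update p (y x) (z x) with hf
  have hIH : ∀ x ∈ I, x ∈ H := fun x hx => hP0H x (hIP hx)
  have hI := fun x (hx : x ∈ I) => hyz x (hIP hx)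
  have hQtau : ∀ x w, w ∈ Q x ↔ w ≠ x ∧ w ∈ tau r p M x := fun x w => Finset.mem_erase
  have hQl : ∀ x w, w ∈ Q x → w ∉ H ∧ w ≠ r ∧ p w ∈ tau r p M x := by
    intro x w hw
    obtain ⟨h1, h2⟩ := (hQtau x w).1 hw
    exact tau_light h M x w h2 h1
  have hxQ : ∀ x, x ∉ Q x := fun x hx => ((hQtau x x).1 hx).1 rfl
  have hLG : ∀ x, LGood (Q x) x p := fun x => (LGood_tau h M x).1
  have htm : ∀ x, ∀ v ∈ tau r p M x, tm x p v = dep r p v - dep r p x :=
    fun x => (LGood_tau h M x).2
  have hyQ : ∀ x ∈ I, y x ∈ Q x := fun x hx => (hQtau x _).2 ⟨(hI x hx).2.1, (hI x hx).1⟩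
  have hsplit : ∀ x w, w ∈ tau r p M x → w ∈ Q x ∨ w = x := by
    intro x w hw
    by_cases h1 : w = x
    · exact Or.inr h1
    · exact Or.inl ((hQtau x w).2 ⟨h1, hw⟩)
  -- in the second case the update is again good
  have hLG1 : ∀ x ∈ I, z x ∈ tau r p M x → LGood (Q x) x (Function.update p (y x) (z x)) := by
    intro x hx hz
    have h1 := hI x hx
    have h2 : z x ∉ desc r p (y x) := by
      rcases h1.2.2.2 with h2 | h2
      · exact absurd hz h2.2
      · exact h2.2.1
    refine LGood_update (Q x) x (hxQ x) p (hLG x) (y x) (z x) (hyQ x hx) (hsplit x _ hz) ?_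
    intro k hk hkz
    apply h2
    unfold desc
    refine Finset.mem_filter.2 ⟨Finset.mem_univ _, k, ?_, hkz⟩
    rw [htm x _ hz] at hk
    omega
  have hsys : Sys G r p I Q z 2 f := by
    refine ⟨h, ?_, ?_, ?_, ?_, ?_, ?_, ?_⟩
    · intro x hx x' hx' hxy
      exact Finset.disjoint_of_subset_left (Finset.erase_subset _ _)
        (Finset.disjoint_of_subset_right (Finset.erase_subset _ _)
          (tau_disj h M x x' (hIH x hx) (hIH x' hx') hxy))
    · intro x hx hrx
      exact (hQl x r hrx).2.1 rfl
    · intro x hx x' hx' hxy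
      exact (hQl x' x hxy).1 (hIH x hx)
    · intro w hw x hx hpw
      obtain ⟨h1, h2, h3'⟩ := hQl x _ hpw
      by_cases hwr : w = r
      · rw [hwr, h.root] at h2
        exact h2 rfl
      · have hwH : w ∉ H := fun hwH => h1 (heavy_par h M w hwH)
        have hw1 : w ∈ tau r p M x := by
          refine tau_kid h M x (p w) w ((hQtau x _).1 hpw).2 ?_ hwH
          rw [mem_kids]
          exact ⟨hwr, rfl⟩
        apply hw x hx
        refine (hQtau x w).2 ⟨?_, hw1⟩
        rintro rfl
        exact hwH (hIH w hx)
    · intro x hx s hs w hw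
      by_cases hs0 : s = 0
      · simp only [hf, if_pos hs0]
        exact h.adj w (hQl x w hw).2.1
      · simp only [hf, if_neg hs0]
        by_cases hwy : w = y x
        · rw [hwy, Function.update_self]
          exact (hI x hx).2.2.1
        · rw [Function.update_of_ne hwy]
          exact h.adj w (hQl x w hw).2.1
    · intro x hx s hs w hw
      have hpw : p w ∈ Q x ∨ p w = x := hsplit x _ (hQl x w hw).2.2
      by_cases hs0 : s = 0
      · simp only [hf, if_pos hs0]
        rcases hpw with h1 | h1
        · exact Or.inl h1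
        · exact Or.inr (Or.inl h1)
      · simp only [hf, if_neg hs0]
        by_cases hwy : w = y x
        · rw [hwy, Function.update_self]
          by_cases hz : z x ∈ tau r p M x
          · rcases hsplit x _ hz with h1 | h1
            · exact Or.inl h1
            · exact Or.inr (Or.inl h1)
          · refine Or.inr (Or.inr ⟨rfl, ?_⟩)
            intro x' hx'
            have h1 : z x ∉ tau r p M x' := by
              by_cases hxx : x = x'
              · rw [← hxx]
                exact hz
              · exact hconf x hx x' hx' hxx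
            refine ⟨fun h2 => h1 ((hQtau x' _).1 h2).2, fun h2 => h1 ?_⟩
            rw [h2]
            exact self_mem_tau h M x'
        · rw [Function.update_of_ne hwy]
          rcases hpw with h1 | h1
          · exact Or.inl h1
          · exact Or.inr (Or.inl h1)
    · intro x hx s hs w hw
      by_cases hs0 : s = 0
      · simp only [hf, if_pos hs0]
        obtain ⟨k, hk, -⟩ := hLG x w hw
        exact ⟨k, by rw [hk]; exact hxQ x⟩
      · simp only [hf, if_neg hs0]
        by_cases hz : z x ∈ tau r p M x
        · obtain ⟨k, hk, -⟩ := hLG1 x hx hz w hw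
          exact ⟨k, by rw [hk]; exact hxQ x⟩
        · exact exit_update (Q x) x (hxQ x) p (hLG x) (y x) (z x)
            (fun h1 => hz ((hQtau x _).1 h1).2) w hw
  -- leaves
  have hyleaf : ∀ x ∈ I, z x ∉ tau r p M x → ∀ c ∈ Q x, p c ≠ y x := by
    intro x hx hz c hc hpc
    rcases (hI x hx).2.2.2 with h1 | h1
    · have h2 : c ∈ kids r p (y x) := (mem_kids r p _ _).2 ⟨(hQl x c hc).2.1, hpc⟩
      rw [h1.1] at h2
      exact absurd h2 (Finset.notMem_empty _)
    · exact hz h1.1
  have hlam : ∀ x ∈ I, lam (Q x) x (f x 0) ≠ lam (Q x) x (f x 1) := by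
    intro x hx
    have e0 : f x 0 = p := by simp [hf]
    have e1 : f x 1 = Function.update p (y x) (z x) := by simp [hf]
    rw [e0, e1]
    by_cases hz : z x ∈ tau r p M x
    · have h1 : dep r p (z x) + 1 ≠ dep r p (y x) := by
        rcases (hI x hx).2.2.2 with h2 | h2
        · exact absurd hz h2.2
        · exact h2.2.2
      have h2 : dep r p x ≤ dep r p (z x) := by
        have : z x ∈ desc r p x := (Finset.mem_filter.1 hz).1
        exact (dep_le_of_desc h this).1
      have h2' : dep r p x ≤ dep r p (y x) := by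
        have : y x ∈ desc r p x := (Finset.mem_filter.1 (hI x hx).1).1
        exact (dep_le_of_desc h this).1
      have h3' := htm x _ hz
      have h4 := htm x _ (hI x hx).1
      by_cases h5 : tm x p (y x) ≤ tm x p (z x)
      · exact (lam_update_lt (Q x) x (hxQ x) p (hLG x) (y x) (z x) (hyQ x hx) (hsplit x _ hz)
          (hLG1 x hx hz) h5).ne
      · refine (lam_update_gt (Q x) x (hxQ x) p (hLG x) (y x) (z x) (hyQ x hx) (hsplit x _ hz)
          (hLG1 x hx hz) ?_).ne'
        omega
    · refine (lam_update_leaf (Q x) x (hxQ x) p (hLG x) (y x) (z x) (hyQ x hx)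
        (fun h1 => hz ((hQtau x _).1 h1).2) ?_ (hyleaf x hx hz)).ne'
      intro h1
      apply hz
      rw [h1]
      exact self_mem_tau h M x
  have hkidsI : ∀ x ∈ I, ∀ c ∈ kids r p x, c ∉ H → c ∈ Q x := by
    intro x hx c hc hcH
    refine (hQtau x c).2 ⟨?_, tau_kid h M x x c (self_mem_tau h M x) hc hcH⟩
    rintro rfl
    exact hcH (hIH c hx)
  have hE : ∀ x ∈ I, ∀ s < 2, (Q x \ hit (Q x) x (f x s)).card ≤ 1 := by
    intro x hx s hs
    by_cases hs0 : s = 0
    · simp only [hf, if_pos hs0]
      rw [hit_eq_of_LGood (Q x) x p (hLG x)]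
      simp
    · simp only [hf, if_neg hs0]
      by_cases hz : z x ∈ tau r p M x
      · rw [hit_eq_of_LGood (Q x) x _ (hLG1 x hx hz)]
        simp
      · have h1 := hit_update_leaf (Q x) x p (hLG x) (y x) (z x) (hyleaf x hx hz)
        have h2 : Q x \ hit (Q x) x (Function.update p (y x) (z x)) ⊆ {y x} := by
          intro w hw
          rw [Finset.mem_sdiff] at hw
          rw [Finset.mem_singleton]
          by_contra hne
          exact hw.2 (h1 (Finset.mem_erase.2 ⟨hne, hw.1⟩))
        calc _ ≤ ({y x} : Finset V).card := Finset.card_le_card h2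
          _ = 1 := Finset.card_singleton _
  have hleaf : ∀ x ∈ I, ∀ s < 2, ∀ w ∈ Q x, f x s w ∉ Q x → f x s w ≠ x →
      ∀ c ∈ Q x, f x s c ≠ w := by
    intro x hx s hs w hw h1 h2 c hc
    have hpw : p w ∈ Q x ∨ p w = x := hsplit x _ (hQl x w hw).2.2
    by_cases hs0 : s = 0
    · simp only [hf, if_pos hs0] at h1 h2
      rcases hpw with h4 | h4
      · exact absurd h4 h1
      · exact absurd h4 h2
    · simp only [hf, if_neg hs0] at h1 h2 ⊢
      by_cases hwy : w = y x
      · rw [hwy, Function.update_self] at h1 h2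
        have hz : z x ∉ tau r p M x := by
          intro hz
          rcases hsplit x _ hz with h4 | h4
          · exact h1 h4
          · exact h2 h4
        rw [hwy]
        by_cases hcy : c = y x
        · rw [hcy, Function.update_self]
          exact (hI x hx).2.2.1.ne'
        · rw [Function.update_of_ne hcy]
          exact hyleaf x hx hz c hc
      · rw [Function.update_of_ne hwy] at h1 h2
        rcases hpw with h4 | h4
        · exact absurd h4 h1
        · exact absurd h4 h2
  have hgood : ∀ v ∈ H \ W, ∃ c ∈ H, kids r p v ∩ H = {c} ∧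
      ∀ S : V → ℕ, (∀ x ∈ I, S x < 2) → θ < psi r (asm p I Q f S) c ∧
        ∀ c' ∈ kids r (asm p I Q f S) v, c' ≠ c → psi r (asm p I Q f S) c' ≤ θ := by
    intro v hv
    rw [Finset.mem_sdiff] at hv
    have hgv : good v := by
      by_contra hng
      exact hv.2 (Finset.mem_filter.2 ⟨hv.1, hng⟩)
    obtain ⟨c, hc1, hc2⟩ := hgv
    have hcm : c ∈ kids r p v ∩ H := by rw [hc1]; exact Finset.mem_singleton_self c
    have hcH := (Finset.mem_inter.1 hcm).2
    refine ⟨c, hcH, hc1, ?_⟩
    intro S hS
    constructor
    · have h1 := big_lower hsys M hIH (fun x _ => rfl) hE S hS c hcH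
      have h2 := psi_ge_card r (asm p I Q f S) c
      omega
    · intro c' hc' hne
      have hvQ : ∀ x ∈ I, v ∉ Q x := fun x _ h1 => (hQl x v h1).1 hv.1
      have hc'H : c' ∉ H := by
        rcases kids_asm hsys S hS v hvQ c' hc' with h1 | ⟨x, hx, h1, -⟩
        · intro h2
          have h4 : c' ∈ kids r p v ∩ H := Finset.mem_inter.2 ⟨h1.1, h2⟩
          rw [hc1, Finset.mem_singleton] at h4
          exact hne h4
        · exact (hQl x c' h1).1
      have h1 := small_upper hsys d M b hd hIH (fun x _ => rfl) hleaf S hS v hv.1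
        (card_tau h d M hd (by omega) v) c' hc' hc'H
      rw [hθ, hX]
      exact psi_le (asm_isPar hsys S hS) c' _ h1
  have key := caseII hsys d hd H W (Finset.filter_subset _ _) hr
    (fun v hv _ => heavy_par h M v hv)
    (by
      intro x hx
      rw [Finset.mem_sdiff]
      refine ⟨hIH x hx, ?_⟩
      intro h1
      exact (Finset.mem_filter.1 h1).2 (Finset.mem_filter.1 (hIP hx)).2.1)
    (fun x _ v hv => (hQl x v hv).1) hlam hkidsI θ hgood
  refine ⟨I.card, W.card, ?_, ?_, key⟩
  · -- the number of the bad heavy vertices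
    have h1 : W ⊆ (H.filter (fun v => 2 ≤ (kids r p v ∩ H).card)) ∪
        (H.filter (fun v => (desc r p v).card ≤ 2 * (θ + 1) + d * M)) := by
      intro v hv
      obtain ⟨hvH, hng⟩ := Finset.mem_filter.1 hv
      rw [Finset.mem_union]
      by_cases h2 : 2 ≤ (kids r p v ∩ H).card
      · exact Or.inl (Finset.mem_filter.2 ⟨hvH, h2⟩)
      · refine Or.inr (Finset.mem_filter.2 ⟨hvH, ?_⟩)
        rw [card_desc h v]
        have h4 : ∑ c ∈ kids r p v, (desc r p c).card =
            ∑ c ∈ kids r p v ∩ H, (desc r p c).card + ∑ c ∈ kids r p v \ H, (desc r p c).card := by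
          rw [← Finset.sum_inter_add_sum_sdiff]
        have h5 : ∑ c ∈ kids r p v ∩ H, (desc r p c).card ≤ 2 * (θ + 1) - 1 := by
          have h6 : (kids r p v ∩ H).card = 0 ∨ (kids r p v ∩ H).card = 1 := by omega
          rcases h6 with h6 | h6
          · rw [Finset.card_eq_zero.1 h6]
            simp
          · obtain ⟨c, hc⟩ := Finset.card_eq_one.1 h6
            rw [hc, Finset.sum_singleton]
            by_contra hcon
            exact hng ⟨c, hc, by omega⟩
        have h7 : ∑ c ∈ kids r p v \ H, (desc r p c).card ≤ d * (M - 1) := by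
          calc ∑ c ∈ kids r p v \ H, (desc r p c).card ≤ ∑ _c ∈ kids r p v \ H, (M - 1) := by
                apply Finset.sum_le_sum
                intro c hc
                have h8 := (Finset.mem_sdiff.1 hc).2
                rw [hH, heavy, Finset.mem_filter] at h8
                have h9 : ¬ M ≤ (desc r p c).card := fun h9 => h8 ⟨Finset.mem_univ _, h9⟩
                omega
            _ = (kids r p v \ H).card * (M - 1) := by rw [Finset.sum_const, smul_eq_mul]
            _ ≤ d * (M - 1) := by
                apply Nat.mul_le_mul_right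
                calc (kids r p v \ H).card ≤ (kids r p v).card :=
                      Finset.card_le_card Finset.sdiff_subset
                  _ ≤ (nbr G v).card := Finset.card_le_card (kids_sub h v)
                  _ ≤ d := hd v
        have h10 : d * (M - 1) ≤ d * M := Nat.mul_le_mul_left _ (by omega)
        rw [h4]
        omega
    calc W.card ≤ _ := Finset.card_le_card h1
      _ ≤ _ := Finset.card_union_le _ _
      _ ≤ (minH r p M).card + (2 * (θ + 1) + d * M + 1) * (minH r p M).card :=
          Nat.add_le_add (card_heavy_branch h M hr) (card_heavy_small h M _)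
      _ = (2 * (θ + 1) + d * M + 2) * (minH r p M).card := by ring
  · -- childless vertices
    have h1 : univ.filter (fun v => kids r p v = ∅) ⊆
        (W ∪ P0).biUnion (tau r p M) := by
      intro v hv
      have hv0 := (Finset.mem_filter.1 hv).2
      obtain ⟨x, hx, hvx⟩ := exists_tau h M hr v
      rw [Finset.mem_biUnion]
      refine ⟨x, ?_, hvx⟩
      have hcv : (desc r p v).card = 1 := by
        rw [card_desc h v, hv0]
        simp
      have hne : v ≠ x := by
        rintro rfl
        have := (Finset.mem_filter.1 hx).2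
        omega
      have htx : tau r p M x ≠ {x} := by
        intro h2
        rw [h2, Finset.mem_singleton] at hvx
        exact hne hvx
      rw [Finset.mem_union]
      by_cases hg : good x
      · exact Or.inr (Finset.mem_filter.2 ⟨hx, hg, htx⟩)
      · exact Or.inl (Finset.mem_filter.2 ⟨hx, hg⟩)
    calc (univ.filter (fun v => kids r p v = ∅)).card ≤ ((W ∪ P0).biUnion (tau r p M)).card :=
          Finset.card_le_card h1
      _ ≤ (W ∪ P0).card * b := Finset.card_biUnion_le_card_mul _ _ _
          (fun x _ => card_tau h d M hd (by omega) x)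
      _ ≤ (W.card + P0.card) * b := Nat.mul_le_mul_right _ (Finset.card_union_le _ _)
      _ ≤ (W.card + I.card * (2 + b * d)) * b :=
          Nat.mul_le_mul_right _ (Nat.add_le_add_left hcard _)
      _ = b * (W.card + I.card * (2 + b * d)) := Nat.mul_comm _ _

end Pool.Agent.H142.NT
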